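import Mathlib

/-!
# Lipschitz-free spaces, the textbook construction

`LipZero M o`: the Lipschitz functions `f : M → ℝ` with `f o = 0`, normed by
`‖f‖ = sup |f x - f y| / d (x, y)`. `evalAt o x`: the evaluation at `x`, a bounded linear functional on
`LipZero M o`. `FreeSp M o`: the closure of the linear span of the evaluations.
-/

set_option autoImplicit false
set_option maxSynthPendingDepth 3

open Set

noncomputable section

namespace Pool.Agent.Helper51.FreeC

/-- The Lipschitz functions which vanish at `o`, as a vector space of functions. -/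
def lipSub (M : Type) [MetricSpace M] (o : M) : Submodule ℝ (M → ℝ) where
  carrier := {f | f o = 0 ∧ ∃ K : ℝ, ∀ x y, |f x - f y| ≤ K * dist x y}
  add_mem' := by
    rintro f g ⟨hf, K, hK⟩ ⟨hg, L, hL⟩
    refine ⟨by simp [hf, hg], K + L, fun x y => ?_⟩
    have h1 : (f + g) x - (f + g) y = (f x - f y) + (g x - g y) := by
      simp only [Pi.add_apply]
      ring
    rw [h1, add_mul]
    exact (abs_add_le _ _).trans (add_le_add (hK x y) (hL x y))
  zero_mem' := ⟨rfl, 0, fun x y => by simp⟩
  smul_mem' := by
    rintro c f ⟨hf, K, hK⟩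
    refine ⟨by simp [hf], |c| * K, fun x y => ?_⟩
    have h1 : (c • f) x - (c • f) y = c * (f x - f y) := by
      simp only [Pi.smul_apply, smul_eq_mul]
      ring
    rw [h1, abs_mul, mul_assoc]
    exact mul_le_mul_of_nonneg_left (hK x y) (abs_nonneg c)

/-- The space `Lip₀(M)` of Lipschitz functions which vanish at the base point `o`. -/
def LipZero (M : Type) [MetricSpace M] (o : M) : Type := lipSub M o

variable {M : Type} [MetricSpace M] {o : M}

instance : AddCommGroup (LipZero M o) := (lipSub M o).addCommGroup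

instance : Module ℝ (LipZero M o) := (lipSub M o).module

/-- The values of an element of `Lip₀(M)`. -/
def LipZero.val (f : LipZero M o) : M → ℝ := Subtype.val (p := fun g => g ∈ lipSub M o) f

theorem LipZero.val_add (f g : LipZero M o) (x : M) : (f + g).val x = f.val x + g.val x := rfl

theorem LipZero.val_smul (c : ℝ) (f : LipZero M o) (x : M) : (c • f).val x = c * f.val x := rfl

theorem LipZero.val_zero (x : M) : (0 : LipZero M o).val x = 0 := rfl

theorem LipZero.val_base (f : LipZero M o) : f.val o = 0 :=
  (Subtype.property (p := fun g => g ∈ lipSub M o) f).1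

theorem LipZero.lip (f : LipZero M o) : ∃ K : ℝ, ∀ x y, |f.val x - f.val y| ≤ K * dist x y :=
  (Subtype.property (p := fun g => g ∈ lipSub M o) f).2

/-- The best Lipschitz constant `sup |f x - f y| / d (x, y)`. -/
instance : Norm (LipZero M o) := ⟨fun f => ⨆ p : M × M, |f.val p.1 - f.val p.2| / dist p.1 p.2⟩

theorem LipZero.norm_def (f : LipZero M o) :
    ‖f‖ = ⨆ p : M × M, |f.val p.1 - f.val p.2| / dist p.1 p.2 := rfl

theorem LipZero.bdd (f : LipZero M o) :
    BddAbove (range fun p : M × M => |f.val p.1 - f.val p.2| / dist p.1 p.2) := by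
  obtain ⟨K, hK⟩ := f.lip
  refine ⟨max K 0, ?_⟩
  rintro _ ⟨p, rfl⟩
  have h1 := hK p.1 p.2
  refine div_le_of_le_mul₀ dist_nonneg (le_max_right _ _) (h1.trans ?_)
  exact mul_le_mul_of_nonneg_right (le_max_left _ _) dist_nonneg

theorem LipZero.abs_le (f : LipZero M o) (x y : M) : |f.val x - f.val y| ≤ ‖f‖ * dist x y := by
  rcases eq_or_ne x y with h | h
  · rw [h]
    simp
  · have h1 := le_ciSup f.bdd (x, y)
    rw [← div_le_iff₀ (dist_pos.2 h)]
    exact h1

theorem LipZero.norm_le (f : LipZero M o) {K : ℝ} (hK : 0 ≤ K)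
    (h : ∀ x y, |f.val x - f.val y| ≤ K * dist x y) : ‖f‖ ≤ K := by
  rw [LipZero.norm_def]
  have : Nonempty (M × M) := ⟨(o, o)⟩
  refine ciSup_le fun p => div_le_of_le_mul₀ dist_nonneg hK (h _ _)

theorem LipZero.norm_nonneg' (f : LipZero M o) : 0 ≤ ‖f‖ :=
  Real.iSup_nonneg fun p => div_nonneg (abs_nonneg _) dist_nonneg

theorem LipZero.core : NormedSpace.Core ℝ (LipZero M o) where
  norm_nonneg := LipZero.norm_nonneg'
  norm_smul := by
    intro c f
    rw [LipZero.norm_def, LipZero.norm_def, Real.norm_eq_abs, Real.mul_iSup_of_nonneg (abs_nonneg c)]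
    congr 1
    funext p
    rw [LipZero.val_smul, LipZero.val_smul, ← mul_sub, abs_mul, mul_div_assoc]
  norm_triangle := by
    intro f g
    refine LipZero.norm_le _ (add_nonneg f.norm_nonneg' g.norm_nonneg') fun x y => ?_
    rw [LipZero.val_add, LipZero.val_add, add_mul]
    have h1 : f.val x + g.val x - (f.val y + g.val y) =
        (f.val x - f.val y) + (g.val x - g.val y) := by ring
    rw [h1]
    exact (abs_add_le _ _).trans (add_le_add (f.abs_le x y) (g.abs_le x y))
  norm_eq_zero_iff := by
    intro f
    constructor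
    · intro h
      apply Subtype.ext
      funext x
      have h1 := f.abs_le x o
      rw [h, zero_mul, f.val_base, sub_zero] at h1
      exact abs_eq_zero.1 (le_antisymm h1 (abs_nonneg _))
    · intro h
      rw [h]
      refine le_antisymm (LipZero.norm_le _ le_rfl fun x y => ?_) (LipZero.norm_nonneg' _)
      rw [LipZero.val_zero, LipZero.val_zero]
      simp

instance : NormedAddCommGroup (LipZero M o) := NormedAddCommGroup.ofCore LipZero.core

instance : NormedSpace ℝ (LipZero M o) where
  norm_smul_le := fun c f => (LipZero.core.norm_smul c f).le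

/-- The element of `Lip₀(M)` given by a function. -/
def LipZero.mk' (f : M → ℝ) (h0 : f o = 0) (h : ∃ K : ℝ, ∀ x y, |f x - f y| ≤ K * dist x y) :
    LipZero M o := (⟨f, h0, h⟩ : lipSub M o)

theorem LipZero.mk'_val (f : M → ℝ) (h0 : f o = 0)
    (h : ∃ K : ℝ, ∀ x y, |f x - f y| ≤ K * dist x y) : (LipZero.mk' f h0 h).val = f := rfl

/-- The dual Banach space of `X`, with the operator norm. -/
def BDual (X : Type) [NormedAddCommGroup X] [NormedSpace ℝ X] : Type := X →L[ℝ] ℝ

instance {X : Type} [NormedAddCommGroup X] [NormedSpace ℝ X] : NormedAddCommGroup (BDual X) :=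
  ContinuousLinearMap.toNormedAddCommGroup

instance {X : Type} [NormedAddCommGroup X] [NormedSpace ℝ X] : NormedSpace ℝ (BDual X) :=
  ContinuousLinearMap.toNormedSpace

instance {X : Type} [NormedAddCommGroup X] [NormedSpace ℝ X] : CompleteSpace (BDual X) :=
  inferInstanceAs (CompleteSpace (X →L[ℝ] ℝ))

/-- The value of a functional. -/
def BDual.ev {X : Type} [NormedAddCommGroup X] [NormedSpace ℝ X] (φ : BDual X) (x : X) : ℝ :=
  (show X →L[ℝ] ℝ from φ) x

/-- The evaluation `δ(x) : Lip₀(M) → ℝ`, `f ↦ f x`, a bounded linear functional. -/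
def evalAt (o x : M) : BDual (LipZero M o) :=
  LinearMap.mkContinuous
    { toFun := fun f => f.val x
      map_add' := fun f g => LipZero.val_add f g x
      map_smul' := fun c f => LipZero.val_smul c f x } (dist x o) (fun f => by
        have h1 := f.abs_le x o
        rw [f.val_base, sub_zero] at h1
        rw [mul_comm]
        exact h1)

theorem evalAt_apply (o x : M) (f : LipZero M o) : (evalAt o x).ev f = f.val x := rfl

/-- The Lipschitz-free space `F(M)`: the closed linear span of the evaluations in `Lip₀(M)*`. -/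
def FreeSp (M : Type) [MetricSpace M] (o : M) : Submodule ℝ (BDual (LipZero M o)) :=
  (Submodule.span ℝ (Set.range (evalAt o))).topologicalClosure

/-- The Lipschitz-free space `F(M)` as a Banach space, with the norm of `Lip₀(M)*`. -/
def FreeSpace (M : Type) [MetricSpace M] (o : M) : Type := FreeSp M o

instance : NormedAddCommGroup (FreeSpace M o) := Submodule.normedAddCommGroup (FreeSp M o)

instance : NormedSpace ℝ (FreeSpace M o) := Submodule.normedSpace (FreeSp M o)

instance : CompleteSpace (FreeSpace M o) := by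
  have h : CompleteSpace (FreeSp M o) := by
    unfold FreeSp
    infer_instance
  exact h

/-- `δ(x)` as an element of `F(M)`. -/
def del (o x : M) : FreeSp M o :=
  ⟨evalAt o x, Submodule.le_topologicalClosure _ (Submodule.subset_span ⟨x, rfl⟩)⟩

/-- `δ(x)` as an element of `F(M)`. -/
def dirac (o x : M) : FreeSpace M o := del o x

theorem del_base (o : M) : del o o = 0 := by
  apply Subtype.ext
  apply ContinuousLinearMap.ext
  intro f
  exact f.val_base

theorem norm_del_sub_le (o x y : M) : ‖del o x - del o y‖ ≤ dist x y := by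
  change ‖evalAt o x - evalAt o y‖ ≤ dist x y
  refine ContinuousLinearMap.opNorm_le_bound _ dist_nonneg fun f => ?_
  have h1 := f.abs_le x y
  rw [mul_comm] at h1
  exact h1

theorem dense_span_del (o : M) :
    Dense ((Submodule.span ℝ (Set.range (del o)) : Submodule ℝ (FreeSp M o)) :
      Set (FreeSp M o)) := by
  intro x
  rw [closure_subtype]
  have h1 : ((↑) : FreeSp M o → BDual (LipZero M o)) ''
      ((Submodule.span ℝ (Set.range (del o)) : Submodule ℝ (FreeSp M o)) : Set (FreeSp M o)) =
      ((Submodule.span ℝ (Set.range (evalAt o)) : Submodule ℝ (BDual (LipZero M o))) :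
        Set (BDual (LipZero M o))) := by
    have h2 : (Submodule.span ℝ (Set.range (del o))).map (FreeSp M o).subtype =
        Submodule.span ℝ (Set.range (evalAt o)) := by
      rw [Submodule.map_span]
      congr 1
      rw [← Set.range_comp]
      rfl
    rw [← h2]
    rfl
  rw [h1]
  exact x.2

/-- The extension property for real functions. -/
theorem exists_ext (o : M) (f : M → ℝ) (K : ℝ) (hK : 0 ≤ K)
    (hf : ∀ x y, |f x - f y| ≤ K * dist x y) (h0 : f o = 0) :
    ∃ T : FreeSp M o →L[ℝ] ℝ, ‖T‖ ≤ K ∧ ∀ m, T (del o m) = f m := by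
  refine ⟨(ContinuousLinearMap.apply ℝ ℝ (LipZero.mk' f h0 ⟨K, hf⟩)).comp
    (FreeSp M o).subtypeL, ?_, fun m => rfl⟩
  refine ContinuousLinearMap.opNorm_le_bound _ hK fun x => ?_
  have h1 : ‖LipZero.mk' f h0 ⟨K, hf⟩‖ ≤ K := LipZero.norm_le _ hK hf
  have h2 := ContinuousLinearMap.le_opNorm (x : BDual (LipZero M o))
    (LipZero.mk' f h0 ⟨K, hf⟩)
  refine h2.trans ?_
  rw [mul_comm]
  exact mul_le_mul_of_nonneg_right h1 (norm_nonneg _)

/-- The bidual Banach space of `X`. -/
def Bidual (X : Type) [NormedAddCommGroup X] [NormedSpace ℝ X] : Type := BDual (BDual X)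

instance {X : Type} [NormedAddCommGroup X] [NormedSpace ℝ X] : NormedAddCommGroup (Bidual X) :=
  instNormedAddCommGroupBDual (X := BDual X)

instance {X : Type} [NormedAddCommGroup X] [NormedSpace ℝ X] : NormedSpace ℝ (Bidual X) :=
  instNormedSpaceRealBDual (X := BDual X)

/-- The canonical embedding of `X` into its bidual: `(can x)(φ) = φ(x)`. -/
def can {X : Type} [NormedAddCommGroup X] [NormedSpace ℝ X] (x : X) : Bidual X :=
  LinearMap.mkContinuous
    { toFun := fun φ => φ.ev x
      map_add' := fun _ _ => rfl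
      map_smul' := fun _ _ => rfl } ‖x‖ (fun φ => by
        rw [mul_comm]
        exact ContinuousLinearMap.le_opNorm (show X →L[ℝ] ℝ from φ) x)

theorem can_eq {X : Type} [NormedAddCommGroup X] [NormedSpace ℝ X] (x : X) :
    can x = NormedSpace.inclusionInDoubleDual ℝ X x := rfl

/-- `X` is complemented in its bidual: there is a bounded linear projection of `X**` onto the image of
`X` under the canonical embedding. -/
def ComplementedInBidual (X : Type) [NormedAddCommGroup X] [NormedSpace ℝ X] : Prop :=
  ∃ P : Bidual X →L[ℝ] Bidual X,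
    (∀ z, P (P z) = P z) ∧ Set.range P = Set.range (can (X := X))

theorem norm_can {X : Type} [NormedAddCommGroup X] [NormedSpace ℝ X] (x : X) : ‖can x‖ = ‖x‖ :=
  (NormedSpace.inclusionInDoubleDualLi ℝ (E := X)).norm_map x

theorem can_add {X : Type} [NormedAddCommGroup X] [NormedSpace ℝ X] (x y : X) :
    can (x + y) = can x + can y :=
  (NormedSpace.inclusionInDoubleDualLi ℝ (E := X)).map_add x y

theorem can_smul {X : Type} [NormedAddCommGroup X] [NormedSpace ℝ X] (c : ℝ) (x : X) :
    can (c • x) = c • can x :=
  (NormedSpace.inclusionInDoubleDualLi ℝ (E := X)).map_smul c x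

theorem can_injective {X : Type} [NormedAddCommGroup X] [NormedSpace ℝ X] :
    Function.Injective (can (X := X)) :=
  (NormedSpace.inclusionInDoubleDualLi ℝ (E := X)).injective

/-- A projection of the bidual onto the canonical copy of a Banach space `X` gives a left inverse of
the canonical embedding. -/
theorem exists_left_inverse {X : Type} [NormedAddCommGroup X] [NormedSpace ℝ X]
    (h : ComplementedInBidual X) :
    ∃ Q : ((X →L[ℝ] ℝ) →L[ℝ] ℝ) →L[ℝ] X, ∀ x : X, Q (ContinuousLinearMap.apply ℝ ℝ x) = x := by
  obtain ⟨P, hP, hr⟩ := h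
  have hmem : ∀ φ, P φ ∈ Set.range (can (X := X)) := by
    intro φ
    rw [← hr]
    exact ⟨φ, rfl⟩
  choose q hq using hmem
  let Q : Bidual X →ₗ[ℝ] X :=
    { toFun := q
      map_add' := by
        intro φ ψ
        apply can_injective
        rw [can_add, hq, hq, hq, map_add]
      map_smul' := by
        intro c φ
        apply can_injective
        rw [can_smul, hq, hq, map_smul, RingHom.id_apply] }
  refine ⟨Q.mkContinuous ‖P‖ fun φ => ?_, fun x => ?_⟩
  · change ‖q φ‖ ≤ _
    rw [← norm_can, hq]
    exact P.le_opNorm φ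
  · change q (can x) = x
    apply can_injective
    rw [hq]
    have h1 : can x ∈ Set.range P := by
      rw [hr]
      exact ⟨x, rfl⟩
    obtain ⟨φ, hφ⟩ := h1
    rw [← hφ, hP]

end Pool.Agent.Helper51.FreeC
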