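import Pool.Agent.Helper51.FreeL1Final
import Pool.Agent.Helper51.FreeConcrete

/-!
# The concrete Lipschitz-free space over a normed space containing large copies of `ℓ₁ⁿ`
-/

set_option autoImplicit false
set_option maxSynthPendingDepth 3

noncomputable section

namespace Pool.Agent.Helper51.FreeC

open Pool.Agent.Helper51.FreeL1

theorem freeData_del (E : Type) [NormedAddCommGroup E] [NormedSpace ℝ E] :
    FreeData (dirac (0 : E)) where
  zero := del_base 0
  lip := fun x y => by
    have h := norm_del_sub_le (0 : E) x y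
    rwa [dist_eq_norm x y] at h
  dense := dense_span_del 0
  univ := fun f K hK hf h0 => exists_ext 0 f K hK (fun x y => by
    rw [dist_eq_norm]
    exact hf x y) h0

theorem not_complemented {E : Type} [NormedAddCommGroup E] [NormedSpace ℝ E]
    (hE : ∀ n : ℕ, ∃ (e : (Fin n → Bool) → E) (c : (Fin n → Bool) → (E →L[ℝ] ℝ)), Sys e c) :
    ¬ ComplementedInBidual (FreeSpace E 0) := by
  intro h
  obtain ⟨Q, hQ⟩ := exists_left_inverse h
  obtain ⟨Θ, CΘ, hC, hΘ, hlim⟩ := exists_genLim Q hQ
  obtain ⟨n, hn⟩ := exists_nat_gt (3 * (3 * CΘ + 1) ^ 2)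
  obtain ⟨e, c, hs⟩ := hE n
  have := main_bound (freeData_del E) Θ CΘ hΘ hC hlim n e c hs
  linarith

/-- coordinate functionals on `ℓ₁` -/
def coordL (i : ℕ) : lp (fun _ : ℕ => ℝ) 1 →L[ℝ] ℝ :=
  LinearMap.mkContinuous
    { toFun := fun f => f i
      map_add' := fun f g => by simp
      map_smul' := fun c f => by simp } 1 (fun f => by
        rw [one_mul]
        exact lp.norm_apply_le_norm one_ne_zero f i)

theorem coordL_apply (i : ℕ) (f : lp (fun _ : ℕ => ℝ) 1) : coordL i f = f i := rfl

theorem exists_sysL (n : ℕ) : ∃ (e : (Fin n → Bool) → lp (fun _ : ℕ => ℝ) 1)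
    (c : (Fin n → Bool) → (lp (fun _ : ℕ => ℝ) 1 →L[ℝ] ℝ)), Sys e c := by
  classical
  obtain ⟨code, hcode⟩ : ∃ code : (Fin n → Bool) → ℕ, Function.Injective code :=
    ⟨fun g => (Fintype.equivFin (Fin n → Bool) g : ℕ), by
      intro g g' h
      apply (Fintype.equivFin (Fin n → Bool)).injective
      exact Fin.ext h⟩
  refine ⟨fun g => lp.single 1 (code g) (1 : ℝ), fun g => coordL (code g), ?_, ?_, ?_⟩
  · intro g
    rw [lp.norm_single (by norm_num)]
    simp
  · intro g g'
    rw [coordL_apply]
    by_cases h : g = g'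
    · subst h
      simp
    · have : code g ≠ code g' := fun h' => h (hcode h')
      simp [lp.single_apply, h, this]
  · intro y
    have h1 := lp.sum_rpow_le_norm_rpow (p := 1) (by norm_num) y
      (Finset.univ.image code)
    rw [Finset.sum_image (fun a _ b _ h => hcode h)] at h1
    simpa [coordL_apply] using h1

end Pool.Agent.Helper51.FreeC
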