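import Mathlib

set_option autoImplicit false
set_option linter.unusedSectionVars false
set_option linter.deprecated false

namespace Pool.Agent.Helper51.FreeL1

/-- sign of a Boolean -/
def sg (b : Bool) : ℝ := if b then 1 else -1

theorem sg_sq (b : Bool) : sg b * sg b = 1 := by
  unfold sg; cases b <;> norm_num

/-- Rademacher functions. -/
def rad {n : ℕ} (κ : Fin n) (g : Fin n → Bool) : ℝ := sg (g κ)

theorem rad_cases {n : ℕ} (κ : Fin n) (g : Fin n → Bool) : rad κ g = 1 ∨ rad κ g = -1 := by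
  unfold rad sg
  cases g κ
  · right; simp
  · left; simp

theorem rad_sq {n : ℕ} (κ : Fin n) (g : Fin n → Bool) : rad κ g * rad κ g = 1 := sg_sq _

theorem sum_cons {n : ℕ} (F : (Fin (n + 1) → Bool) → ℝ) :
    ∑ g, F g = ∑ g : Fin n → Bool, (F (Fin.cons true g) + F (Fin.cons false g)) := by
  rw [← (Fin.consEquiv (fun _ : Fin (n + 1) => Bool)).sum_comp F, Fintype.sum_prod_type_right]
  apply Finset.sum_congr rfl
  intro g _
  simp [Fin.consEquiv]

theorem lin_cons {n : ℕ} (α : Fin (n + 1) → ℝ) (b : Bool) (g : Fin n → Bool) :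
    ∑ κ, α κ * rad κ (Fin.cons b g : Fin (n + 1) → Bool)
      = α 0 * sg b + ∑ κ : Fin n, α κ.succ * rad κ g := by
  rw [Fin.sum_univ_succ]
  simp [rad]

theorem moments (n : ℕ) (α : Fin n → ℝ) :
    ∑ g : Fin n → Bool, (∑ κ, α κ * rad κ g) ^ 2 = 2 ^ n * ∑ κ, α κ ^ 2 ∧
    ∑ g : Fin n → Bool, (∑ κ, α κ * rad κ g) ^ 4 ≤ 3 * 2 ^ n * (∑ κ, α κ ^ 2) ^ 2 := by
  induction n with
  | zero => simp
  | succ n ih =>
    obtain ⟨h2, h4⟩ := ih (fun κ => α κ.succ)
    have hs1 : sg true = 1 := by simp [sg]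
    have hs2 : sg false = -1 := by simp [sg]
    have hσ : ∑ κ, α κ ^ 2 = α 0 ^ 2 + ∑ κ : Fin n, α κ.succ ^ 2 := Fin.sum_univ_succ _
    have hcard : ∑ _g : Fin n → Bool, (1 : ℝ) = 2 ^ n := by simp
    constructor
    · rw [sum_cons]
      simp only [lin_cons, hs1, hs2]
      have e : ∀ g : Fin n → Bool, (α 0 * 1 + ∑ κ : Fin n, α κ.succ * rad κ g) ^ 2
          + (α 0 * -1 + ∑ κ : Fin n, α κ.succ * rad κ g) ^ 2
          = 2 * (∑ κ : Fin n, α κ.succ * rad κ g) ^ 2 + 2 * α 0 ^ 2 * 1 := by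
        intro g; ring
      rw [Finset.sum_congr rfl (fun g _ => e g), Finset.sum_add_distrib, ← Finset.mul_sum,
        ← Finset.mul_sum, h2, hcard, hσ]
      ring
    · rw [sum_cons]
      simp only [lin_cons, hs1, hs2]
      have e : ∀ g : Fin n → Bool, (α 0 * 1 + ∑ κ : Fin n, α κ.succ * rad κ g) ^ 4
          + (α 0 * -1 + ∑ κ : Fin n, α κ.succ * rad κ g) ^ 4
          = 2 * (∑ κ : Fin n, α κ.succ * rad κ g) ^ 4
            + 12 * α 0 ^ 2 * (∑ κ : Fin n, α κ.succ * rad κ g) ^ 2 + 2 * α 0 ^ 4 * 1 := by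
        intro g; ring
      rw [Finset.sum_congr rfl (fun g _ => e g), Finset.sum_add_distrib, Finset.sum_add_distrib,
        ← Finset.mul_sum, ← Finset.mul_sum, ← Finset.mul_sum, h2, hcard, hσ]
      have hp : (0 : ℝ) ≤ 2 ^ n * α 0 ^ 4 := by positivity
      have : 2 * ∑ g : Fin n → Bool, (∑ κ : Fin n, α κ.succ * rad κ g) ^ 4
          ≤ 2 * (3 * 2 ^ n * (∑ κ : Fin n, α κ.succ ^ 2) ^ 2) := by linarith
      calc _ ≤ 2 * (3 * 2 ^ n * (∑ κ : Fin n, α κ.succ ^ 2) ^ 2)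
            + 12 * α 0 ^ 2 * (2 ^ n * ∑ κ : Fin n, α κ.succ ^ 2) + 2 * α 0 ^ 4 * 2 ^ n := by
              linarith
        _ = 3 * 2 ^ (n + 1) * (α 0 ^ 2 + ∑ κ : Fin n, α κ.succ ^ 2) ^ 2
              - 4 * (2 ^ n * α 0 ^ 4) := by
              rw [pow_succ (2 : ℝ) n]
              ring
        _ ≤ _ := by linarith

theorem khinchin (n : ℕ) (α : Fin n → ℝ) (K : ℝ) 
    (h : ∑ g : Fin n → Bool, |∑ κ, α κ * rad κ g| ≤ 2 ^ n * K) : ∑ κ, α κ ^ 2 ≤ 3 * K ^ 2 := by
  obtain ⟨h2, h4⟩ := moments n α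
  set f : (Fin n → Bool) → ℝ := fun g => ∑ κ, α κ * rad κ g with hf
  set σ := ∑ κ, α κ ^ 2 with hσ
  have hσ0 : 0 ≤ σ := Finset.sum_nonneg (fun _ _ => sq_nonneg _)
  set A := ∑ g, |f g| with hA
  set C := ∑ g, |f g| ^ 3 with hC
  have c1 : (∑ g, f g ^ 2) ^ 2 ≤ A * C := by
    apply Finset.sum_sq_le_sum_mul_sum_of_sq_eq_mul
    · intro g _; positivity
    · intro g _; positivity
    · intro g _
      calc (f g ^ 2) ^ 2 = |f g| ^ 4 := by
            rw [← pow_mul, ← Even.pow_abs (show Even (2 * 2) by decide)]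
        _ = |f g| * |f g| ^ 3 := by ring
  have c2 : C ^ 2 ≤ (∑ g, f g ^ 2) * ∑ g, f g ^ 4 := by
    apply Finset.sum_sq_le_sum_mul_sum_of_sq_eq_mul
    · intro g _; positivity
    · intro g _; positivity
    · intro g _
      calc (|f g| ^ 3) ^ 2 = |f g| ^ 6 := by rw [← pow_mul]
        _ = f g ^ 6 := Even.pow_abs (show Even 6 by decide) _
        _ = f g ^ 2 * f g ^ 4 := by ring
  have hA0 : 0 ≤ A := Finset.sum_nonneg (fun _ _ => abs_nonneg _)
  have hC0 : 0 ≤ C := Finset.sum_nonneg (fun _ _ => by positivity)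
  change ∑ g, f g ^ 2 = 2 ^ n * σ at h2
  change ∑ g, f g ^ 4 ≤ 3 * 2 ^ n * σ ^ 2 at h4
  change A ≤ 2 ^ n * K at h
  rw [h2] at c1 c2
  rcases eq_or_lt_of_le hσ0 with h0 | h0
  · rw [← h0]; positivity
  have hN : (0 : ℝ) < 2 ^ n := by positivity
  -- (2^n σ)^4 ≤ A^2 C^2 ≤ A^2 (2^n σ) (3 2^n σ^2)
  have c3 : (2 ^ n * σ) ^ 4 ≤ A ^ 2 * ((2 ^ n * σ) * (3 * 2 ^ n * σ ^ 2)) := by
    calc (2 ^ n * σ) ^ 4 = ((2 ^ n * σ) ^ 2) ^ 2 := by ring
      _ ≤ (A * C) ^ 2 := by
        apply pow_le_pow_left₀ (by positivity) c1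
      _ = A ^ 2 * C ^ 2 := by ring
      _ ≤ A ^ 2 * ((2 ^ n * σ) * (3 * 2 ^ n * σ ^ 2)) := by
        apply mul_le_mul_of_nonneg_left _ (by positivity)
        exact c2.trans (mul_le_mul_of_nonneg_left h4 (by positivity))
  have c4 : A ^ 2 ≤ (2 ^ n * K) ^ 2 := pow_le_pow_left₀ hA0 h 2
  have c5 : (2 ^ n * σ) ^ 4 ≤ (2 ^ n * K) ^ 2 * ((2 ^ n * σ) * (3 * 2 ^ n * σ ^ 2)) :=
    c3.trans (mul_le_mul_of_nonneg_right c4 (by positivity))
  have c6 : ((2 : ℝ) ^ n) ^ 4 * σ ^ 3 * σ ≤ ((2 : ℝ) ^ n) ^ 4 * σ ^ 3 * (3 * K ^ 2) := by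
    calc ((2 : ℝ) ^ n) ^ 4 * σ ^ 3 * σ = (2 ^ n * σ) ^ 4 := by ring
      _ ≤ _ := c5
      _ = _ := by ring
  exact le_of_mul_le_mul_left c6 (by positivity)

theorem rad_orth {n : ℕ} {κ κ' : Fin n} (h : κ ≠ κ') :
    ∑ g : Fin n → Bool, rad κ g * rad κ' g = 0 := by
  have h2 := (moments n (fun i => if i = κ then 1 else if i = κ' then 1 else 0)).1
  have e1 : ∀ g : Fin n → Bool, ∑ i, (if i = κ then (1 : ℝ) else if i = κ' then 1 else 0) * rad i g
      = rad κ g + rad κ' g := by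
    intro g
    have : ∀ i, (if i = κ then (1 : ℝ) else if i = κ' then 1 else 0) * rad i g
        = (if i = κ then rad i g else 0) + (if i = κ' then rad i g else 0) := by
      intro i
      by_cases h1 : i = κ
      · have : i ≠ κ' := by rw [h1]; exact h
        simp [h1, h]
      · simp [h1]
    rw [Finset.sum_congr rfl (fun i _ => this i), Finset.sum_add_distrib]
    simp
  have e2 : ∑ i, (if i = κ then (1 : ℝ) else if i = κ' then 1 else 0) ^ 2 = 2 := by
    have : ∀ i, (if i = κ then (1 : ℝ) else if i = κ' then 1 else 0) ^ 2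
        = (if i = κ then 1 else 0) + (if i = κ' then 1 else 0) := by
      intro i
      by_cases h1 : i = κ
      · have : i ≠ κ' := by rw [h1]; exact h
        simp [h1, h]
      · simp [h1]
    rw [Finset.sum_congr rfl (fun i _ => this i), Finset.sum_add_distrib]
    simp
    norm_num
  rw [Finset.sum_congr rfl (fun g _ => by rw [e1 g]), e2] at h2
  have e3 : ∀ g : Fin n → Bool, (rad κ g + rad κ' g) ^ 2 = 2 + 2 * (rad κ g * rad κ' g) := by
    intro g
    have := rad_sq κ g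
    have := rad_sq κ' g
    nlinarith
  rw [Finset.sum_congr rfl (fun g _ => e3 g), Finset.sum_add_distrib, ← Finset.mul_sum] at h2
  simp at h2
  linarith

theorem rad_norm {n : ℕ} (κ : Fin n) : ∑ g : Fin n → Bool, rad κ g * rad κ g = 2 ^ n := by
  rw [Finset.sum_congr rfl (fun g _ => rad_sq κ g)]
  simp

/-- Component orthogonal to the Rademacher functions. -/
noncomputable def perp {n : ℕ} (b : (Fin n → Bool) → ℝ) : (Fin n → Bool) → ℝ :=
  b - ∑ κ : Fin n, ((∑ g', b g' * rad κ g') / 2 ^ n) • (fun g => rad κ g)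

theorem perp_orth {n : ℕ} (b : (Fin n → Bool) → ℝ) (κ : Fin n) :
    ∑ g, perp b g * rad κ g = 0 := by
  unfold perp
  have e : ∀ g : Fin n → Bool,
      (b - ∑ κ' : Fin n, ((∑ g', b g' * rad κ' g') / 2 ^ n) • (fun g => rad κ' g)) g * rad κ g
      = b g * rad κ g - ∑ κ' : Fin n, ((∑ g', b g' * rad κ' g') / 2 ^ n) * (rad κ' g * rad κ g) := by
    intro g
    rw [Pi.sub_apply, Finset.sum_apply, sub_mul, Finset.sum_mul]
    congr 1
    apply Finset.sum_congr rfl
    intro κ' _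
    simp only [Pi.smul_apply, smul_eq_mul]
    ring
  rw [Finset.sum_congr rfl (fun g _ => e g), Finset.sum_sub_distrib, Finset.sum_comm]
  have e2 : ∑ κ' : Fin n, ∑ g : Fin n → Bool,
      ((∑ g', b g' * rad κ' g') / 2 ^ n) * (rad κ' g * rad κ g) = ∑ g', b g' * rad κ g' := by
    rw [Finset.sum_eq_single κ]
    · rw [← Finset.mul_sum, rad_norm]
      field_simp
    · intro κ' _ hne
      rw [← Finset.mul_sum, rad_orth hne, mul_zero]
    · simp
  rw [e2, sub_self]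

theorem perp_bound {n : ℕ} (b : (Fin n → Bool) → ℝ) (hb : ∀ g, |b g| ≤ 1) (g : Fin n → Bool) :
    |perp b g| ≤ n + 1 := by
  unfold perp
  rw [Pi.sub_apply, Finset.sum_apply]
  have h1 : ∀ κ : Fin n, |(((∑ g', b g' * rad κ g') / 2 ^ n) • (fun g => rad κ g)) g| ≤ 1 := by
    intro κ
    simp only [Pi.smul_apply, smul_eq_mul]
    have hr : ∀ g : Fin n → Bool, |rad κ g| = 1 := by
      intro g
      rcases rad_cases κ g with h | h <;> rw [h] <;> simp
    rw [abs_mul, hr, mul_one, abs_div, abs_of_pos (show (0 : ℝ) < 2 ^ n by positivity),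
      div_le_one (by positivity)]
    calc |∑ g', b g' * rad κ g'| ≤ ∑ g', |b g' * rad κ g'| := Finset.abs_sum_le_sum_abs _ _
      _ ≤ ∑ _g' : Fin n → Bool, (1 : ℝ) := by
        apply Finset.sum_le_sum
        intro g' _
        rw [abs_mul, hr, mul_one]
        exact hb g'
      _ = 2 ^ n := by simp
  calc |b g - ∑ κ : Fin n, (((∑ g', b g' * rad κ g') / 2 ^ n) • (fun g => rad κ g)) g|
      ≤ |b g| + |∑ κ : Fin n, (((∑ g', b g' * rad κ g') / 2 ^ n) • (fun g => rad κ g)) g| :=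
        abs_sub _ _
    _ ≤ 1 + ∑ _κ : Fin n, (1 : ℝ) := by
        apply add_le_add (hb g)
        refine (Finset.abs_sum_le_sum_abs _ _).trans ?_
        exact Finset.sum_le_sum (fun κ _ => h1 κ)
    _ = n + 1 := by simp; ring

/-- The final algebraic contradiction. -/
theorem final_algebra (n : ℕ) (a : (Fin n → Bool) → ((Fin n → Bool) → ℝ) →ₗ[ℝ] ℝ) (K : ℝ)
    (hbound : ∀ g b, (∀ g', |b g'| ≤ 1) → |a g b| ≤ K)
    (hperp : ∀ g b, (∀ g', b g' = 1 ∨ b g' = -1) → |a g (perp b)| ≤ 1)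
    (htr : ∀ κ : Fin n, ∑ g, rad κ g * a g (rad κ) = 2 ^ n) : (n : ℝ) ≤ 3 * (K + 1) ^ 2 := by
  have hN : (0 : ℝ) < 2 ^ n := by positivity
  -- Khinchin bound for each g
  have h1 : ∀ g, ∑ κ : Fin n, (a g (rad κ)) ^ 2 ≤ 3 * (K + 1) ^ 2 := by
    intro g
    apply khinchin
    set f : (Fin n → Bool) → ℝ := fun g' => ∑ κ : Fin n, a g (rad κ) * rad κ g' with hf
    set b : (Fin n → Bool) → ℝ := fun g' => if 0 ≤ f g' then 1 else -1 with hb
    have hbc : ∀ g', b g' = 1 ∨ b g' = -1 := by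
      intro g'
      simp only [hb]
      by_cases h : 0 ≤ f g'
      · left; simp [h]
      · right; simp [h]
    have hb1 : ∀ g', |b g'| ≤ 1 := by
      intro g'
      rcases hbc g' with h | h <;> rw [h] <;> simp
    have e1 : a g b = (∑ κ : Fin n, ((∑ g', b g' * rad κ g') / 2 ^ n) * a g (rad κ))
        + a g (perp b) := by
      have : b = ∑ κ : Fin n, ((∑ g', b g' * rad κ g') / 2 ^ n) • (fun g => rad κ g) + perp b := by
        unfold perp; abel
      conv_lhs => rw [this]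
      rw [map_add, map_sum]
      congr 1
      apply Finset.sum_congr rfl
      intro κ _
      rw [map_smul, smul_eq_mul]
    have e2 : ∑ κ : Fin n, ((∑ g', b g' * rad κ g') / 2 ^ n) * a g (rad κ)
        = (∑ g', |f g'|) / 2 ^ n := by
      have : ∀ κ : Fin n, ((∑ g', b g' * rad κ g') / 2 ^ n) * a g (rad κ)
          = (∑ g', b g' * (a g (rad κ) * rad κ g')) / 2 ^ n := by
        intro κ
        rw [div_mul_eq_mul_div, Finset.sum_mul]
        congr 1
        apply Finset.sum_congr rfl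
        intro g' _
        ring
      rw [Finset.sum_congr rfl (fun κ _ => this κ), ← Finset.sum_div, Finset.sum_comm]
      congr 1
      apply Finset.sum_congr rfl
      intro g' _
      rw [← Finset.mul_sum]
      change b g' * f g' = |f g'|
      simp only [hb]
      by_cases h : 0 ≤ f g'
      · simp [h, abs_of_nonneg h]
      · simp only [h, if_false]
        rw [abs_of_neg (not_le.mp h)]
        ring
    have h3 := hbound g b hb1
    have h4 := hperp g b hbc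
    rw [e1, e2] at h3
    have h5 : (∑ g', |f g'|) / 2 ^ n ≤ K + 1 := by
      have h6 := (abs_le.mp h3).2
      have h7 := (abs_le.mp h4).1
      linarith
    rw [div_le_iff₀ hN] at h5
    linarith
  -- trace
  have h2 : ∑ g : Fin n → Bool, ∑ κ : Fin n, rad κ g * a g (rad κ) = n * 2 ^ n := by
    rw [Finset.sum_comm, Finset.sum_congr rfl (fun κ _ => htr κ)]
    simp
  have h3 : (∑ g : Fin n → Bool, ∑ κ : Fin n, rad κ g * a g (rad κ)) ^ 2
      ≤ (n * 2 ^ n) * (2 ^ n * (3 * (K + 1) ^ 2)) := by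
    rw [← Fintype.sum_prod_type']
    have cs := Finset.sum_mul_sq_le_sq_mul_sq (Finset.univ : Finset ((Fin n → Bool) × Fin n))
      (fun p => rad p.2 p.1) (fun p => a p.1 (rad p.2))
    refine cs.trans ?_
    have e1 : ∑ p : (Fin n → Bool) × Fin n, rad p.2 p.1 ^ 2 = n * 2 ^ n := by
      have : ∀ p : (Fin n → Bool) × Fin n, rad p.2 p.1 ^ 2 = 1 := by
        intro p; rw [sq]; exact rad_sq _ _
      rw [Finset.sum_congr rfl (fun p _ => this p)]
      simp [Fintype.card_prod]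
      ring
    have e2 : ∑ p : (Fin n → Bool) × Fin n, (a p.1 (rad p.2)) ^ 2
        ≤ 2 ^ n * (3 * (K + 1) ^ 2) := by
      rw [Fintype.sum_prod_type]
      calc ∑ g : Fin n → Bool, ∑ κ : Fin n, (a g (rad κ)) ^ 2
          ≤ ∑ _g : Fin n → Bool, 3 * (K + 1) ^ 2 := Finset.sum_le_sum (fun g _ => h1 g)
        _ = _ := by simp
    rw [e1]
    exact mul_le_mul_of_nonneg_left e2 (by positivity)
  rw [h2] at h3
  rcases Nat.eq_zero_or_pos n with h0 | h0
  · subst h0; simp; positivity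
  have hn : (0 : ℝ) < n := by exact_mod_cast h0
  have h4 : ((n : ℝ) * 2 ^ n * 2 ^ n) * n ≤ ((n : ℝ) * 2 ^ n * 2 ^ n) * (3 * (K + 1) ^ 2) := by
    calc ((n : ℝ) * 2 ^ n * 2 ^ n) * n = (n * 2 ^ n) ^ 2 := by ring
      _ ≤ _ := h3
      _ = _ := by ring
  exact le_of_mul_le_mul_left h4 (by positivity)

end Pool.Agent.Helper51.FreeL1
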