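import Pool.Agent.Helper51.FreeL1Rigid
import Pool.Agent.Helper51.FreeL1Khinchin

set_option autoImplicit false
set_option linter.unusedSectionVars false
set_option linter.deprecated false

open Set Filter Topology MeasureTheory

namespace Pool.Agent.Helper51.FreeL1

section

variable {Y X : Type} [NormedAddCommGroup Y] [NormedSpace ℝ Y]
    [NormedAddCommGroup X] [NormedSpace ℝ X] {δ : Y → X}
variable {G : Type} [Fintype G] [DecidableEq G]

/-- A biorthogonal system of `ℓ₁` type. -/
structure Sys (e : G → Y) (c : G → (Y →L[ℝ] ℝ)) : Prop where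
  norm_e : ∀ g, ‖e g‖ ≤ 1
  bi : ∀ g g', c g (e g') = if g = g' then 1 else 0
  norm_c : ∀ y, ∑ g, |c g y| ≤ ‖y‖

/-- The embedding. -/
def emb (e : G → Y) (u : G → ℝ) : Y := ∑ g, u g • e g

/-- The functional with coefficients `b`. -/
def ell (c : G → (Y →L[ℝ] ℝ)) (b : G → ℝ) : Y →L[ℝ] ℝ := ∑ g, b g • c g

theorem ell_apply (c : G → (Y →L[ℝ] ℝ)) (b : G → ℝ) (y : Y) : ell c b y = ∑ g, b g * c g y := by
  unfold ell
  rw [ContinuousLinearMap.sum_apply]
  rfl

theorem emb_sub (e : G → Y) (u v : G → ℝ) : emb e u - emb e v = emb e (u - v) := by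
  unfold emb
  rw [← Finset.sum_sub_distrib]
  apply Finset.sum_congr rfl
  intro g _
  rw [Pi.sub_apply, sub_smul]

theorem emb_add (e : G → Y) (u v : G → ℝ) : emb e (u + v) = emb e u + emb e v := by
  unfold emb
  rw [← Finset.sum_add_distrib]
  apply Finset.sum_congr rfl
  intro g _
  rw [Pi.add_apply, add_smul]

theorem emb_smul (e : G → Y) (a : ℝ) (u : G → ℝ) : emb e (a • u) = a • emb e u := by
  unfold emb
  rw [Finset.smul_sum]
  apply Finset.sum_congr rfl
  intro g _
  rw [Pi.smul_apply, smul_assoc]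

theorem Sys.norm_emb {e : G → Y} {c : G → (Y →L[ℝ] ℝ)} (h : Sys e c) (u : G → ℝ) :
    ‖emb e u‖ ≤ ∑ g, |u g| := by
  unfold emb
  refine (norm_sum_le _ _).trans ?_
  apply Finset.sum_le_sum
  intro g _
  rw [norm_smul, Real.norm_eq_abs]
  exact mul_le_of_le_one_right (abs_nonneg _) (h.norm_e g)

theorem Sys.ell_emb {e : G → Y} {c : G → (Y →L[ℝ] ℝ)} (h : Sys e c) (b u : G → ℝ) :
    ell c b (emb e u) = ∑ g, b g * u g := by
  rw [ell_apply]
  apply Finset.sum_congr rfl
  intro g _
  congr 1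
  unfold emb
  rw [map_sum, Finset.sum_eq_single g]
  · rw [map_smul, h.bi]
    simp
  · intro g' _ hne
    rw [map_smul, h.bi]
    simp [hne.symm]
  · simp

theorem Sys.ell_le {e : G → Y} {c : G → (Y →L[ℝ] ℝ)} (h : Sys e c) (b : G → ℝ) (B : ℝ)
    (hB0 : 0 ≤ B) (hB : ∀ g, |b g| ≤ B) (y : Y) : |ell c b y| ≤ B * ‖y‖ := by
  rw [ell_apply]
  calc |∑ g, b g * c g y| ≤ ∑ g, |b g * c g y| := Finset.abs_sum_le_sum_abs _ _
    _ ≤ ∑ g, B * |c g y| := by
      apply Finset.sum_le_sum
      intro g _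
      rw [abs_mul]
      exact mul_le_mul_of_nonneg_right (hB g) (abs_nonneg _)
    _ = B * ∑ g, |c g y| := by rw [Finset.mul_sum]
    _ ≤ B * ‖y‖ := mul_le_mul_of_nonneg_left (h.norm_c y) hB0

/-- Cut-off profile. -/
noncomputable def chi (x : ℝ) : ℝ := max 0 (min 1 (2 - x))

theorem chi_nonneg (x : ℝ) : 0 ≤ chi x := le_max_left _ _

theorem chi_le_one (x : ℝ) : chi x ≤ 1 := by
  unfold chi
  exact max_le zero_le_one (min_le_left _ _)

theorem chi_one {x : ℝ} (h : x ≤ 1) : chi x = 1 := by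
  unfold chi
  rw [min_eq_left (by linarith), max_eq_right zero_le_one]

theorem chi_zero {x : ℝ} (h : 2 ≤ x) : chi x = 0 := by
  unfold chi
  apply max_eq_left
  exact (min_le_right _ _).trans (by linarith)

theorem chi_lip (x y : ℝ) : |chi x - chi y| ≤ |x - y| := by
  unfold chi
  calc |max 0 (min 1 (2 - x)) - max 0 (min 1 (2 - y))|
      ≤ |min 1 (2 - x) - min 1 (2 - y)| := by
        have := abs_max_sub_max_le_max 0 (min 1 (2 - x)) 0 (min 1 (2 - y))
        simpa using this
    _ ≤ |(2 - x) - (2 - y)| := by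
        have := abs_min_sub_min_le_max 1 (2 - x) 1 (2 - y)
        simpa using this
    _ = |x - y| := by
        rw [show (2 - x) - (2 - y) = -(x - y) by ring, abs_neg]

/-- Localised linear functionals. -/
noncomputable def bump (ℓ : Y →L[ℝ] ℝ) (p : Y) (r : ℝ) (y : Y) : ℝ :=
  ℓ (y - p) * chi (‖y - p‖ / r)

theorem bump_le (ℓ : Y →L[ℝ] ℝ) (p : Y) (r : ℝ) (y : Y) : |bump ℓ p r y| ≤ |ℓ (y - p)| := by
  unfold bump
  rw [abs_mul, abs_of_nonneg (chi_nonneg _)]
  exact mul_le_of_le_one_right (abs_nonneg _) (chi_le_one _)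

theorem bump_zero (ℓ : Y →L[ℝ] ℝ) (p : Y) {r : ℝ} (hr : 0 < r) {y : Y} (h : 2 * r ≤ ‖y - p‖) :
    bump ℓ p r y = 0 := by
  unfold bump
  rw [chi_zero, mul_zero]
  rwa [le_div_iff₀ hr]

theorem bump_eq (ℓ : Y →L[ℝ] ℝ) (p : Y) {r : ℝ} (hr : 0 < r) {y : Y} (h : ‖y - p‖ ≤ r) :
    bump ℓ p r y = ℓ (y - p) := by
  unfold bump
  rw [chi_one, mul_one]
  rwa [div_le_one hr]

theorem bump_lip (ℓ : Y →L[ℝ] ℝ) (B : ℝ) (hB : 0 ≤ B) (hℓ : ∀ y, |ℓ y| ≤ B * ‖y‖) (p : Y)
    {r : ℝ} (hr : 0 < r) : LipK (3 * B) (bump ℓ p r) := by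
  have key : ∀ y y' : Y, ‖y' - p‖ ≤ 2 * r → |bump ℓ p r y - bump ℓ p r y'| ≤ 3 * B * ‖y - y'‖ := by
    intro y y' h
    have e : bump ℓ p r y - bump ℓ p r y'
        = ℓ (y - y') * chi (‖y - p‖ / r) + ℓ (y' - p) * (chi (‖y - p‖ / r) - chi (‖y' - p‖ / r)) := by
      unfold bump
      have : ℓ (y - y') = ℓ (y - p) - ℓ (y' - p) := by
        rw [← map_sub]; congr 1; abel
      rw [this]; ring
    rw [e]
    have h1 : |ℓ (y - y') * chi (‖y - p‖ / r)| ≤ B * ‖y - y'‖ := by
      rw [abs_mul, abs_of_nonneg (chi_nonneg _)]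
      exact (mul_le_of_le_one_right (abs_nonneg _) (chi_le_one _)).trans (hℓ _)
    have h2 : |ℓ (y' - p) * (chi (‖y - p‖ / r) - chi (‖y' - p‖ / r))| ≤ 2 * B * ‖y - y'‖ := by
      rw [abs_mul]
      have a1 : |ℓ (y' - p)| ≤ B * (2 * r) := (hℓ _).trans (mul_le_mul_of_nonneg_left h hB)
      have a2 : |chi (‖y - p‖ / r) - chi (‖y' - p‖ / r)| ≤ ‖y - y'‖ / r := by
        refine (chi_lip _ _).trans ?_
        rw [← sub_div, abs_div, abs_of_pos hr]
        apply div_le_div_of_nonneg_right _ hr.le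
        have := abs_norm_sub_norm_le (y - p) (y' - p)
        rwa [sub_sub_sub_cancel_right] at this
      calc |ℓ (y' - p)| * |chi (‖y - p‖ / r) - chi (‖y' - p‖ / r)|
          ≤ (B * (2 * r)) * (‖y - y'‖ / r) := mul_le_mul a1 a2 (abs_nonneg _) (by positivity)
        _ = 2 * B * ‖y - y'‖ := by field_simp
    refine (abs_add_le _ _).trans ?_
    linarith
  intro y y'
  by_cases h : ‖y' - p‖ ≤ 2 * r
  · exact key y y' h
  · by_cases h' : ‖y - p‖ ≤ 2 * r
    · have := key y' y h'
      rw [abs_sub_comm, norm_sub_rev] at this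
      exact this
    · rw [bump_zero ℓ p hr (not_le.mp h).le, bump_zero ℓ p hr (not_le.mp h').le]
      simp
      positivity

theorem bump_add (ℓ ℓ' : Y →L[ℝ] ℝ) (p : Y) (r : ℝ) :
    bump (ℓ + ℓ') p r = fun y => bump ℓ p r y + bump ℓ' p r y := by
  ext y
  unfold bump
  rw [ContinuousLinearMap.add_apply]
  ring

theorem bump_smul (a : ℝ) (ℓ : Y →L[ℝ] ℝ) (p : Y) (r : ℝ) :
    bump (a • ℓ) p r = fun y => a * bump ℓ p r y := by
  ext y
  unfold bump
  rw [ContinuousLinearMap.smul_apply, smul_eq_mul]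
  ring

theorem ell_add (c : G → (Y →L[ℝ] ℝ)) (b b' : G → ℝ) : ell c (b + b') = ell c b + ell c b' := by
  ext y
  rw [ContinuousLinearMap.add_apply, ell_apply, ell_apply, ell_apply, ← Finset.sum_add_distrib]
  apply Finset.sum_congr rfl
  intro g _
  rw [Pi.add_apply]; ring

theorem ell_smul (c : G → (Y →L[ℝ] ℝ)) (a : ℝ) (b : G → ℝ) : ell c (a • b) = a • ell c b := by
  ext y
  rw [ContinuousLinearMap.smul_apply, ell_apply, ell_apply, smul_eq_mul, Finset.mul_sum]
  apply Finset.sum_congr rfl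
  intro g _
  rw [Pi.smul_apply, smul_eq_mul]; ring

theorem bound_of_clm (ℓ : Y →L[ℝ] ℝ) : ∀ y, |ℓ y| ≤ ‖ℓ‖ * ‖y‖ := fun y => ℓ.le_opNorm y

end

section Grid

variable {n : ℕ}

/-- lower corners -/
noncomputable def lo (m : ℕ) (v : Fin n → Fin (m + 1)) : Fin n → ℝ :=
  fun i => (v i : ℝ) / ((m : ℝ) + 1)

/-- upper corners -/
noncomputable def hi (m : ℕ) (v : Fin n → Fin (m + 1)) : Fin n → ℝ :=
  fun i => ((v i : ℝ) + 1) / ((m : ℝ) + 1)

theorem hi_sub_lo (m : ℕ) (v : Fin n → Fin (m + 1)) (i : Fin n) :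
    hi m v i - lo m v i = 1 / ((m : ℝ) + 1) := by
  unfold hi lo
  ring

theorem hi_sub_lo_le (m : ℕ) (v : Fin n → Fin (m + 1)) (i : Fin n) :
    hi m v i - lo m v i ≤ 1 := by
  rw [hi_sub_lo, div_le_one (by positivity)]
  have : (0 : ℝ) ≤ m := Nat.cast_nonneg m
  linarith

theorem grid_subset (m : ℕ) (v : Fin n → Fin (m + 1)) : box (lo m v) (hi m v) ⊆ cube (Fin n) := by
  intro t ht
  rw [mem_box] at ht
  rw [mem_cube]
  intro i
  obtain ⟨h1, h2⟩ := ht i
  have hm : (0 : ℝ) < (m : ℝ) + 1 := by positivity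
  constructor
  · refine le_trans ?_ h1
    unfold lo; positivity
  · refine lt_of_lt_of_le h2 ?_
    unfold hi
    rw [div_le_one hm]
    have : (v i : ℕ) + 1 ≤ m + 1 := (v i).isLt
    exact_mod_cast this

theorem grid_disjoint (m : ℕ) :
    Pairwise (Function.onFun Disjoint (fun v : Fin n → Fin (m + 1) => box (lo m v) (hi m v))) := by
  intro v v' hne
  rw [Function.onFun, Set.disjoint_left]
  intro t ht ht'
  apply hne
  ext i
  rw [mem_box] at ht ht'
  obtain ⟨h1, h2⟩ := ht i
  obtain ⟨h3, h4⟩ := ht' i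
  have hm : (0 : ℝ) < (m : ℝ) + 1 := by positivity
  unfold lo at h1 h3
  unfold hi at h2 h4
  have a1 : (v i : ℝ) / ((m : ℝ) + 1) < ((v' i : ℝ) + 1) / ((m : ℝ) + 1) := lt_of_le_of_lt h1 h4
  have a2 : (v' i : ℝ) / ((m : ℝ) + 1) < ((v i : ℝ) + 1) / ((m : ℝ) + 1) := lt_of_le_of_lt h3 h2
  rw [div_lt_div_iff_of_pos_right hm] at a1 a2
  have b1 : (v i : ℕ) < (v' i : ℕ) + 1 := by exact_mod_cast a1
  have b2 : (v' i : ℕ) < (v i : ℕ) + 1 := by exact_mod_cast a2
  omega

theorem grid_cover (m : ℕ) :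
    cube (Fin n) ⊆ ⋃ v : Fin n → Fin (m + 1), box (lo m v) (hi m v) := by
  intro t ht
  rw [mem_cube] at ht
  have hm : (0 : ℝ) < (m : ℝ) + 1 := by positivity
  have hlt : ∀ i, ⌊t i * ((m : ℝ) + 1)⌋₊ < m + 1 := by
    intro i
    rw [Nat.floor_lt (by have := (ht i).1; positivity)]
    push_cast
    calc t i * ((m : ℝ) + 1) < 1 * ((m : ℝ) + 1) := mul_lt_mul_of_pos_right (ht i).2 hm
      _ = _ := one_mul _
  rw [Set.mem_iUnion]
  refine ⟨fun i => ⟨⌊t i * ((m : ℝ) + 1)⌋₊, hlt i⟩, ?_⟩
  rw [mem_box]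
  intro i
  unfold lo hi
  simp only
  constructor
  · rw [div_le_iff₀ hm]
    exact Nat.floor_le (by have := (ht i).1; positivity)
  · rw [lt_div_iff₀ hm]
    exact Nat.lt_floor_add_one _

end Grid

section Main

variable {Y X : Type} [NormedAddCommGroup Y] [NormedSpace ℝ Y]
    [NormedAddCommGroup X] [NormedSpace ℝ X] {δ : Y → X}

open BoundedContinuousFunction in
theorem main_bound [CompleteSpace X] (hF : FreeData δ) (Θ : (ℕ →ᵇ X) →ₗ[ℝ] X) (CΘ : ℝ)
    (hΘ : ∀ z, ‖Θ z‖ ≤ CΘ * ‖z‖) (hC : 0 ≤ CΘ)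
    (hlim : ∀ (z : ℕ →ᵇ X) (x : X), Tendsto (fun n => z n) atTop (𝓝 x) → Θ z = x)
    (n : ℕ) (e : (Fin n → Bool) → Y) (c : (Fin n → Bool) → (Y →L[ℝ] ℝ)) (hs : Sys e c) :
    (n : ℝ) ≤ 3 * (3 * CΘ + 1) ^ 2 := by
  set s : Fin n → (Fin n → Bool) → ℝ := fun κ g => rad κ g with hsdef
  have hsc : ∀ κ g, s κ g = 1 ∨ s κ g = -1 := fun κ g => rad_cases κ g
  set D : ((Fin n → Bool) → ℝ) → X := fun u => δ (emb e u) with hD
  have hDL : Lip1 D := by
    intro u v
    refine (hF.lip _ _).trans ?_
    rw [emb_sub]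
    exact hs.norm_emb _
  obtain ⟨μ, hadd, hbd, hbox⟩ := exists_mu Θ CΘ hΘ hC hlim hDL s hsc
  -- radii and centres
  set r : ℕ → ℝ := fun m => 2 ^ n * ((n : ℝ) + 1) / ((m : ℝ) + 1) with hr
  have hrpos : ∀ m, 0 < r m := by intro m; simp only [hr]; positivity
  set P : ∀ m, (Fin n → Fin (m + 1)) → Y := fun m v => emb e (lin s (lo m v)) with hP
  have hlipb : ∀ (b : (Fin n → Bool) → ℝ) (m : ℕ) (v : Fin n → Fin (m + 1)),
      LipK (3 * ‖ell c b‖) (bump (ell c b) (P m v) (r m)) := by
    intro b m v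
    exact bump_lip _ _ (norm_nonneg _) (bound_of_clm _) _ (hrpos m)
  -- the symbols
  let a : ℕ → (Fin n → Bool) → ((Fin n → Bool) → ℝ) →ₗ[ℝ] ℝ := fun m g =>
    { toFun := fun b => ∑ v : Fin n → Fin (m + 1),
        pair δ (bump (ell c b) (P m v) (r m)) (μ g (box (lo m v) (hi m v)))
      map_add' := by
        intro b b'
        rw [← Finset.sum_add_distrib]
        apply Finset.sum_congr rfl
        intro v _
        rw [ell_add, bump_add, hF.pair_add (by positivity) (by positivity) (hlipb b m v)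
          (hlipb b' m v), ContinuousLinearMap.add_apply]
      map_smul' := by
        intro t b
        rw [RingHom.id_apply, smul_eq_mul, Finset.mul_sum]
        apply Finset.sum_congr rfl
        intro v _
        rw [ell_smul, bump_smul, hF.pair_smul (by positivity) (hlipb b m v),
          ContinuousLinearMap.smul_apply, smul_eq_mul] }
  have ha : ∀ m g b, a m g b = ∑ v : Fin n → Fin (m + 1),
        pair δ (bump (ell c b) (P m v) (r m)) (μ g (box (lo m v) (hi m v))) := fun _ _ _ => rfl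
  have hvolsum : ∀ m, ∑ v : Fin n → Fin (m + 1),
      volume.real (box (lo m v) (hi m v) ∩ cube (Fin n)) = 1 := by
    intro m
    exact sum_volume_real (fun v : Fin n → Fin (m + 1) => box (lo m v) (hi m v))
      (fun v => measurableSet_box _ _) (grid_disjoint m) (grid_cover m)
  -- boundedness
  have hbound : ∀ m g b, (∀ g', |b g'| ≤ 1) → |a m g b| ≤ 3 * CΘ := by
    intro m g b hb
    rw [ha]
    calc |∑ v : Fin n → Fin (m + 1),
        pair δ (bump (ell c b) (P m v) (r m)) (μ g (box (lo m v) (hi m v)))|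
        ≤ ∑ v : Fin n → Fin (m + 1),
          |pair δ (bump (ell c b) (P m v) (r m)) (μ g (box (lo m v) (hi m v)))| :=
          Finset.abs_sum_le_sum_abs _ _
      _ ≤ ∑ v : Fin n → Fin (m + 1),
          3 * CΘ * volume.real (box (lo m v) (hi m v) ∩ cube (Fin n)) := by
          apply Finset.sum_le_sum
          intro v _
          have hl := bump_lip (ell c b) 1 zero_le_one (fun y => hs.ell_le b 1 zero_le_one hb y)
            (P m v) (hrpos m)
          rw [mul_one] at hl
          refine (hF.pair_le (by norm_num) hl _).trans ?_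
          have := hbd g (box (lo m v) (hi m v))
          linarith
      _ = 3 * CΘ := by rw [← Finset.mul_sum, hvolsum, mul_one]
  -- trace formula
  have htrace : ∀ m κ (b : (Fin n → Bool) → ℝ), ∑ g, rad κ g * a m g b = ∑ g, b g * rad κ g := by
    intro m κ b
    have e1 : ∑ g, rad κ g * a m g b = ∑ v : Fin n → Fin (m + 1),
        pair δ (bump (ell c b) (P m v) (r m))
          (∑ g, s κ g • μ g (box (lo m v) (hi m v))) := by
      simp only [ha, Finset.mul_sum]
      rw [Finset.sum_comm]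
      apply Finset.sum_congr rfl
      intro v _
      rw [map_sum]
      apply Finset.sum_congr rfl
      intro g _
      rw [map_smul, smul_eq_mul]
    rw [e1]
    have hm : (0 : ℝ) < (m : ℝ) + 1 := by positivity
    have e2 : ∀ v : Fin n → Fin (m + 1), pair δ (bump (ell c b) (P m v) (r m))
          (∑ g, s κ g • μ g (box (lo m v) (hi m v)))
        = (∑ g, b g * rad κ g) * volume.real (box (lo m v) (hi m v)) := by
      intro v
      apply hbox κ (lo m v) (hi m v) (grid_subset m v) (hi_sub_lo_le m v) _ _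
        (1 / ((m : ℝ) + 1)) (by positivity)
      intro t ht h hh0 hh1
      simp only [hD]
      rw [hF.pair_apply (by positivity) (hlipb b m v), hF.pair_apply (by positivity) (hlipb b m v)]
      rw [mem_box] at ht
      have hdist : ∀ t' : Fin n → ℝ, ∑ κ', |t' κ' - lo m v κ'| ≤ ((n : ℝ) + 1) / ((m : ℝ) + 1) →
          ‖emb e (lin s t') - P m v‖ ≤ r m := by
        intro t' ht'
        simp only [hP, hr]
        rw [emb_sub]
        refine (hs.norm_emb _).trans ?_
        calc ∑ g, |(lin s t' - lin s (lo m v)) g|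
            ≤ ∑ _g : Fin n → Bool, ((n : ℝ) + 1) / ((m : ℝ) + 1) := by
              apply Finset.sum_le_sum
              intro g _
              refine le_trans ?_ ht'
              have : (lin s t' - lin s (lo m v)) g = ∑ κ', (t' κ' - lo m v κ') * s κ' g := by
                unfold lin
                rw [Pi.sub_apply, Finset.sum_apply, Finset.sum_apply, ← Finset.sum_sub_distrib]
                apply Finset.sum_congr rfl
                intro κ' _
                simp only [Pi.smul_apply, smul_eq_mul]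
                ring
              rw [this]
              refine (Finset.abs_sum_le_sum_abs _ _).trans (le_of_eq ?_)
              apply Finset.sum_congr rfl
              intro κ' _
              rw [abs_mul]
              have : |s κ' g| = 1 := by
                rcases hsc κ' g with h | h <;> rw [h] <;> simp
              rw [this, mul_one]
          _ = 2 ^ n * ((n : ℝ) + 1) / ((m : ℝ) + 1) := by
              simp
              ring
      have hdt : ∀ κ', |t κ' - lo m v κ'| ≤ 1 / ((m : ℝ) + 1) := by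
        intro κ'
        rw [abs_of_nonneg (by linarith [(ht κ').1])]
        have := (ht κ').2
        have := hi_sub_lo m v κ'
        linarith
      have h1 : ‖emb e (lin s t) - P m v‖ ≤ r m := by
        apply hdist
        calc ∑ κ', |t κ' - lo m v κ'| ≤ ∑ _κ' : Fin n, 1 / ((m : ℝ) + 1) :=
              Finset.sum_le_sum (fun κ' _ => hdt κ')
          _ = (n : ℝ) / ((m : ℝ) + 1) := by simp; ring
          _ ≤ ((n : ℝ) + 1) / ((m : ℝ) + 1) := by
              apply div_le_div_of_nonneg_right _ hm.le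
              linarith
      have h2 : ‖emb e (lin s (t + Pi.single κ h)) - P m v‖ ≤ r m := by
        apply hdist
        calc ∑ κ', |(t + Pi.single κ h : Fin n → ℝ) κ' - lo m v κ'|
            ≤ ∑ κ', (|t κ' - lo m v κ'| + (Pi.single κ h : Fin n → ℝ) κ') := by
              apply Finset.sum_le_sum
              intro κ' _
              have h3 : 0 ≤ (Pi.single κ h : Fin n → ℝ) κ' := by
                by_cases hκ : κ' = κ
                · subst hκ; simp [hh0.le]
                · simp [hκ]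
              calc |(t + Pi.single κ h : Fin n → ℝ) κ' - lo m v κ'|
                  = |(t κ' - lo m v κ') + (Pi.single κ h : Fin n → ℝ) κ'| := by
                    rw [Pi.add_apply]; ring_nf
                _ ≤ _ := abs_add_le _ _
                _ = _ := by rw [abs_of_nonneg h3]
          _ = ∑ κ', |t κ' - lo m v κ'| + h := by
              rw [Finset.sum_add_distrib]
              simp
          _ ≤ ∑ _κ' : Fin n, 1 / ((m : ℝ) + 1) + 1 / ((m : ℝ) + 1) :=
              add_le_add (Finset.sum_le_sum (fun κ' _ => hdt κ')) hh1.le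
          _ = ((n : ℝ) + 1) / ((m : ℝ) + 1) := by simp; ring
      rw [bump_eq _ _ (hrpos m) h1, bump_eq _ _ (hrpos m) h2]
      rw [sub_sub_sub_cancel_right, ← map_sub, sub_sub_sub_cancel_right, lin_add_single, emb_add,
        add_sub_cancel_left, emb_smul, map_smul, hs.ell_emb, smul_eq_mul]
    rw [Finset.sum_congr rfl (fun v _ => e2 v), ← Finset.mul_sum]
    have e3 : ∑ v : Fin n → Fin (m + 1), volume.real (box (lo m v) (hi m v)) = 1 := by
      rw [← hvolsum m]
      apply Finset.sum_congr rfl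
      intro v _
      rw [Set.inter_eq_left.mpr (grid_subset m v)]
    rw [e3, mul_one]
  -- rigidity
  have hrig : ∀ g (b : (Fin n → Bool) → ℝ), (∀ κ, ∑ g, b g * rad κ g = 0) →
      Tendsto (fun m => a m g b) atTop (𝓝 0) := by
    intro g b hb
    obtain ⟨B, hB⟩ : ∃ B, B = ‖ell c b‖ + 1 := ⟨_, rfl⟩
    have hBpos : 0 < B := by rw [hB]; positivity
    have hBl : ∀ y, |ell c b y| ≤ B * ‖y‖ := by
      intro y
      refine (bound_of_clm (ell c b) y).trans ?_
      apply mul_le_mul_of_nonneg_right _ (norm_nonneg _)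
      linarith
    have hPz : ∀ m (v : Fin n → Fin (m + 1)), ell c b (P m v) = 0 := by
      intro m v
      simp only [hP]
      rw [hs.ell_emb]
      have : ∀ g, b g * lin s (lo m v) g = ∑ κ, lo m v κ * (b g * rad κ g) := by
        intro g
        unfold lin
        rw [Finset.sum_apply, Finset.mul_sum]
        apply Finset.sum_congr rfl
        intro κ _
        simp only [Pi.smul_apply, smul_eq_mul, hsdef]
        ring
      rw [Finset.sum_congr rfl (fun g _ => this g), Finset.sum_comm]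
      apply Finset.sum_eq_zero
      intro κ _
      rw [← Finset.mul_sum, hb κ, mul_zero]
    have hell : ∀ m (v : Fin n → Fin (m + 1)) y, ell c b (y - P m v) = ell c b y := by
      intro m v y
      rw [map_sub, hPz, sub_zero]
    have := rigidity hF (μ g) CΘ hC (fun S0 {V} _ S h1 h2 h3 => hadd g S0 S h1 h2 h3)
      (fun S => hbd g S) (ell c b) (3 * B) (by positivity)
      (fun m => Fin n → Fin (m + 1)) (fun m v => box (lo m v) (hi m v))
      (fun m v => measurableSet_box _ _) grid_disjoint grid_cover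
      (fun m v => bump (ell c b) (P m v) (r m))
      (fun m v => bump_lip _ B hBpos.le hBl _ (hrpos m))
      (fun m v y => by
        have := bump_le (ell c b) (P m v) (r m) y
        rwa [hell] at this)
      (fun m => B * (2 * r m))
      (by
        have h1 : Tendsto (fun m : ℕ => B * (2 * (2 ^ n * ((n : ℝ) + 1))) * (1 / ((m : ℝ) + 1)))
            atTop (𝓝 (B * (2 * (2 ^ n * ((n : ℝ) + 1))) * 0)) :=
          (tendsto_one_div_add_atTop_nhds_zero_nat (𝕜 := ℝ)).const_mul _
        rw [mul_zero] at h1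
        refine h1.congr ?_
        intro m
        simp only [hr]
        ring)
      (fun m v y hy => by
        apply bump_zero _ _ (hrpos m)
        have h1 := hBl (y - P m v)
        rw [hell] at h1
        have h2 : B * (2 * r m) ≤ B * ‖y - P m v‖ := hy.trans h1
        exact le_of_mul_le_mul_left h2 hBpos)
    exact this
  -- choose m
  have hev : ∀ᶠ m in atTop, ∀ q : (Fin n → Bool) × ((Fin n → Bool) → Bool),
      |a m q.1 (perp (fun g => sg (q.2 g)))| ≤ 1 := by
    rw [Filter.eventually_all]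
    intro q
    have h1 := hrig q.1 (perp (fun g => sg (q.2 g))) (fun κ => perp_orth _ κ)
    have h2 := h1.abs
    rw [abs_zero] at h2
    exact (h2.eventually_lt_const one_pos).mono (fun m hm => hm.le)
  obtain ⟨m, hm⟩ := hev.exists
  apply final_algebra n (a m) (3 * CΘ) (hbound m)
  · intro g b hb
    have e1 : b = fun g => sg (decide (b g = 1)) := by
      ext g
      rcases hb g with h | h
      · simp [h, sg]
      · rw [h]; norm_num [sg]
    rw [e1]
    exact hm (g, fun g => decide (b g = 1))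
  · intro κ
    have := htrace m κ (rad κ)
    rw [this]
    exact rad_norm κ

end Main

end Pool.Agent.Helper51.FreeL1
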