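import Mathlib

set_option autoImplicit false
set_option linter.unusedSectionVars false
set_option linter.deprecated false

open Set Filter Topology

namespace Pool.Agent.Helper51.FreeL1

/-- The part of the universal property of a Lipschitz-free space that is used. -/
structure FreeData {Y X : Type} [NormedAddCommGroup Y] [NormedSpace ℝ Y]
    [NormedAddCommGroup X] [NormedSpace ℝ X] (δ : Y → X) : Prop where
  zero : δ 0 = 0
  lip : ∀ x y : Y, ‖δ x - δ y‖ ≤ ‖x - y‖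
  dense : Dense ((Submodule.span ℝ (Set.range δ) : Submodule ℝ X) : Set X)
  univ : ∀ (f : Y → ℝ) (K : ℝ), 0 ≤ K → (∀ x y, |f x - f y| ≤ K * ‖x - y‖) → f 0 = 0 →
    ∃ T : X →L[ℝ] ℝ, ‖T‖ ≤ K ∧ ∀ m, T (δ m) = f m

section

variable {Y X : Type} [NormedAddCommGroup Y] [NormedSpace ℝ Y]
    [NormedAddCommGroup X] [NormedSpace ℝ X] {δ : Y → X}

/-- `K`-Lipschitz real functions. -/
def LipK (K : ℝ) (f : Y → ℝ) : Prop := ∀ x y, |f x - f y| ≤ K * ‖x - y‖

open Classical in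
/-- The functional on the free space given by a Lipschitz function. -/
noncomputable def pair (δ : Y → X) (f : Y → ℝ) : X →L[ℝ] ℝ :=
  if h : ∃ T : X →L[ℝ] ℝ, ∀ m, T (δ m) = f m - f 0 then h.choose else 0

theorem FreeData.ext (hF : FreeData δ) {T T' : X →L[ℝ] ℝ} (h : ∀ m, T (δ m) = T' (δ m)) :
    T = T' := by
  apply ContinuousLinearMap.ext_on hF.dense
  rintro _ ⟨m, rfl⟩
  exact h m

theorem FreeData.pair_eq (hF : FreeData δ) {f : Y → ℝ} {T : X →L[ℝ] ℝ}
    (h : ∀ m, T (δ m) = f m - f 0) : pair δ f = T := by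
  have hex : ∃ T : X →L[ℝ] ℝ, ∀ m, T (δ m) = f m - f 0 := ⟨T, h⟩
  apply hF.ext
  intro m
  unfold pair
  rw [dif_pos hex, hex.choose_spec m, h m]

theorem FreeData.exists_pair (hF : FreeData δ) {f : Y → ℝ} {K : ℝ} (hK : 0 ≤ K)
    (hf : LipK K f) : ‖pair δ f‖ ≤ K ∧ ∀ m, pair δ f (δ m) = f m - f 0 := by
  obtain ⟨T, hT, hTm⟩ := hF.univ (fun y => f y - f 0) K hK
    (fun x y => by
      have := hf x y
      simpa using this) (by simp)
  have h := hF.pair_eq (f := f) (T := T) hTm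
  rw [h]
  exact ⟨hT, hTm⟩

theorem FreeData.pair_norm (hF : FreeData δ) {f : Y → ℝ} {K : ℝ} (hK : 0 ≤ K)
    (hf : LipK K f) : ‖pair δ f‖ ≤ K := (hF.exists_pair hK hf).1

theorem FreeData.pair_apply (hF : FreeData δ) {f : Y → ℝ} {K : ℝ} (hK : 0 ≤ K)
    (hf : LipK K f) (m : Y) : pair δ f (δ m) = f m - f 0 := (hF.exists_pair hK hf).2 m

theorem FreeData.pair_le (hF : FreeData δ) {f : Y → ℝ} {K : ℝ} (hK : 0 ≤ K)
    (hf : LipK K f) (x : X) : |pair δ f x| ≤ K * ‖x‖ := by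
  have := (pair δ f).le_opNorm x
  calc |pair δ f x| = ‖pair δ f x‖ := rfl
    _ ≤ ‖pair δ f‖ * ‖x‖ := this
    _ ≤ K * ‖x‖ := by
      apply mul_le_mul_of_nonneg_right (hF.pair_norm hK hf) (norm_nonneg _)

theorem FreeData.pair_add (hF : FreeData δ) {f g : Y → ℝ} {K L : ℝ} (hK : 0 ≤ K) (hL : 0 ≤ L)
    (hf : LipK K f) (hg : LipK L g) : pair δ (fun y => f y + g y) = pair δ f + pair δ g := by
  apply hF.pair_eq
  intro m
  rw [ContinuousLinearMap.add_apply, hF.pair_apply hK hf, hF.pair_apply hL hg]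
  ring

theorem FreeData.pair_smul (hF : FreeData δ) {f : Y → ℝ} {K : ℝ} (hK : 0 ≤ K)
    (hf : LipK K f) (c : ℝ) : pair δ (fun y => c * f y) = c • pair δ f := by
  apply hF.pair_eq
  intro m
  rw [ContinuousLinearMap.smul_apply, hF.pair_apply hK hf, smul_eq_mul]
  ring

theorem LipK.zero : LipK (Y := Y) 0 (fun _ => 0) := by
  intro x y; simp

theorem LipK.mono {f : Y → ℝ} {K L : ℝ} (hf : LipK K f) (h : K ≤ L) : LipK L f := by
  intro x y
  exact (hf x y).trans (mul_le_mul_of_nonneg_right h (norm_nonneg _))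

theorem LipK.add {f g : Y → ℝ} {K L : ℝ} (hf : LipK K f) (hg : LipK L g) :
    LipK (K + L) (fun y => f y + g y) := by
  intro x y
  have h1 := hf x y
  have h2 := hg x y
  calc |f x + g x - (f y + g y)| = |(f x - f y) + (g x - g y)| := by ring_nf
    _ ≤ |f x - f y| + |g x - g y| := abs_add_le _ _
    _ ≤ _ := by linarith [add_mul K L ‖x - y‖]

theorem LipK.const_mul {f : Y → ℝ} {K : ℝ} (hf : LipK K f) (c : ℝ) :
    LipK (|c| * K) (fun y => c * f y) := by
  intro x y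
  rw [← mul_sub, abs_mul, mul_assoc]
  exact mul_le_mul_of_nonneg_left (hf x y) (abs_nonneg _)

theorem LipK.sub {f g : Y → ℝ} {K L : ℝ} (hf : LipK K f) (hg : LipK L g) :
    LipK (K + L) (fun y => f y - g y) := by
  intro x y
  have h1 := hf x y
  have h2 := hg x y
  calc |f x - g x - (f y - g y)| = |(f x - f y) - (g x - g y)| := by ring_nf
    _ ≤ |f x - f y| + |g x - g y| := abs_sub _ _
    _ ≤ _ := by linarith [add_mul K L ‖x - y‖]

theorem FreeData.pair_sub (hF : FreeData δ) {f g : Y → ℝ} {K L : ℝ} (hK : 0 ≤ K) (hL : 0 ≤ L)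
    (hf : LipK K f) (hg : LipK L g) : pair δ (fun y => f y - g y) = pair δ f - pair δ g := by
  apply hF.pair_eq
  intro m
  rw [ContinuousLinearMap.sub_apply, hF.pair_apply hK hf, hF.pair_apply hL hg]
  ring

theorem FreeData.pair_sum (hF : FreeData δ) {ι : Type} (s : Finset ι) (f : ι → Y → ℝ) {K : ℝ}
    (hK : 0 ≤ K) (hf : ∀ i ∈ s, LipK K (f i)) :
    pair δ (fun y => ∑ i ∈ s, f i y) = ∑ i ∈ s, pair δ (f i) := by
  apply hF.pair_eq
  intro m
  rw [ContinuousLinearMap.sum_apply, ← Finset.sum_sub_distrib]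
  apply Finset.sum_congr rfl
  intro i hi
  exact hF.pair_apply hK (hf i hi) m

/-- Weak-star type continuity. -/
theorem FreeData.small (hF : FreeData δ) (μ : X) (K ε : ℝ) (hK : 0 ≤ K) (hε : 0 < ε) :
    ∃ τ > 0, ∀ ψ : Y → ℝ, LipK K ψ → (∀ y, |ψ y| ≤ τ) → |pair δ ψ μ| ≤ ε := by
  -- approximate
  have hcl := hF.dense μ
  rw [Metric.mem_closure_iff] at hcl
  have hpos : 0 < ε / (2 * (K + 1)) := by positivity
  obtain ⟨ν, hν, hdist⟩ := hcl _ hpos
  -- the finite combination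
  have key : ∀ ν ∈ Submodule.span ℝ (Set.range δ), ∃ C : ℝ, 0 ≤ C ∧
      ∀ ψ : Y → ℝ, LipK K ψ → ∀ τ : ℝ, (∀ y, |ψ y| ≤ τ) → |pair δ ψ ν| ≤ C * τ := by
    intro ν hν
    induction hν using Submodule.span_induction with
    | mem x hx =>
      obtain ⟨m, rfl⟩ := hx
      refine ⟨2, by norm_num, fun ψ hψ τ hτ => ?_⟩
      rw [hF.pair_apply hK hψ]
      have h1 := hτ m
      have h2 := hτ 0
      calc |ψ m - ψ 0| ≤ |ψ m| + |ψ 0| := abs_sub _ _
        _ ≤ 2 * τ := by linarith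
    | zero => exact ⟨0, le_rfl, fun ψ _ τ _ => by simp⟩
    | add x y _ _ hx hy =>
      obtain ⟨C, hC, h1⟩ := hx
      obtain ⟨C', hC', h2⟩ := hy
      refine ⟨C + C', by positivity, fun ψ hψ τ hτ => ?_⟩
      rw [map_add]
      calc |pair δ ψ x + pair δ ψ y| ≤ |pair δ ψ x| + |pair δ ψ y| := abs_add_le _ _
        _ ≤ C * τ + C' * τ := add_le_add (h1 ψ hψ τ hτ) (h2 ψ hψ τ hτ)
        _ = (C + C') * τ := by ring
    | smul a x _ hx =>
      obtain ⟨C, hC, h1⟩ := hx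
      refine ⟨|a| * C, by positivity, fun ψ hψ τ hτ => ?_⟩
      rw [map_smul, smul_eq_mul, abs_mul, mul_assoc]
      exact mul_le_mul_of_nonneg_left (h1 ψ hψ τ hτ) (abs_nonneg _)
  obtain ⟨C, hC, hCψ⟩ := key ν hν
  refine ⟨ε / (2 * (C + 1)), by positivity, fun ψ hψ hτ => ?_⟩
  have h1 := hCψ ψ hψ _ hτ
  have h2 := hF.pair_le hK hψ (μ - ν)
  have h3 : pair δ ψ μ = pair δ ψ (μ - ν) + pair δ ψ ν := by rw [← map_add]; simp
  rw [h3]
  have h4 : K * ‖μ - ν‖ ≤ ε / 2 := by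
    rw [dist_eq_norm] at hdist
    calc K * ‖μ - ν‖ ≤ (K + 1) * (ε / (2 * (K + 1))) := by
          apply mul_le_mul (by linarith) hdist.le (norm_nonneg _) (by linarith)
      _ = ε / 2 := by field_simp
  have h5 : C * (ε / (2 * (C + 1))) ≤ ε / 2 := by
    calc C * (ε / (2 * (C + 1))) ≤ (C + 1) * (ε / (2 * (C + 1))) := by
          apply mul_le_mul_of_nonneg_right (by linarith) (by positivity)
      _ = ε / 2 := by field_simp
  calc |pair δ ψ (μ - ν) + pair δ ψ ν| ≤ |pair δ ψ (μ - ν)| + |pair δ ψ ν| := abs_add_le _ _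
    _ ≤ ε := by linarith

end

section Lim

variable {X : Type} [NormedAddCommGroup X] [NormedSpace ℝ X]

/-- Limit along the hyperfilter. -/
noncomputable def ulim (f : ℕ → ℝ) : ℝ := limUnder (hyperfilter ℕ : Filter ℕ) f

theorem ulim_tendsto {f : ℕ → ℝ} {C : ℝ} (h : ∀ n, |f n| ≤ C) :
    Tendsto f (hyperfilter ℕ : Filter ℕ) (𝓝 (ulim f)) := by
  have hc : IsCompact (Set.Icc (-C) C) := isCompact_Icc
  have h1 : ((hyperfilter ℕ).map f : Filter ℝ) ≤ 𝓟 (Set.Icc (-C) C) := by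
    rw [Filter.le_principal_iff]
    change f ⁻¹' (Set.Icc (-C) C) ∈ (hyperfilter ℕ : Filter ℕ)
    have : f ⁻¹' (Set.Icc (-C) C) = Set.univ := by
      ext n
      simp only [Set.mem_preimage, Set.mem_Icc, Set.mem_univ, iff_true]
      exact abs_le.mp (h n)
    rw [this]
    exact Filter.univ_mem
  obtain ⟨a, _, ha⟩ := hc.ultrafilter_le_nhds ((hyperfilter ℕ).map f) h1
  have h2 : Tendsto f (hyperfilter ℕ : Filter ℕ) (𝓝 a) := ha
  exact tendsto_nhds_limUnder ⟨a, h2⟩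

theorem ulim_eq {f : ℕ → ℝ} {a : ℝ} (h : Tendsto f (hyperfilter ℕ : Filter ℕ) (𝓝 a)) :
    ulim f = a := h.limUnder_eq

theorem ulim_abs_le {f : ℕ → ℝ} {C : ℝ} (h : ∀ n, |f n| ≤ C) : |ulim f| ≤ C := by
  have h1 := ulim_tendsto h
  exact le_of_tendsto h1.abs (Filter.Eventually.of_forall h)

theorem exists_bound' {Z : Type} [NormedAddCommGroup Z] [NormedSpace ℝ Z] (P : Z → X)
    (hc : Continuous P) (hs : ∀ (c : ℝ) (z : Z), P (c • z) = c • P z) :
    ∃ C : ℝ, 0 ≤ C ∧ ∀ Λ : Z, ‖P Λ‖ ≤ C * ‖Λ‖ := by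
  have hz : P 0 = 0 := by
    have := hs 0 0
    simpa using this
  have h0 : Tendsto P (𝓝 0) (𝓝 0) := by
    have := hc.tendsto 0
    rwa [hz] at this
  obtain ⟨r, hr, h⟩ := Metric.tendsto_nhds_nhds.mp h0 1 one_pos
  refine ⟨2 / r, by positivity, fun Λ => ?_⟩
  rcases eq_or_ne (‖Λ‖) 0 with h0 | h0
  · have : Λ = 0 := norm_eq_zero.mp h0
    rw [this, hz]
    simp
  · have hpos : 0 < ‖Λ‖ := lt_of_le_of_ne (norm_nonneg _) (Ne.symm h0)
    have h1 : dist ((r / (2 * ‖Λ‖)) • Λ) 0 < r := by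
      rw [dist_zero_right, norm_smul, Real.norm_eq_abs, abs_of_pos (by positivity)]
      have : r / (2 * ‖Λ‖) * ‖Λ‖ = r / 2 := by field_simp
      rw [this]; linarith
    have h2 := h h1
    rw [dist_zero_right] at h2
    rw [hs, norm_smul, Real.norm_eq_abs, abs_of_pos (by positivity)] at h2
    have h4 : ‖P Λ‖ = (2 * ‖Λ‖ / r) * (r / (2 * ‖Λ‖) * ‖P Λ‖) := by field_simp
    rw [h4]
    calc (2 * ‖Λ‖ / r) * (r / (2 * ‖Λ‖) * ‖P Λ‖) ≤ (2 * ‖Λ‖ / r) * 1 := by
          apply mul_le_mul_of_nonneg_left h2.le (by positivity)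
      _ = 2 / r * ‖Λ‖ := by ring

theorem exists_bound (P : ((X →L[ℝ] ℝ) →L[ℝ] ℝ) →L[ℝ] X) :
    ∃ C : ℝ, 0 ≤ C ∧ ∀ Λ : (X →L[ℝ] ℝ) →L[ℝ] ℝ, ‖P Λ‖ ≤ C * ‖Λ‖ :=
  exists_bound' (Z := (X →L[ℝ] ℝ) →L[ℝ] ℝ) (fun Λ => P Λ) P.continuous
    (fun c z => P.map_smul c z)

open BoundedContinuousFunction in
theorem bcf_bound (z : ℕ →ᵇ X) (f : X →L[ℝ] ℝ) (n : ℕ) : |f (z n)| ≤ ‖z‖ * ‖f‖ := by
  calc |f (z n)| = ‖f (z n)‖ := rfl
    _ ≤ ‖f‖ * ‖z n‖ := f.le_opNorm _
    _ ≤ ‖f‖ * ‖z‖ := mul_le_mul_of_nonneg_left (z.norm_coe_le_norm n) (norm_nonneg _)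
    _ = ‖z‖ * ‖f‖ := mul_comm _ _

open BoundedContinuousFunction in
/-- The element of the bidual given by a bounded sequence. -/
noncomputable def bid (z : ℕ →ᵇ X) : (X →L[ℝ] ℝ) →L[ℝ] ℝ :=
  LinearMap.mkContinuous
    { toFun := fun f : X →L[ℝ] ℝ => ulim (fun n => f (z n))
      map_add' := by
        intro f f'
        apply ulim_eq
        have h1 := ulim_tendsto (bcf_bound z f)
        have h2 := ulim_tendsto (bcf_bound z f')
        exact h1.add h2
      map_smul' := by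
        intro c f
        apply ulim_eq
        have h1 := ulim_tendsto (bcf_bound z f)
        exact h1.const_mul c } ‖z‖ (fun f => ulim_abs_le (bcf_bound z f))

open BoundedContinuousFunction in
theorem bid_apply (z : ℕ →ᵇ X) (f : X →L[ℝ] ℝ) : bid z f = ulim (fun n => f (z n)) := rfl

open BoundedContinuousFunction in
theorem bid_norm (z : ℕ →ᵇ X) : ‖bid z‖ ≤ ‖z‖ :=
  LinearMap.mkContinuous_norm_le _ (norm_nonneg _) _

open BoundedContinuousFunction in
/-- Generalized limit of bounded sequences, using a projection from the bidual. -/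
theorem exists_genLim (P : ((X →L[ℝ] ℝ) →L[ℝ] ℝ) →L[ℝ] X)
    (hP : ∀ x : X, P (ContinuousLinearMap.apply ℝ ℝ x) = x) :
    ∃ (Θ : (ℕ →ᵇ X) →ₗ[ℝ] X) (C : ℝ), 0 ≤ C ∧ (∀ z, ‖Θ z‖ ≤ C * ‖z‖) ∧
      ∀ (z : ℕ →ᵇ X) (x : X), Tendsto (fun n => z n) atTop (𝓝 x) → Θ z = x := by
  obtain ⟨C, hC, hCP⟩ := exists_bound P
  refine ⟨{ toFun := fun z => P (bid z)
            map_add' := ?_
            map_smul' := ?_ }, C, hC, ?_, ?_⟩
  · intro z z'
    have : bid (z + z') = bid z + bid z' := by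
      ext f
      apply ulim_eq
      have h1 := ulim_tendsto (bcf_bound z f)
      have h2 := ulim_tendsto (bcf_bound z' f)
      have h3 := h1.add h2
      rw [← bid_apply, ← bid_apply] at h3
      simpa using h3
    rw [this]
    exact P.map_add _ _
  · intro c z
    have : bid (c • z) = c • bid z := by
      ext f
      apply ulim_eq
      have h1 := ulim_tendsto (bcf_bound z f)
      have h3 := h1.const_mul c
      rw [← bid_apply] at h3
      simpa using h3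
    rw [this]
    exact P.map_smul _ _
  · intro z
    exact (hCP (bid z)).trans (mul_le_mul_of_nonneg_left (bid_norm z) hC)
  · intro z x hzx
    change P (bid z) = x
    have : bid z = ContinuousLinearMap.apply ℝ ℝ x := by
      ext f
      change ulim (fun n => f (z n)) = f x
      apply ulim_eq
      have h1 : Tendsto (fun n => f (z n)) atTop (𝓝 (f x)) :=
        (f.continuous.tendsto x).comp hzx
      exact h1.mono_left Nat.hyperfilter_le_atTop
    rw [this, hP]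

end Lim

end Pool.Agent.Helper51.FreeL1
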