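import Pool.Agent.Helper51.FreeL1Smooth
import Pool.Agent.Helper51.FreeL1Pair

set_option autoImplicit false


set_option linter.unusedSectionVars false
set_option linter.deprecated false

open Set Filter Topology MeasureTheory

namespace Pool.Agent.Helper51.FreeL1

section

variable {G I : Type} [Fintype G] [DecidableEq G] [Fintype I] [DecidableEq I]
  {X : Type} [NormedAddCommGroup X] [NormedSpace ℝ X]

/-- The linear map with columns `s κ`. -/
def lin (s : I → G → ℝ) (t : I → ℝ) : G → ℝ := ∑ κ, t κ • s κ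

theorem lin_add_single (s : I → G → ℝ) (t : I → ℝ) (κ : I) (h : ℝ) :
    lin s (t + Pi.single κ h) = lin s t + h • s κ := by
  unfold lin
  have e : ∑ κ', (t + Pi.single κ h : I → ℝ) κ' • s κ' = ∑ κ', t κ' • s κ'
    + ∑ κ', (Pi.single κ h : I → ℝ) κ' • s κ' := by
      rw [← Finset.sum_add_distrib]
      apply Finset.sum_congr rfl
      intro κ' _
      rw [Pi.add_apply, add_smul]
  rw [e]
  congr 1
  rw [Finset.sum_eq_single κ]
  · simp
  · intro b _ hb
    simp [hb]
  · simp

theorem continuous_lin (s : I → G → ℝ) : Continuous (lin s) := by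
  unfold lin
  apply continuous_finset_sum
  intro κ _
  exact (continuous_apply κ).smul continuous_const

/-- scale `ε` -/
noncomputable def eps (M : ℕ) : ℝ := (1 / 2) ^ M

/-- scale `η` -/
noncomputable def eta (M : ℕ) : ℝ := (M + 1) * (1 / 2) ^ M

theorem eps_pos (M : ℕ) : 0 < eps M := by unfold eps; positivity

theorem eta_pos (M : ℕ) : 0 < eta M := by unfold eta; positivity

theorem eps_div_eta (M : ℕ) : eps M / eta M = 1 / ((M : ℝ) + 1) := by
  unfold eps eta
  field_simp

/-- The smoothed partial difference quotients. -/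
noncomputable def quo (D : (G → ℝ) → X) (M : ℕ) (g : G) (u : G → ℝ) : X :=
  (eps M)⁻¹ • (smooth D (eta M) (u + Pi.single g (eps M)) - smooth D (eta M) u)

theorem norm_quo {D : (G → ℝ) → X} (hD : Lip1 D) (M : ℕ) (g : G) (u : G → ℝ) :
    ‖quo D M g u‖ ≤ 1 := by
  unfold quo
  rw [norm_smul, Real.norm_eq_abs, abs_of_pos (inv_pos.mpr (eps_pos M)), inv_mul_le_iff₀ (eps_pos M),
    mul_one]
  exact (hD.smooth (eta M)).single (eps_pos M).le g u

theorem continuous_quo {D : (G → ℝ) → X} (hD : Lip1 D) (M : ℕ) (g : G) :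
    Continuous (quo D M g) := by
  unfold quo
  apply Continuous.const_smul
  exact ((hD.smooth (eta M)).continuous.comp (continuous_id.add continuous_const)).sub
    (hD.smooth (eta M)).continuous

/-- The approximate vector measures. -/
noncomputable def mseq (D : (G → ℝ) → X) (s : I → G → ℝ) (g : G) (S : Set (I → ℝ)) (M : ℕ) : X :=
  ∫ t in S ∩ cube I, quo D M g (lin s t)

theorem integrableOn_quo {D : (G → ℝ) → X} (hD : Lip1 D) (s : I → G → ℝ) (g : G) (M : ℕ)
    {S : Set (I → ℝ)} (hS : volume S < ⊤) :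
    IntegrableOn (fun t => quo D M g (lin s t)) S :=
  integrableOn_of_bound ((continuous_quo hD M g).comp (continuous_lin s))
    (fun t => norm_quo hD M g _) hS

theorem volume_inter_lt_top (S : Set (I → ℝ)) : volume (S ∩ cube I) < ⊤ := by
  refine (measure_mono Set.inter_subset_right).trans_lt ?_
  rw [volume_cube]; simp

theorem norm_mseq {D : (G → ℝ) → X} (hD : Lip1 D) (s : I → G → ℝ) (g : G) (S : Set (I → ℝ))
    (M : ℕ) : ‖mseq D s g S M‖ ≤ volume.real (S ∩ cube I) := by
  have := norm_setIntegral_le_of_norm_le_const (μ := volume) (volume_inter_lt_top S)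
    (f := fun t => quo D M g (lin s t)) (C := 1) (fun _ _ => norm_quo hD M g _)
  rwa [one_mul] at this

theorem mseq_add {D : (G → ℝ) → X} (hD : Lip1 D) (s : I → G → ℝ) (g : G)
    (S0 : Set (I → ℝ)) {V : Type} [Fintype V] (S : V → Set (I → ℝ))
    (hS : ∀ v, MeasurableSet (S v)) (hd : Pairwise (Function.onFun Disjoint S))
    (hu : S0 ∩ cube I = ⋃ v, (S v ∩ cube I)) (M : ℕ) :
    mseq D s g S0 M = ∑ v, mseq D s g (S v) M := by
  unfold mseq
  rw [hu]
  apply integral_iUnion_fintype
  · intro v
    exact (hS v).inter measurableSet_cube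
  · intro v v' hvv'
    exact (hd hvv').mono Set.inter_subset_left Set.inter_subset_left
  · intro v
    exact integrableOn_quo hD s g M (volume_inter_lt_top _)

/-- Directional difference quotients integrated over a box. -/
noncomputable def zseq (D : (G → ℝ) → X) (s : I → G → ℝ) (κ : I) (p q : I → ℝ) (M : ℕ) : X :=
  ∫ t in box p q, (eps M)⁻¹ • (D (lin s (t + Pi.single κ (eps M))) - D (lin s t))

theorem Lip1.smul {D : (G → ℝ) → X} (hD : Lip1 D) {s : G → ℝ} (hs : ∀ g, s g = 1 ∨ s g = -1)
    {h : ℝ} (hh : 0 ≤ h) (u : G → ℝ) : ‖D (u + h • s) - D u‖ ≤ Fintype.card G * h := by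
  refine (hD _ _).trans (le_of_eq ?_)
  rw [show (Fintype.card G : ℝ) * h = ∑ _g : G, h by simp]
  apply Finset.sum_congr rfl
  intro g _
  simp only [Pi.add_apply, Pi.smul_apply, smul_eq_mul, add_sub_cancel_left]
  rcases hs g with h1 | h1 <;> rw [h1] <;> simp [abs_of_nonneg hh]

theorem zseq_step {D : (G → ℝ) → X} (hD : Lip1 D) (s : I → G → ℝ)
    (hs : ∀ κ g, s κ g = 1 ∨ s κ g = -1) (κ : I) (p q : I → ℝ) (hpq : ∀ i, q i - p i ≤ 1) (M : ℕ) :
    dist (zseq D s κ p q M) (zseq D s κ p q (M + 1)) ≤ (Fintype.card G / 2 : ℝ) * (1 / 2) ^ M := by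
  set h := eps (M + 1) with hh
  have hpos : 0 < h := eps_pos _
  have h2 : eps M = 2 * h := by
    rw [hh]; unfold eps; rw [pow_succ]; ring
  set F : (I → ℝ) → X := fun t => D (lin s t) with hF
  have hFc : Continuous F := hD.continuous.comp (continuous_lin s)
  set H : (I → ℝ) → X := fun t => F (t + Pi.single κ h) - F t with hH
  have hHc : Continuous H := (hFc.comp (continuous_id.add continuous_const)).sub hFc
  have hHb : ∀ t, ‖H t‖ ≤ Fintype.card G * h := by
    intro t
    rw [hH]
    simp only [hF]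
    rw [lin_add_single]
    exact hD.smul (hs κ) hpos.le _
  have key := transl hHc hHb hpq κ hpos.le
  have hvol := volume_box_lt_top p q
  have hint : ∀ h' : ℝ, 0 ≤ h' → IntegrableOn (fun t => F (t + Pi.single κ h') - F t) (box p q) := by
    intro h' hh'
    apply integrableOn_of_bound (B := Fintype.card G * h') _ _ hvol
    · exact (hFc.comp (continuous_id.add continuous_const)).sub hFc
    · intro t
      simp only [hF]
      rw [lin_add_single]
      exact hD.smul (hs κ) hh' _
  have hint' : ∀ h' c : ℝ, 0 ≤ h' →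
      IntegrableOn (fun t => c • (F (t + Pi.single κ h') - F t)) (box p q) := by
    intro h' c hh'
    exact (hint h' hh').smul c
  have e : zseq D s κ p q M - zseq D s κ p q (M + 1)
      = (2 * h)⁻¹ • ∫ t in box p q, (H (t + Pi.single κ h) - H t) := by
    unfold zseq
    rw [h2, ← hh]
    rw [← integral_sub (hint' (2 * h) _ (by positivity)) (hint' h _ hpos.le), ← integral_smul]
    congr 1
    ext1 t
    simp only [hH]
    have e1 : t + Pi.single κ h + Pi.single κ h = t + Pi.single κ (2 * h) := by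
      rw [add_assoc, ← Pi.single_add, two_mul]
    rw [e1]
    have e2 : h⁻¹ • (F (t + Pi.single κ h) - F t)
        = (2 * h)⁻¹ • ((2 : ℝ) • (F (t + Pi.single κ h) - F t)) := by
      rw [smul_smul]; congr 1; field_simp
    rw [e2, ← smul_sub]
    congr 1
    rw [two_smul]
    abel
  rw [dist_eq_norm, e, norm_smul, Real.norm_eq_abs, abs_of_pos (by positivity)]
  have hinv : 0 ≤ (2 * h)⁻¹ := inv_nonneg.mpr (by linarith)
  refine (mul_le_mul_of_nonneg_left key hinv).trans (le_of_eq ?_)
  have h5 : (2 * h) ≠ 0 := by linarith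
  rw [← mul_assoc, inv_mul_cancel₀ h5, one_mul]
  have h6 : h = (1 / 2) ^ M / 2 := by
    rw [hh]; unfold eps; rw [pow_succ]; ring
  rw [h6]
  ring

theorem zseq_tendsto [CompleteSpace X] {D : (G → ℝ) → X} (hD : Lip1 D) (s : I → G → ℝ)
    (hs : ∀ κ g, s κ g = 1 ∨ s κ g = -1) (κ : I) (p q : I → ℝ) (hpq : ∀ i, q i - p i ≤ 1) :
    ∃ z, Tendsto (zseq D s κ p q) atTop (𝓝 z) :=
  cauchySeq_tendsto_of_complete
    (cauchySeq_of_le_geometric (1 / 2) _ (by norm_num) (zseq_step hD s hs κ p q hpq))

theorem mseq_zseq [CompleteSpace X] {D : (G → ℝ) → X} (hD : Lip1 D) (s : I → G → ℝ)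
    (hs : ∀ κ g, s κ g = 1 ∨ s κ g = -1) (κ : I) (p q : I → ℝ) (hpq : ∀ i, q i - p i ≤ 1)
    (hc : box p q ⊆ cube I) (M : ℕ) :
    ‖∑ g, s κ g • mseq D s g (box p q) M - zseq D s κ p q M‖
      ≤ 2 * (Fintype.card G * (Fintype.card G + 1)) * (1 / ((M : ℝ) + 1))
        + 2 * Fintype.card G * eta M := by
  set ε := eps M with hε
  set η := eta M with hη
  have hεp : 0 < ε := eps_pos M
  have hηp : 0 < η := eta_pos M
  set S := smooth D η with hS
  have hSL : Lip1 S := hD.smooth η
  have hvol := volume_box_lt_top p q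
  have hvol1 : volume.real (box p q) ≤ 1 := by
    have := volume_box_le p q hpq
    unfold Measure.real
    exact ENNReal.toReal_le_of_le_ofReal zero_le_one (by simpa using this)
  have hmono : box p q ∩ cube I = box p q := Set.inter_eq_left.mpr hc
  -- middle quantity
  set Z : X := ∫ t in box p q, ε⁻¹ • (S (lin s (t + Pi.single κ ε)) - S (lin s t)) with hZ
  have hSc : Continuous (fun t : I → ℝ => S (lin s t)) := hSL.continuous.comp (continuous_lin s)
  have hDc : Continuous (fun t : I → ℝ => D (lin s t)) := hD.continuous.comp (continuous_lin s)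
  have iS : IntegrableOn (fun t => ε⁻¹ • (S (lin s (t + Pi.single κ ε)) - S (lin s t)))
      (box p q) := by
    apply Integrable.smul
    apply integrableOn_of_bound (B := Fintype.card G * ε) _ _ hvol
    · exact (hSc.comp (continuous_id.add continuous_const)).sub hSc
    · intro t
      rw [lin_add_single]
      exact hSL.smul (hs κ) hεp.le _
  have iD : IntegrableOn (fun t => ε⁻¹ • (D (lin s (t + Pi.single κ ε)) - D (lin s t)))
      (box p q) := by
    apply Integrable.smul
    apply integrableOn_of_bound (B := Fintype.card G * ε) _ _ hvol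
    · exact (hDc.comp (continuous_id.add continuous_const)).sub hDc
    · intro t
      rw [lin_add_single]
      exact hD.smul (hs κ) hεp.le _
  -- first comparison
  have c1 : ‖∑ g, s κ g • mseq D s g (box p q) M - Z‖
      ≤ 2 * (Fintype.card G * (Fintype.card G + 1)) * (1 / ((M : ℝ) + 1)) := by
    have e1 : ∑ g, s κ g • mseq D s g (box p q) M
        = ∫ t in box p q, ∑ g, s κ g • quo D M g (lin s t) := by
      rw [integral_finset_sum]
      · apply Finset.sum_congr rfl
        intro g _
        rw [integral_smul]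
        unfold mseq
        rw [hmono]
      · intro g _
        exact (integrableOn_quo hD s g M hvol).smul _
    rw [e1, hZ, ← integral_sub _ iS]
    · refine (norm_setIntegral_le_of_norm_le_const (μ := volume) hvol
        (C := 2 * (Fintype.card G * (Fintype.card G + 1)) * (1 / ((M : ℝ) + 1))) ?_).trans ?_
      · intro t _
        have e2 : ∑ g, s κ g • quo D M g (lin s t) - ε⁻¹ • (S (lin s (t + Pi.single κ ε)) - S (lin s t))
          = -(ε⁻¹ • (S (lin s t + ε • s κ) - S (lin s t)
              - ∑ g, s κ g • (S (lin s t + Pi.single g ε) - S (lin s t)))) := by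
          rw [lin_add_single, smul_sub ε⁻¹ (S (lin s t + ε • s κ) - S (lin s t)), neg_sub,
            Finset.smul_sum]
          congr 1
          apply Finset.sum_congr rfl
          intro g _
          unfold quo
          rw [← hS, ← hε, smul_comm]
        rw [e2, norm_neg, norm_smul, Real.norm_eq_abs, abs_of_pos (by positivity)]
        have := hD.directional hεp.le hηp (s κ) (hs κ) (lin s t)
        rw [← hS] at this
        refine (mul_le_mul_of_nonneg_left this (inv_nonneg.mpr hεp.le)).trans (le_of_eq ?_)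
        have e5 : ε / η = 1 / ((M : ℝ) + 1) := by rw [hε, hη, eps_div_eta]
        rw [e5]
        field_simp
      · exact mul_le_of_le_one_right (by positivity) hvol1
    · apply integrable_finset_sum
      intro g _
      exact (integrableOn_quo hD s g M hvol).smul _
  have c2 : ‖Z - zseq D s κ p q M‖ ≤ 2 * Fintype.card G * η := by
    unfold zseq
    rw [hZ, ← hε, ← integral_sub iS iD]
    set F : (I → ℝ) → X := fun t => S (lin s t) - D (lin s t) with hF
    have hFc : Continuous F := hSc.sub hDc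
    have hFb : ∀ t, ‖F t‖ ≤ Fintype.card G * η := fun t => hD.smooth_sub hηp.le _
    have key := transl hFc hFb hpq κ hεp.le
    have e3 : ∫ t in box p q, (ε⁻¹ • (S (lin s (t + Pi.single κ ε)) - S (lin s t))
        - ε⁻¹ • (D (lin s (t + Pi.single κ ε)) - D (lin s t)))
        = ε⁻¹ • ∫ t in box p q, (F (t + Pi.single κ ε) - F t) := by
      rw [← integral_smul]
      congr 1
      ext1 t
      simp only [hF]
      rw [← smul_sub]
      congr 1
      abel
    rw [e3, norm_smul, Real.norm_eq_abs, abs_of_pos (by positivity)]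
    refine (mul_le_mul_of_nonneg_left key (inv_nonneg.mpr hεp.le)).trans (le_of_eq ?_)
    field_simp
  have e6 : ∑ g, s κ g • mseq D s g (box p q) M - zseq D s κ p q M
      = (∑ g, s κ g • mseq D s g (box p q) M - Z) + (Z - zseq D s κ p q M) :=
    (sub_add_sub_cancel _ _ _).symm
  rw [e6]
  exact (norm_add_le _ _).trans (add_le_add c1 c2)

theorem eta_tendsto : Tendsto eta atTop (𝓝 0) := by
  unfold eta
  have h1 : Tendsto (fun n : ℕ => (n : ℝ) * (1 / 2 : ℝ) ^ n) atTop (𝓝 0) :=
    tendsto_self_mul_const_pow_of_lt_one (by norm_num) (by norm_num)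
  have h2 : Tendsto (fun n : ℕ => (1 / 2 : ℝ) ^ n) atTop (𝓝 0) :=
    tendsto_pow_atTop_nhds_zero_of_lt_one (by norm_num) (by norm_num)
  have h3 := h1.add h2
  rw [add_zero] at h3
  refine h3.congr ?_
  intro n
  ring

theorem mseq_tendsto [CompleteSpace X] {D : (G → ℝ) → X} (hD : Lip1 D) (s : I → G → ℝ)
    (hs : ∀ κ g, s κ g = 1 ∨ s κ g = -1) (κ : I) (p q : I → ℝ) (hpq : ∀ i, q i - p i ≤ 1)
    (hc : box p q ⊆ cube I) {z : X} (hz : Tendsto (zseq D s κ p q) atTop (𝓝 z)) :
    Tendsto (fun M => ∑ g, s κ g • mseq D s g (box p q) M) atTop (𝓝 z) := by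
  have h1 : Tendsto (fun M : ℕ => 2 * ((Fintype.card G : ℝ) * (Fintype.card G + 1)) *
      (1 / ((M : ℝ) + 1)) + 2 * Fintype.card G * eta M) atTop (𝓝 0) := by
    have a1 := (tendsto_one_div_add_atTop_nhds_zero_nat (𝕜 := ℝ)).const_mul
      (2 * ((Fintype.card G : ℝ) * (Fintype.card G + 1)))
    have a2 := eta_tendsto.const_mul (2 * (Fintype.card G : ℝ))
    have a3 := a1.add a2
    simpa using a3
  have h2 : Tendsto (fun M => ∑ g, s κ g • mseq D s g (box p q) M - zseq D s κ p q M)
      atTop (𝓝 0) :=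
    squeeze_zero_norm (mseq_zseq hD s hs κ p q hpq hc) h1
  have h3 := h2.add hz
  rw [zero_add] at h3
  refine h3.congr ?_
  intro M
  abel

theorem zseq_pair [CompleteSpace X] {D : (G → ℝ) → X} (hD : Lip1 D) (s : I → G → ℝ)
    (hs : ∀ κ g, s κ g = 1 ∨ s κ g = -1) (κ : I) (p q : I → ℝ)
    (T : X →L[ℝ] ℝ) (C h0 : ℝ) (hh0 : 0 < h0)
    (hT : ∀ t ∈ box p q, ∀ h, 0 < h → h < h0 →
      T (D (lin s (t + Pi.single κ h))) - T (D (lin s t)) = h * C) {z : X}
    (hz : Tendsto (zseq D s κ p q) atTop (𝓝 z)) : T z = C * volume.real (box p q) := by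
  have h1 : Tendsto (fun M => T (zseq D s κ p q M)) atTop (𝓝 (T z)) :=
    (T.continuous.tendsto z).comp hz
  have h2 : Tendsto eps atTop (𝓝 0) :=
    tendsto_pow_atTop_nhds_zero_of_lt_one (by norm_num) (by norm_num)
  have h3 : ∀ᶠ M in atTop, eps M < h0 := h2.eventually_lt_const hh0
  have h4 : ∀ᶠ M in atTop, T (zseq D s κ p q M) = C * volume.real (box p q) := by
    filter_upwards [h3] with M hM
    have hvol := volume_box_lt_top p q
    have hDc : Continuous (fun t : I → ℝ => D (lin s t)) := hD.continuous.comp (continuous_lin s)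
    have iD : IntegrableOn (fun t => (eps M)⁻¹ •
        (D (lin s (t + Pi.single κ (eps M))) - D (lin s t))) (box p q) := by
      apply Integrable.smul
      apply integrableOn_of_bound (B := Fintype.card G * eps M) _ _ hvol
      · exact (hDc.comp (continuous_id.add continuous_const)).sub hDc
      · intro t
        rw [lin_add_single]
        exact hD.smul (hs κ) (eps_pos M).le _
    unfold zseq
    rw [← T.integral_comp_comm iD]
    have e : ∫ t in box p q, T ((eps M)⁻¹ • (D (lin s (t + Pi.single κ (eps M))) - D (lin s t)))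
        = ∫ _t in box p q, C := by
      apply setIntegral_congr_fun (measurableSet_box p q)
      intro t ht
      simp only
      rw [map_smul, map_sub, hT t ht _ (eps_pos M) hM, smul_eq_mul]
      field_simp [(eps_pos M).ne']
    rw [e, setIntegral_const, smul_eq_mul, mul_comm]
  exact tendsto_nhds_unique (h1.congr' h4) tendsto_const_nhds

open BoundedContinuousFunction in
/-- The approximate measures as a bounded sequence. -/
noncomputable def mbcf {D : (G → ℝ) → X} (hD : Lip1 D) (s : I → G → ℝ) (g : G)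
    (S : Set (I → ℝ)) : ℕ →ᵇ X :=
  BoundedContinuousFunction.ofNormedAddCommGroupDiscrete (mseq D s g S)
    (volume.real (S ∩ cube I)) (norm_mseq hD s g S)

open BoundedContinuousFunction in
theorem mbcf_apply {D : (G → ℝ) → X} (hD : Lip1 D) (s : I → G → ℝ) (g : G)
    (S : Set (I → ℝ)) (M : ℕ) : mbcf hD s g S M = mseq D s g S M := rfl

open BoundedContinuousFunction in
theorem mbcf_norm {D : (G → ℝ) → X} (hD : Lip1 D) (s : I → G → ℝ) (g : G)
    (S : Set (I → ℝ)) : ‖mbcf hD s g S‖ ≤ volume.real (S ∩ cube I) := by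
  rw [BoundedContinuousFunction.norm_le (by positivity)]
  exact norm_mseq hD s g S

open BoundedContinuousFunction in
/-- Existence of the additive set functions. -/
theorem exists_mu [CompleteSpace X] (Θ : (ℕ →ᵇ X) →ₗ[ℝ] X) (CΘ : ℝ)
    (hΘ : ∀ z, ‖Θ z‖ ≤ CΘ * ‖z‖) (hC : 0 ≤ CΘ)
    (hlim : ∀ (z : ℕ →ᵇ X) (x : X), Tendsto (fun n => z n) atTop (𝓝 x) → Θ z = x)
    {D : (G → ℝ) → X} (hD : Lip1 D) (s : I → G → ℝ)
    (hs : ∀ κ g, s κ g = 1 ∨ s κ g = -1) :
    ∃ μ : G → Set (I → ℝ) → X,
      (∀ (g : G) (S0 : Set (I → ℝ)) {V : Type} [Fintype V] (S : V → Set (I → ℝ)),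
        (∀ v, MeasurableSet (S v)) → (Pairwise (Function.onFun Disjoint S)) →
        (S0 ∩ cube I = ⋃ v, (S v ∩ cube I)) → μ g S0 = ∑ v, μ g (S v)) ∧
      (∀ g S, ‖μ g S‖ ≤ CΘ * volume.real (S ∩ cube I)) ∧
      (∀ κ p q, box p q ⊆ cube I → (∀ i, q i - p i ≤ 1) → ∀ (T : X →L[ℝ] ℝ) (C h0 : ℝ), 0 < h0 →
        (∀ t ∈ box p q, ∀ h, 0 < h → h < h0 →
          T (D (lin s (t + Pi.single κ h))) - T (D (lin s t)) = h * C) →
        T (∑ g, s κ g • μ g (box p q)) = C * volume.real (box p q)) := by
  refine ⟨fun g S => Θ (mbcf hD s g S), ?_, ?_, ?_⟩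
  · intro g S0 V _ S hS hd hu
    have : mbcf hD s g S0 = ∑ v, mbcf hD s g (S v) := by
      ext M
      rw [mbcf_apply, BoundedContinuousFunction.sum_apply, mseq_add hD s g S0 S hS hd hu M]
      rfl
    simp only
    rw [this, map_sum]
  · intro g S
    exact (hΘ _).trans (mul_le_mul_of_nonneg_left (mbcf_norm hD s g S) hC)
  · intro κ p q hpq h1 T C h0 hh0 hT
    obtain ⟨z, hz⟩ := zseq_tendsto hD s hs κ p q h1
    have e : ∑ g, s κ g • Θ (mbcf hD s g (box p q)) = z := by
      have : ∑ g, s κ g • Θ (mbcf hD s g (box p q)) = Θ (∑ g, s κ g • mbcf hD s g (box p q)) := by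
        rw [map_sum]
        apply Finset.sum_congr rfl
        intro g _
        rw [map_smul]
      rw [this]
      apply hlim
      refine (mseq_tendsto hD s hs κ p q h1 hpq hz).congr ?_
      intro M
      rw [BoundedContinuousFunction.sum_apply]
      rfl
    simp only
    rw [e]
    exact zseq_pair hD s hs κ p q T C h0 hh0 hT hz

end

end Pool.Agent.Helper51.FreeL1
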