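import Pool.Agent.Helper51.FreeL1Measure

set_option autoImplicit false
set_option linter.unusedSectionVars false
set_option linter.deprecated false

open Set Filter Topology MeasureTheory

namespace Pool.Agent.Helper51.FreeL1

/-- Soft thresholding. -/
noncomputable def soft (τ x : ℝ) : ℝ := max (x - τ) 0 - max (-x - τ) 0

theorem soft_sub (τ x y : ℝ) (hτ : 0 ≤ τ) : |soft τ x - soft τ y| ≤ |x - y| := by
  unfold soft
  rw [abs_le]
  rcases le_total x y with h | h
  · rw [abs_of_nonpos (by linarith)]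
    constructor <;>
    rcases max_cases (x - τ) 0 with ⟨h1, h1'⟩ | ⟨h1, h1'⟩ <;>
    rcases max_cases (-x - τ) 0 with ⟨h2, h2'⟩ | ⟨h2, h2'⟩ <;>
    rcases max_cases (y - τ) 0 with ⟨h3, h3'⟩ | ⟨h3, h3'⟩ <;>
    rcases max_cases (-y - τ) 0 with ⟨h4, h4'⟩ | ⟨h4, h4'⟩ <;>
    rw [h1, h2, h3, h4] <;> linarith
  · rw [abs_of_nonneg (by linarith)]
    constructor <;>
    rcases max_cases (x - τ) 0 with ⟨h1, h1'⟩ | ⟨h1, h1'⟩ <;>
    rcases max_cases (-x - τ) 0 with ⟨h2, h2'⟩ | ⟨h2, h2'⟩ <;>
    rcases max_cases (y - τ) 0 with ⟨h3, h3'⟩ | ⟨h3, h3'⟩ <;>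
    rcases max_cases (-y - τ) 0 with ⟨h4, h4'⟩ | ⟨h4, h4'⟩ <;>
    rw [h1, h2, h3, h4] <;> linarith

theorem soft_zero {τ x : ℝ} (h : |x| ≤ τ) : soft τ x = 0 := by
  rw [abs_le] at h
  unfold soft
  rw [max_eq_right (by linarith), max_eq_right (by linarith)]
  simp

theorem soft_near (τ x : ℝ) (hτ : 0 ≤ τ) : |soft τ x - x| ≤ τ := by
  unfold soft
  rw [abs_le]
  constructor <;>
  rcases max_cases (x - τ) 0 with ⟨h1, h1'⟩ | ⟨h1, h1'⟩ <;>
  rcases max_cases (-x - τ) 0 with ⟨h2, h2'⟩ | ⟨h2, h2'⟩ <;>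
  rw [h1, h2] <;> linarith

section

variable {Y X : Type} [NormedAddCommGroup Y] [NormedSpace ℝ Y]
    [NormedAddCommGroup X] [NormedSpace ℝ X] {δ : Y → X}

theorem crossing_aux (ℓ : Y →L[ℝ] ℝ) (τ : ℝ) (y y' : Y) (h1 : |ℓ y| ≤ τ) (h2 : τ ≤ |ℓ y'|) :
    ∃ w, |ℓ w| = τ ∧ ‖y - w‖ + ‖w - y'‖ = ‖y - y'‖ := by
  have hc : ContinuousOn (fun t : ℝ => |ℓ (y + t • (y' - y))|) (Icc 0 1) := by
    apply Continuous.continuousOn
    apply Continuous.abs
    apply ℓ.continuous.comp
    exact continuous_const.add (continuous_id.smul continuous_const)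
  have hivt := intermediate_value_Icc (zero_le_one (α := ℝ)) hc
  have hmem : τ ∈ Icc ((fun t : ℝ => |ℓ (y + t • (y' - y))|) 0)
      ((fun t : ℝ => |ℓ (y + t • (y' - y))|) 1) := by
    constructor
    · simpa using h1
    · simpa using h2
  obtain ⟨t, ht, hte⟩ := hivt hmem
  refine ⟨y + t • (y' - y), hte, ?_⟩
  have e1 : y - (y + t • (y' - y)) = -(t • (y' - y)) := by abel
  have e2 : y + t • (y' - y) - y' = -((1 - t) • (y' - y)) := by
    rw [sub_smul, one_smul]; abel
  rw [e1, e2, norm_neg, norm_neg, norm_smul, norm_smul, Real.norm_eq_abs, Real.norm_eq_abs,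
    abs_of_nonneg ht.1, abs_of_nonneg (by linarith [ht.2]), norm_sub_rev y y']
  ring

theorem crossing {F1 F2 : Y → ℝ} {L : ℝ} (hL : 0 ≤ L) (hF1 : LipK L F1) (hF2 : LipK L F2)
    (ℓ : Y →L[ℝ] ℝ) (τ : ℝ) (h1 : ∀ y, |ℓ y| ≤ τ → F1 y = 0) (h2 : ∀ y, τ ≤ |ℓ y| → F2 y = 0) :
    LipK L (fun y => F1 y + F2 y) := by
  have key : ∀ y y', |ℓ y| ≤ τ → τ ≤ |ℓ y'| → |(F1 y + F2 y) - (F1 y' + F2 y')| ≤ L * ‖y - y'‖ := by
    intro y y' hy hy'
    obtain ⟨w, hw, hw'⟩ := crossing_aux ℓ τ y y' hy hy'
    rw [h1 y hy, h2 y' hy', zero_add, add_zero]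
    have e : F2 y - F1 y' = (F2 y - F2 w) + (F1 w - F1 y') := by
      rw [h1 w hw.le, h2 w hw.ge]; ring
    rw [e, ← hw', mul_add]
    exact (abs_add_le _ _).trans (add_le_add (hF2 _ _) (hF1 _ _))
  intro y y'
  rcases le_total (|ℓ y|) τ with hy | hy
  · rcases le_total (|ℓ y'|) τ with hy' | hy'
    · simp only [h1 y hy, h1 y' hy', zero_add]
      exact hF2 y y'
    · exact key y y' hy hy'
  · rcases le_total (|ℓ y'|) τ with hy' | hy'
    · have := key y' y hy' hy
      rw [abs_sub_comm, norm_sub_rev] at this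
      exact this
    · simp only [h2 y hy, h2 y' hy', add_zero]
      exact hF1 y y'

variable {I : Type} [Fintype I] [DecidableEq I]

theorem sum_volume_real {W : Type} [Fintype W] (R : W → Set (I → ℝ))
    (hm : ∀ w, MeasurableSet (R w)) (hd : Pairwise (Function.onFun Disjoint R))
    (hc : cube I ⊆ ⋃ w, R w) : ∑ w, volume.real (R w ∩ cube I) = 1 := by
  have h1 : cube I = ⋃ w, (R w ∩ cube I) := by
    rw [← Set.iUnion_inter]
    exact (Set.inter_eq_right.mpr hc).symm
  have h2 : volume (cube I) = ∑ w, volume (R w ∩ cube I) := by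
    conv_lhs => rw [h1]
    rw [measure_iUnion, tsum_fintype]
    · intro w w' hww'
      exact (hd hww').mono Set.inter_subset_left Set.inter_subset_left
    · intro w
      exact (hm w).inter measurableSet_cube
  have h3 : volume.real (cube I) = ∑ w, volume.real (R w ∩ cube I) := by
    unfold Measure.real
    rw [h2, ENNReal.toReal_sum]
    intro w _
    exact (volume_inter_lt_top _).ne
  rw [← h3, volume_real_cube]

/-- The stacking argument. -/
theorem rigidity (hF : FreeData δ) (μ : Set (I → ℝ) → X) (CΘ : ℝ) (hCΘ : 0 ≤ CΘ)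
    (hadd : ∀ (S0 : Set (I → ℝ)) {V : Type} [Fintype V] (S : V → Set (I → ℝ)),
        (∀ v, MeasurableSet (S v)) → (Pairwise (Function.onFun Disjoint S)) →
        (S0 ∩ cube I = ⋃ v, (S v ∩ cube I)) → μ S0 = ∑ v, μ (S v))
    (hbd : ∀ S, ‖μ S‖ ≤ CΘ * volume.real (S ∩ cube I))
    (ℓ : Y →L[ℝ] ℝ) (L : ℝ) (hL : 0 ≤ L)
    (V : ℕ → Type) [∀ m, Fintype (V m)] (S : ∀ m, V m → Set (I → ℝ))
    (hSm : ∀ m v, MeasurableSet (S m v)) (hSd : ∀ m, Pairwise (Function.onFun Disjoint (S m)))
    (hSc : ∀ m, cube I ⊆ ⋃ v, S m v)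
    (φ : ∀ m, V m → Y → ℝ) (hφL : ∀ m v, LipK L (φ m v))
    (hφℓ : ∀ m v y, |φ m v y| ≤ |ℓ y|)
    (β : ℕ → ℝ) (hβ : Tendsto β atTop (𝓝 0)) (hφβ : ∀ m v y, β m ≤ |ℓ y| → φ m v y = 0) :
    Tendsto (fun m => ∑ v, pair δ (φ m v) (μ (S m v))) atTop (𝓝 0) := by
  by_contra hcon
  rw [Metric.tendsto_atTop] at hcon
  push Not at hcon
  obtain ⟨κ, hκ, hfreq⟩ := hcon
  -- inductive claim
  have claim : ∀ M : ℕ, ∀ β0 : ℝ, 0 < β0 → ∃ (W : Type) (_ : Fintype W) (R : W → Set (I → ℝ))
      (F : W → Y → ℝ), (∀ w, MeasurableSet (R w)) ∧ (Pairwise (Function.onFun Disjoint R)) ∧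
      (cube I ⊆ ⋃ w, R w) ∧ (∀ w, LipK L (F w)) ∧ (∀ w y, β0 ≤ |ℓ y| → F w y = 0) ∧
      M * (κ / 2) ≤ ∑ w, pair δ (F w) (μ (R w)) := by
    intro M
    induction M with
    | zero =>
      intro β0 _
      refine ⟨Unit, inferInstance, fun _ => Set.univ, fun _ _ => 0, fun _ => MeasurableSet.univ,
        ?_, ?_, ?_, fun _ _ _ => rfl, ?_⟩
      · intro a b hab
        exact absurd (Subsingleton.elim a b) hab
      · intro t _
        simp
      · intro _ x y
        simp only [sub_self, abs_zero]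
        positivity
      · have : pair δ (fun _ : Y => (0 : ℝ)) = 0 := by
          apply hF.pair_eq
          intro m; simp
        simp [this]
    | succ M ih =>
      intro β0 hβ0
      -- choose m
      have hev : ∀ᶠ m in atTop, β m < β0 := hβ.eventually_lt_const hβ0
      obtain ⟨m0, hm0⟩ := eventually_atTop.mp hev
      obtain ⟨m, hm, hma⟩ := hfreq m0
      rw [Real.dist_0_eq_abs] at hma
      have hβm : β m < β0 := hm0 m hm
      set a := ∑ v, pair δ (φ m v) (μ (S m v)) with ha
      -- choose τ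
      set ε' : ℝ := κ / (2 * (Fintype.card (V m) + 1)) with hε'
      have hε'pos : 0 < ε' := by positivity
      have hev2 : ∀ᶠ τ in 𝓝[>] (0 : ℝ), ∀ v : V m, ∀ ψ : Y → ℝ, LipK (L + L) ψ →
          (∀ y, |ψ y| ≤ τ) → |pair δ ψ (μ (S m v))| ≤ ε' := by
        rw [Filter.eventually_all]
        intro v
        obtain ⟨τ, hτ, hτψ⟩ := hF.small (μ (S m v)) (L + L) ε' (by positivity) hε'pos
        have : ∀ᶠ x in 𝓝[>] (0 : ℝ), x ∈ Ioc 0 τ := Ioc_mem_nhdsGT hτ
        filter_upwards [this] with x hx ψ hψ hψx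
        exact hτψ ψ hψ (fun y => (hψx y).trans hx.2)
      have hev3 : ∀ᶠ x in 𝓝[>] (0 : ℝ), x ∈ Ioc 0 β0 := Ioc_mem_nhdsGT hβ0
      obtain ⟨τ, hτψ, hτ⟩ := (hev2.and hev3).exists
      have hτ0 : 0 < τ := hτ.1
      have hτβ : τ ≤ β0 := hτ.2
      -- sign
      obtain ⟨θ, hθ1, hθa⟩ : ∃ θ : ℝ, |θ| = 1 ∧ θ * a = |a| := by
        rcases le_total 0 a with h | h
        · exact ⟨1, by simp, by rw [abs_of_nonneg h]; ring⟩
        · exact ⟨-1, by simp, by rw [abs_of_nonpos h]; ring⟩
      set F1 : V m → Y → ℝ := fun v y => θ * soft τ (φ m v y) with hF1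
      have hsoftL : ∀ v, LipK L (fun y => soft τ (φ m v y)) := by
        intro v x y
        exact (soft_sub τ _ _ hτ0.le).trans (hφL m v x y)
      have hF1L : ∀ v, LipK L (F1 v) := by
        intro v
        have := (hsoftL v).const_mul θ
        rw [hθ1, one_mul] at this
        exact this
      have hF1τ : ∀ v y, |ℓ y| ≤ τ → F1 v y = 0 := by
        intro v y hy
        simp only [hF1]
        rw [soft_zero ((hφℓ m v y).trans hy), mul_zero]
      have hF1β : ∀ v y, β0 ≤ |ℓ y| → F1 v y = 0 := by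
        intro v y hy
        simp only [hF1]
        rw [hφβ m v y (hβm.le.trans hy), soft_zero (by simpa using hτ0.le), mul_zero]
      have hsum1 : κ / 2 ≤ ∑ v, pair δ (F1 v) (μ (S m v)) := by
        have e1 : ∀ v, pair δ (F1 v) (μ (S m v))
            = θ * pair δ (φ m v) (μ (S m v))
              + θ * pair δ (fun y => soft τ (φ m v y) - φ m v y) (μ (S m v)) := by
          intro v
          rw [hF.pair_smul hL (hsoftL v), hF.pair_sub hL hL (hsoftL v) (hφL m v)]
          simp only [ContinuousLinearMap.smul_apply, ContinuousLinearMap.sub_apply, smul_eq_mul]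
          ring
        rw [Finset.sum_congr rfl (fun v _ => e1 v), Finset.sum_add_distrib, ← Finset.mul_sum,
          ← ha, hθa]
        have e2 : |∑ v, θ * pair δ (fun y => soft τ (φ m v y) - φ m v y) (μ (S m v))| ≤ κ / 2 := by
          refine (Finset.abs_sum_le_sum_abs _ _).trans ?_
          calc ∑ v, |θ * pair δ (fun y => soft τ (φ m v y) - φ m v y) (μ (S m v))|
              ≤ ∑ _v : V m, ε' := by
                apply Finset.sum_le_sum
                intro v _
                rw [abs_mul, hθ1, one_mul]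
                apply hτψ v
                · exact (hsoftL v).sub (hφL m v)
                · intro y
                  exact soft_near τ _ hτ0.le
            _ = Fintype.card (V m) * ε' := by simp
            _ ≤ (Fintype.card (V m) + 1) * ε' := by
                apply mul_le_mul_of_nonneg_right _ hε'pos.le
                linarith
            _ = κ / 2 := by
                rw [hε']
                field_simp
        have := (abs_le.mp e2).1
        linarith
      obtain ⟨W, instW, R, F, hRm, hRd, hRc, hFL, hFτ, hFsum⟩ := ih τ hτ0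
      refine ⟨V m × W, inferInstance, fun p => S m p.1 ∩ R p.2, fun p y => F1 p.1 y + F p.2 y,
        ?_, ?_, ?_, ?_, ?_, ?_⟩
      · intro p
        exact (hSm m p.1).inter (hRm p.2)
      · rintro ⟨v, w⟩ ⟨v', w'⟩ hne
        by_cases hv : v = v'
        · have hw : w ≠ w' := by
            intro hw; exact hne (by rw [hv, hw])
          exact (hRd hw).mono Set.inter_subset_right Set.inter_subset_right
        · exact (hSd m hv).mono Set.inter_subset_left Set.inter_subset_left
      · intro t ht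
        obtain ⟨v, hv⟩ := Set.mem_iUnion.mp (hSc m ht)
        obtain ⟨w, hw⟩ := Set.mem_iUnion.mp (hRc ht)
        exact Set.mem_iUnion.mpr ⟨(v, w), hv, hw⟩
      · intro p
        exact crossing hL (hF1L p.1) (hFL p.2) ℓ τ (hF1τ p.1) (hFτ p.2)
      · intro p y hy
        simp only
        rw [hF1β p.1 y hy, hFτ p.2 y (hτβ.trans hy), add_zero]
      · have a1 : ∀ v, μ (S m v) = ∑ w, μ (S m v ∩ R w) := by
          intro v
          apply hadd
          · intro w
            exact (hSm m v).inter (hRm w)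
          · intro w w' hww'
            exact (hRd hww').mono Set.inter_subset_right Set.inter_subset_right
          · ext t
            simp only [Set.mem_inter_iff, Set.mem_iUnion]
            constructor
            · rintro ⟨h1, h2⟩
              obtain ⟨w, hw⟩ := Set.mem_iUnion.mp (hRc h2)
              exact ⟨w, ⟨h1, hw⟩, h2⟩
            · rintro ⟨w, ⟨h1, _⟩, h2⟩
              exact ⟨h1, h2⟩
        have a2 : ∀ w, μ (R w) = ∑ v, μ (S m v ∩ R w) := by
          intro w
          apply hadd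
          · intro v
            exact (hSm m v).inter (hRm w)
          · intro v v' hvv'
            exact (hSd m hvv').mono Set.inter_subset_left Set.inter_subset_left
          · ext t
            simp only [Set.mem_inter_iff, Set.mem_iUnion]
            constructor
            · rintro ⟨h1, h2⟩
              obtain ⟨v, hv⟩ := Set.mem_iUnion.mp (hSc m h2)
              exact ⟨v, ⟨hv, h1⟩, h2⟩
            · rintro ⟨v, ⟨_, h1⟩, h2⟩
              exact ⟨h1, h2⟩
        have e : ∑ p : V m × W, pair δ (fun y => F1 p.1 y + F p.2 y) (μ (S m p.1 ∩ R p.2))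
            = ∑ v, pair δ (F1 v) (μ (S m v)) + ∑ w, pair δ (F w) (μ (R w)) := by
          have e0 : ∀ p : V m × W, pair δ (fun y => F1 p.1 y + F p.2 y) (μ (S m p.1 ∩ R p.2))
              = pair δ (F1 p.1) (μ (S m p.1 ∩ R p.2)) + pair δ (F p.2) (μ (S m p.1 ∩ R p.2)) := by
            intro p
            rw [hF.pair_add hL hL (hF1L p.1) (hFL p.2), ContinuousLinearMap.add_apply]
          rw [Finset.sum_congr rfl (fun p _ => e0 p), Finset.sum_add_distrib]
          congr 1
          · rw [Fintype.sum_prod_type]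
            apply Finset.sum_congr rfl
            intro v _
            rw [a1 v, map_sum]
          · rw [Fintype.sum_prod_type_right]
            apply Finset.sum_congr rfl
            intro w _
            rw [a2 w, map_sum]
        simp only
        rw [e]
        push_cast
        linarith
  -- upper bound
  have upper : ∀ (W : Type) (_ : Fintype W) (R : W → Set (I → ℝ)) (F : W → Y → ℝ),
      (∀ w, MeasurableSet (R w)) → (Pairwise (Function.onFun Disjoint R)) →
      (cube I ⊆ ⋃ w, R w) → (∀ w, LipK L (F w)) →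
      ∑ w, pair δ (F w) (μ (R w)) ≤ L * CΘ := by
    intro W _ R F hm hd hc hFL
    calc ∑ w, pair δ (F w) (μ (R w)) ≤ ∑ w, L * (CΘ * volume.real (R w ∩ cube I)) := by
          apply Finset.sum_le_sum
          intro w _
          refine (le_abs_self _).trans ((hF.pair_le hL (hFL w) _).trans ?_)
          exact mul_le_mul_of_nonneg_left (hbd _) hL
      _ = L * CΘ * ∑ w, volume.real (R w ∩ cube I) := by
          rw [Finset.mul_sum]
          apply Finset.sum_congr rfl
          intro w _
          ring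
      _ = L * CΘ := by rw [sum_volume_real R hm hd hc, mul_one]
  obtain ⟨M, hM⟩ := exists_nat_gt (L * CΘ / (κ / 2))
  obtain ⟨W, instW, R, F, hRm, hRd, hRc, hFL, _, hFsum⟩ := claim M 1 one_pos
  have h1 := upper W instW R F hRm hRd hRc hFL
  have h2 : L * CΘ < M * (κ / 2) := by
    rwa [div_lt_iff₀ (by positivity)] at hM
  linarith

end

end Pool.Agent.Helper51.FreeL1
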