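import Pool.Agent.Helper51.FreeL1Transl

set_option autoImplicit false
set_option linter.unusedSectionVars false
set_option linter.deprecated false

open Set Filter Topology MeasureTheory

namespace Pool.Agent.Helper51.FreeL1

section

variable {G : Type} [Fintype G] [DecidableEq G]
  {X : Type} [NormedAddCommGroup X] [NormedSpace ℝ X]

/-- The unit cube. -/
def cube (G : Type) : Set (G → ℝ) := box (fun _ => 0) (fun _ => 1)

theorem volume_cube : volume (cube G) = 1 := by
  unfold cube
  rw [volume_box]
  simp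

theorem volume_real_cube : volume.real (cube G) = 1 := by
  unfold Measure.real
  rw [volume_cube]; simp

theorem measurableSet_cube : MeasurableSet (cube G) := measurableSet_box _ _

theorem mem_cube {t : G → ℝ} : t ∈ cube G ↔ ∀ i, 0 ≤ t i ∧ t i < 1 := mem_box

theorem norm_integral_cube_le {F : (G → ℝ) → X} {B : ℝ} (hB : ∀ t ∈ cube G, ‖F t‖ ≤ B) :
    ‖∫ t in cube G, F t‖ ≤ B := by
  have h : volume (cube G) < ⊤ := by rw [volume_cube]; simp
  have := norm_setIntegral_le_of_norm_le_const (μ := volume) h hB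
  rwa [volume_real_cube, mul_one] at this

/-- Lipschitz for the sum norm. -/
def Lip1 (D : (G → ℝ) → X) : Prop := ∀ u v, ‖D u - D v‖ ≤ ∑ g, |u g - v g|

theorem sum_abs_le (u : G → ℝ) : ∑ g, |u g| ≤ Fintype.card G * ‖u‖ := by
  calc ∑ g, |u g| ≤ ∑ _g : G, ‖u‖ := Finset.sum_le_sum (fun g _ => norm_le_pi_norm u g)
    _ = Fintype.card G * ‖u‖ := by simp

theorem Lip1.continuous {D : (G → ℝ) → X} (hD : Lip1 D) : Continuous D := by
  have : LipschitzWith (Fintype.card G : NNReal) D := by
    apply LipschitzWith.of_dist_le_mul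
    intro u v
    rw [dist_eq_norm, dist_eq_norm]
    refine (hD u v).trans ?_
    have := sum_abs_le (u - v)
    simpa using this
  exact this.continuous

/-- Averages over small cubes. -/
noncomputable def smooth (D : (G → ℝ) → X) (η : ℝ) (u : G → ℝ) : X :=
  ∫ a in cube G, D (u + η • a)

theorem Lip1.integrable {D : (G → ℝ) → X} (hD : Lip1 D) (η : ℝ) (u : G → ℝ) :
    IntegrableOn (fun a => D (u + η • a)) (cube G) := by
  have hc : Continuous (fun a : G → ℝ => D (u + η • a)) :=
    hD.continuous.comp (continuous_const.add (continuous_id.const_smul η))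
  have h1 : IntegrableOn (fun a => D (u + η • a)) (Set.Icc (fun _ => 0) (fun _ => 1)) :=
    hc.integrableOn_Icc
  apply h1.mono_set
  intro t ht
  rw [mem_cube] at ht
  exact ⟨fun i => (ht i).1, fun i => (ht i).2.le⟩

theorem Lip1.smooth {D : (G → ℝ) → X} (hD : Lip1 D) (η : ℝ) : Lip1 (smooth D η) := by
  intro u v
  unfold FreeL1.smooth
  rw [← integral_sub (hD.integrable η u) (hD.integrable η v)]
  apply norm_integral_cube_le
  intro t _
  refine (hD _ _).trans (le_of_eq ?_)
  apply Finset.sum_congr rfl
  intro g _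
  simp

theorem Lip1.smooth_sub [CompleteSpace X] {D : (G → ℝ) → X} (hD : Lip1 D) {η : ℝ} (hη : 0 ≤ η)
    (u : G → ℝ) : ‖FreeL1.smooth D η u - D u‖ ≤ Fintype.card G * η := by
  have h1 : D u = ∫ _a in cube G, D u := by
    rw [setIntegral_const, volume_real_cube, one_smul]
  have h2 : IntegrableOn (fun _ : G → ℝ => D u) (cube G) :=
    integrableOn_const (by rw [volume_cube]; simp) (by simp)
  rw [h1]
  unfold FreeL1.smooth
  rw [← integral_sub (hD.integrable η u) h2]
  apply norm_integral_cube_le
  intro t ht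
  rw [mem_cube] at ht
  refine (hD _ _).trans ?_
  calc ∑ g, |(u + η • t) g - u g| ≤ ∑ _g : G, η := by
        apply Finset.sum_le_sum
        intro g _
        simp only [Pi.add_apply, Pi.smul_apply, smul_eq_mul, add_sub_cancel_left]
        rw [abs_of_nonneg (mul_nonneg hη (ht g).1)]
        exact mul_le_of_le_one_right hη (ht g).2.le
    _ = Fintype.card G * η := by simp

theorem Lip1.single {D : (G → ℝ) → X} (hD : Lip1 D) {ε : ℝ} (hε : 0 ≤ ε) (g : G) (u : G → ℝ) :
    ‖D (u + Pi.single g ε) - D u‖ ≤ ε := by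
  refine (hD _ _).trans (le_of_eq ?_)
  rw [Finset.sum_eq_single g]
  · simp [abs_of_nonneg hε]
  · intro b _ hb
    simp [hb]
  · simp

/-- Second differences of the smoothed function. -/
theorem Lip1.second {D : (G → ℝ) → X} (hD : Lip1 D) {ε η : ℝ} (hε : 0 ≤ ε) (hη : 0 < η)
    (g g' : G) (w : G → ℝ) :
    ‖(FreeL1.smooth D η (w + Pi.single g' ε + Pi.single g ε) - FreeL1.smooth D η (w + Pi.single g' ε))
      - (FreeL1.smooth D η (w + Pi.single g ε) - FreeL1.smooth D η w)‖ ≤ 2 * (ε / η) * ε := by
  set F : (G → ℝ) → X := fun a => D (w + η • a + Pi.single g ε) - D (w + η • a) with hF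
  have hFc : Continuous F := by
    apply Continuous.sub
    · exact hD.continuous.comp ((continuous_const.add (continuous_id.const_smul η)).add
        continuous_const)
    · exact hD.continuous.comp (continuous_const.add (continuous_id.const_smul η))
  have hFB : ∀ a, ‖F a‖ ≤ ε := fun a => hD.single hε g _
  have key := transl hFc hFB (p := fun _ : G => (0 : ℝ)) (q := fun _ => 1) (by intro i; simp) g'
    (h := ε / η) (by positivity)
  have e : (FreeL1.smooth D η (w + Pi.single g' ε + Pi.single g ε)
      - FreeL1.smooth D η (w + Pi.single g' ε))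
      - (FreeL1.smooth D η (w + Pi.single g ε) - FreeL1.smooth D η w)
      = ∫ a in cube G, (F (a + Pi.single g' (ε / η)) - F a) := by
    unfold FreeL1.smooth
    have i1 : ∀ u v : G → ℝ, IntegrableOn (fun a => D (u + η • a) - D (v + η • a)) (cube G) :=
      fun u v => (hD.integrable η u).sub (hD.integrable η v)
    rw [← integral_sub (hD.integrable η _) (hD.integrable η _),
      ← integral_sub (hD.integrable η _) (hD.integrable η _),
      ← integral_sub (i1 _ _) (i1 _ _)]
    congr 1
    ext1 a
    simp only [hF]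
    have hs : η • (a + Pi.single g' (ε / η)) = η • a + Pi.single g' ε := by
      rw [smul_add, ← Pi.single_smul, smul_eq_mul, mul_div_cancel₀ _ hη.ne']
    rw [hs]
    have h1 : w + Pi.single g' ε + Pi.single g ε + η • a
        = w + (η • a + Pi.single g' ε) + Pi.single g ε := by abel
    have h2 : w + Pi.single g' ε + η • a = w + (η • a + Pi.single g' ε) := by abel
    have h3 : w + Pi.single g ε + η • a = w + η • a + Pi.single g ε := by abel
    rw [h1, h2, h3]
  rw [e]
  exact key

theorem diff_sum (Φ : (G → ℝ) → X) (ε δ : ℝ)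
    (h : ∀ w g, ‖Φ (w + Pi.single g ε) - Φ w‖ ≤ δ) (s : G → ℝ) (hs : ∀ g, s g = 1 ∨ s g = -1)
    (T : Finset G) (w : G → ℝ) :
    ‖Φ (w + ∑ g ∈ T, Pi.single g (s g * ε)) - Φ w‖ ≤ T.card * δ := by
  induction T using Finset.induction_on with
  | empty => simp
  | insert g T hg ih =>
    rw [Finset.sum_insert hg, Finset.card_insert_of_notMem hg]
    set w' := w + ∑ g ∈ T, Pi.single g (s g * ε) with hw'
    have e1 : w + (Pi.single g (s g * ε) + ∑ g ∈ T, Pi.single g (s g * ε))
        = w' + Pi.single g (s g * ε) := by rw [hw']; abel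
    rw [e1]
    have h1 : ‖Φ (w' + Pi.single g (s g * ε)) - Φ w'‖ ≤ δ := by
      rcases hs g with h1 | h1
      · rw [h1, one_mul]; exact h w' g
      · rw [h1, neg_one_mul]
        have := h (w' + Pi.single g (-ε)) g
        rw [add_assoc, ← Pi.single_add, neg_add_cancel, Pi.single_zero, add_zero] at this
        rw [norm_sub_rev]; exact this
    calc ‖Φ (w' + Pi.single g (s g * ε)) - Φ w‖
        = ‖(Φ (w' + Pi.single g (s g * ε)) - Φ w') + (Φ w' - Φ w)‖ := by congr 1; abel
      _ ≤ _ := norm_add_le _ _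
      _ ≤ δ + T.card * δ := add_le_add h1 ih
      _ = ((T.card + 1 : ℕ) : ℝ) * δ := by push_cast; ring

theorem diff_sum2 (H : (G → ℝ) → X) (ε δ : ℝ) (hδ : 0 ≤ δ)
    (h : ∀ w g g', ‖(H (w + Pi.single g' ε + Pi.single g ε) - H (w + Pi.single g' ε))
      - (H (w + Pi.single g ε) - H w)‖ ≤ δ) (s : G → ℝ) (hs : ∀ g, s g = 1 ∨ s g = -1)
    (T : Finset G) (w : G → ℝ) :
    ‖H (w + ∑ g ∈ T, Pi.single g (s g * ε)) - H w
      - ∑ g ∈ T, s g • (H (w + Pi.single g ε) - H w)‖ ≤ T.card * (T.card + 1) * δ := by
  induction T using Finset.induction_on with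
  | empty => simp
  | insert g T hg ih =>
    rw [Finset.sum_insert hg, Finset.sum_insert hg, Finset.card_insert_of_notMem hg]
    set w' := w + ∑ g ∈ T, Pi.single g (s g * ε) with hw'
    set SS := ∑ g ∈ T, s g • (H (w + Pi.single g ε) - H w) with hSS
    have e1 : w + (Pi.single g (s g * ε) + ∑ g ∈ T, Pi.single g (s g * ε))
        = w' + Pi.single g (s g * ε) := by rw [hw']; abel
    rw [e1]
    have hΦ := diff_sum (fun w => H (w + Pi.single g ε) - H w) ε δ (fun w g' => h w g g')
      s hs T w
    simp only [← hw'] at hΦ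
    have h1 : ‖H (w' + Pi.single g (s g * ε)) - H w' - s g • (H (w + Pi.single g ε) - H w)‖
        ≤ (T.card + 1) * δ := by
      rcases hs g with h1 | h1
      · rw [h1, one_mul, one_smul]
        linarith
      · rw [h1, neg_one_mul]
        have h2 := h (w' + Pi.single g (-ε)) g g
        rw [add_assoc w', ← Pi.single_add, neg_add_cancel, Pi.single_zero, add_zero] at h2
        have e2 : H (w' + Pi.single g (-ε)) - H w' - (-1 : ℝ) • (H (w + Pi.single g ε) - H w)
          = (H (w' + Pi.single g ε) - H w' - (H w' - H (w' + Pi.single g (-ε))))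
            - ((H (w' + Pi.single g ε) - H w') - (H (w + Pi.single g ε) - H w)) := by
          rw [neg_one_smul]; abel
        rw [e2]
        refine (norm_sub_le _ _).trans ?_
        linarith
    calc ‖H (w' + Pi.single g (s g * ε)) - H w
          - (s g • (H (w + Pi.single g ε) - H w) + SS)‖
        = ‖(H (w' + Pi.single g (s g * ε)) - H w' - s g • (H (w + Pi.single g ε) - H w))
          + (H w' - H w - SS)‖ := by congr 1; abel
      _ ≤ _ := norm_add_le _ _
      _ ≤ (T.card + 1) * δ + T.card * (T.card + 1) * δ := add_le_add h1 ih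
      _ ≤ ((T.card + 1 : ℕ) : ℝ) * (((T.card + 1 : ℕ) : ℝ) + 1) * δ := by
        push_cast
        have : (0 : ℝ) ≤ (T.card + 1) * δ := by positivity
        nlinarith

theorem sum_single_mul (s : G → ℝ) (ε : ℝ) :
    ∑ g, Pi.single g (s g * ε) = ε • s := by
  ext i
  rw [Finset.sum_apply, Finset.sum_eq_single i]
  · simp [mul_comm]
  · intro b _ hb
    rw [Pi.single_eq_of_ne hb.symm]
  · simp

/-- The directional difference is approximately the combination of partial differences. -/
theorem Lip1.directional {D : (G → ℝ) → X} (hD : Lip1 D) {ε η : ℝ} (hε : 0 ≤ ε) (hη : 0 < η)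
    (s : G → ℝ) (hs : ∀ g, s g = 1 ∨ s g = -1) (w : G → ℝ) :
    ‖FreeL1.smooth D η (w + ε • s) - FreeL1.smooth D η w
      - ∑ g, s g • (FreeL1.smooth D η (w + Pi.single g ε) - FreeL1.smooth D η w)‖
      ≤ Fintype.card G * (Fintype.card G + 1) * (2 * (ε / η) * ε) := by
  have := diff_sum2 (FreeL1.smooth D η) ε (2 * (ε / η) * ε) (by positivity)
    (fun w g g' => hD.second hε hη g g' w) s hs Finset.univ w
  rw [sum_single_mul] at this
  exact this

end

end Pool.Agent.Helper51.FreeL1
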