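import Mathlib

set_option autoImplicit false
set_option linter.unusedSectionVars false
set_option linter.deprecated false

open Set Filter Topology MeasureTheory

namespace Pool.Agent.Helper51.FreeL1

/-- Half-open box. -/
def box {ι : Type} (p q : ι → ℝ) : Set (ι → ℝ) := Set.pi univ (fun i => Ico (p i) (q i))

section

variable {ι : Type} [Fintype ι] [DecidableEq ι]
  {X : Type} [NormedAddCommGroup X] [NormedSpace ℝ X]

theorem measurableSet_box (p q : ι → ℝ) : MeasurableSet (box p q) :=
  MeasurableSet.univ_pi (fun _ => measurableSet_Ico)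

theorem mem_box {p q t : ι → ℝ} : t ∈ box p q ↔ ∀ i, p i ≤ t i ∧ t i < q i := by
  simp [box, Set.mem_pi]

theorem volume_box (p q : ι → ℝ) : volume (box p q) = ∏ i, ENNReal.ofReal (q i - p i) :=
  Real.volume_pi_Ico

theorem volume_box_lt_top (p q : ι → ℝ) : volume (box p q) < ⊤ := by
  rw [volume_box]
  exact ENNReal.prod_lt_top (fun i _ => ENNReal.ofReal_lt_top)

theorem volume_box_le (p q : ι → ℝ) (h1 : ∀ i, q i - p i ≤ 1) : volume (box p q) ≤ 1 := by
  rw [volume_box]
  apply Finset.prod_le_one'
  intro i _
  exact ENNReal.ofReal_le_one.mpr (h1 i)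

theorem integrableOn_of_bound {F : (ι → ℝ) → X} (hF : Continuous F) {B : ℝ}
    (hB : ∀ t, ‖F t‖ ≤ B) {S : Set (ι → ℝ)} (hS : volume S < ⊤) : IntegrableOn F S := by
  haveI : IsFiniteMeasure (volume.restrict S) := ⟨by simpa using hS⟩
  exact Integrable.of_bound hF.aestronglyMeasurable B (Filter.Eventually.of_forall hB)

theorem transl {F : (ι → ℝ) → X} (hF : Continuous F) {B : ℝ} (hB : ∀ t, ‖F t‖ ≤ B)
    {p q : ι → ℝ} (h1 : ∀ i, q i - p i ≤ 1) (κ : ι) {h : ℝ} (hh : 0 ≤ h) :
    ‖∫ t in box p q, (F (t + Pi.single κ h) - F t)‖ ≤ 2 * h * B := by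
  set w : ι → ℝ := Pi.single κ h with hw
  have hB0 : 0 ≤ B := (norm_nonneg _).trans (hB 0)
  have hwκ : w κ = h := by simp [hw]
  have hwi : ∀ i, i ≠ κ → w i = 0 := by intro i hi; simp [hw, hi]
  have hw0 : ∀ i, 0 ≤ w i := by
    intro i
    by_cases hi : i = κ
    · subst hi; rw [hwκ]; exact hh
    · rw [hwi i hi]
  -- translation
  have e1 : ∫ t in box p q, F (t + w) = ∫ t in box (p + w) (q + w), F t := by
    have := (measurePreserving_add_right (volume : Measure (ι → ℝ)) w).setIntegral_preimage_emb
      (measurableEmbedding_addRight w) F (box (p + w) (q + w))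
    rw [← this]
    congr 2
    ext t
    simp only [mem_box, Set.mem_preimage, Pi.add_apply, add_le_add_iff_right, add_lt_add_iff_right]
  have i1 : IntegrableOn F (box p q) := integrableOn_of_bound hF hB (volume_box_lt_top _ _)
  have i2 : IntegrableOn F (box (p + w) (q + w)) :=
    integrableOn_of_bound hF hB (volume_box_lt_top _ _)
  have i3 : IntegrableOn (fun t => F (t + w)) (box p q) :=
    integrableOn_of_bound (hF.comp (continuous_id.add continuous_const)) (fun t => hB _)
      (volume_box_lt_top _ _)
  rw [integral_sub i3 i1, e1]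
  have s1 := integral_inter_add_diff (measurableSet_box p q) i2
  have s2 := integral_inter_add_diff (measurableSet_box (p + w) (q + w)) i1
  rw [← s1, ← s2]
  rw [Set.inter_comm (box p q)]
  rw [add_sub_add_left_eq_sub]
  -- volumes
  have aux : ∀ (p' q' : ι → ℝ), (∀ i, i ≠ κ → q' i - p' i ≤ 1) → q' κ - p' κ = h →
      volume (box p' q') ≤ ENNReal.ofReal h := by
    intro p' q' h1' h2'
    rw [volume_box, ← Finset.mul_prod_erase Finset.univ _ (Finset.mem_univ κ), h2']
    calc ENNReal.ofReal h * ∏ x ∈ Finset.univ.erase κ, ENNReal.ofReal (q' x - p' x)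
        ≤ ENNReal.ofReal h * 1 := by
          apply mul_le_mul_right
          apply Finset.prod_le_one'
          intro i hi
          exact ENNReal.ofReal_le_one.mpr (h1' i (Finset.ne_of_mem_erase hi))
      _ = ENNReal.ofReal h := mul_one _
  have v1 : volume (box (p + w) (q + w) \ box p q) ≤ ENNReal.ofReal h := by
    refine (measure_mono ?_).trans (aux (Function.update p κ (q κ)) (Function.update q κ (q κ + h))
      ?_ ?_)
    · rintro t ⟨ht1, ht2⟩
      rw [mem_box] at ht1 ht2 ⊢
      have hκ : q κ ≤ t κ := by
        by_contra hcon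
        apply ht2
        intro i
        by_cases hi : i = κ
        · subst hi
          refine ⟨?_, not_le.mp hcon⟩
          have := (ht1 i).1
          simp only [Pi.add_apply] at this
          linarith [hw0 i]
        · have := ht1 i
          simp only [Pi.add_apply, hwi i hi, add_zero] at this
          exact this
      intro i
      by_cases hi : i = κ
      · subst hi
        simp only [Function.update_self]
        refine ⟨hκ, ?_⟩
        have := (ht1 i).2
        simp only [Pi.add_apply, hwκ] at this
        exact this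
      · rw [Function.update_of_ne hi, Function.update_of_ne hi]
        have := ht1 i
        simp only [Pi.add_apply, hwi i hi, add_zero] at this
        exact this
    · intro i hi
      rw [Function.update_of_ne hi, Function.update_of_ne hi]
      exact h1 i
    · simp
  have v2 : volume (box p q \ box (p + w) (q + w)) ≤ ENNReal.ofReal h := by
    refine (measure_mono ?_).trans (aux p (Function.update q κ (p κ + h))
      ?_ ?_)
    · rintro t ⟨ht1, ht2⟩
      rw [mem_box] at ht1 ht2 ⊢
      have hκ : t κ < p κ + h := by
        by_contra hcon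
        apply ht2
        intro i
        by_cases hi : i = κ
        · subst hi
          simp only [Pi.add_apply, hwκ]
          refine ⟨not_lt.mp hcon, ?_⟩
          have := (ht1 i).2
          linarith
        · simp only [Pi.add_apply, hwi i hi, add_zero]
          exact ht1 i
      intro i
      by_cases hi : i = κ
      · subst hi
        simp only [Function.update_self]
        exact ⟨(ht1 i).1, hκ⟩
      · rw [Function.update_of_ne hi]
        exact ht1 i
    · intro i hi
      rw [Function.update_of_ne hi]
      exact h1 i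
    · simp
  have n1 : ‖∫ t in box (p + w) (q + w) \ box p q, F t‖ ≤ B * h := by
    refine (norm_setIntegral_le_of_norm_le_const (v1.trans_lt ENNReal.ofReal_lt_top)
      (fun t _ => hB t)).trans ?_
    apply mul_le_mul_of_nonneg_left _ hB0
    exact ENNReal.toReal_le_of_le_ofReal hh v1
  have n2 : ‖∫ t in box p q \ box (p + w) (q + w), F t‖ ≤ B * h := by
    refine (norm_setIntegral_le_of_norm_le_const (v2.trans_lt ENNReal.ofReal_lt_top)
      (fun t _ => hB t)).trans ?_
    apply mul_le_mul_of_nonneg_left _ hB0
    exact ENNReal.toReal_le_of_le_ofReal hh v2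
  calc _ ≤ ‖∫ t in box (p + w) (q + w) \ box p q, F t‖ + ‖∫ t in box p q \ box (p + w) (q + w), F t‖ :=
        norm_sub_le _ _
    _ ≤ 2 * h * B := by linarith

end

end Pool.Agent.Helper51.FreeL1
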