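import Mathlib

open scoped ENNReal

namespace Pool.Agent.Helper51.Gur

universe u

/-- Index tree: base points indexed by `I`, and nodes carrying a finite rational combination of
previously constructed nodes, with a multiplicity label. -/
inductive Node (I : Type u) : Type u
  | base : I → Node I
  | comb : (n : ℕ) → (Fin n → ℚ) → (Fin n → Node I) → ℕ → Node I

variable {I : Type u}

/-- normalised coefficients: equal to `q` if the `ℓ₁`-norm of `q` is at most one, else zero. -/
noncomputable def wt {n : ℕ} (q : Fin n → ℚ) (j : Fin n) : ℝ :=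
  if ∑ i, |(q i : ℝ)| ≤ 1 then (q j : ℝ) else 0

lemma wt_sum {n : ℕ} (q : Fin n → ℚ) : ∑ j, |wt q j| ≤ 1 := by
  unfold wt
  split_ifs with h
  · exact h
  · simp

/-- The functional attached to a node. -/
noncomputable def phi (x : Node I → ℝ) : Node I → ℝ
  | .base _ => 0
  | .comb _ q f _ => ∑ j, wt q j * x (f j)

/-- Solution of `x = y + phi x`. -/
noncomputable def solve (y : Node I → ℝ) : Node I → ℝ
  | .base i => y (.base i)
  | .comb n q f c => y (.comb n q f c) + ∑ j, wt q j * solve y (f j)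

lemma solve_eq (y : Node I → ℝ) (b : Node I) : solve y b = y b + phi (solve y) b := by
  cases b with
  | base i => simp [solve, phi]
  | comb n q f c => simp [solve, phi]

lemma phi_add (x x' : Node I → ℝ) (b : Node I) : phi (x + x') b = phi x b + phi x' b := by
  cases b with
  | base i => simp [phi]
  | comb n q f c => simp [phi, mul_add, Finset.sum_add_distrib]

lemma phi_smul (c : ℝ) (x : Node I → ℝ) (b : Node I) : phi (c • x) b = c * phi x b := by
  cases b with
  | base i => simp [phi]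
  | comb n q f c' =>
    simp only [phi, Pi.smul_apply, smul_eq_mul, Finset.mul_sum]
    refine Finset.sum_congr rfl fun j _ => ?_
    ring

lemma solve_add (y y' : Node I → ℝ) : solve (y + y') = solve y + solve y' := by
  funext b
  induction b with
  | base i => simp [solve]
  | comb n q f c ih =>
    simp only [solve, Pi.add_apply]
    simp only [ih, Pi.add_apply, mul_add, Finset.sum_add_distrib]
    ring

lemma solve_smul (a : ℝ) (y : Node I → ℝ) : solve (a • y) = a • solve y := by
  funext b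
  induction b with
  | base i => simp [solve]
  | comb n q f c ih =>
    simp only [solve, Pi.smul_apply, smul_eq_mul]
    simp only [ih, Pi.smul_apply, smul_eq_mul, mul_add, Finset.mul_sum]
    congr 1
    refine Finset.sum_congr rfl fun j _ => ?_
    ring

lemma wt_bound {n : ℕ} (q : Fin n → ℚ) (x : Fin n → ℝ) {M : ℝ} (hM : 0 ≤ M)
    (h : ∀ j, |x j| ≤ M) : |∑ j, wt q j * x j| ≤ M := by
  calc |∑ j, wt q j * x j| ≤ ∑ j, |wt q j * x j| := Finset.abs_sum_le_sum_abs _ _
    _ ≤ ∑ j, |wt q j| * M := by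
        refine Finset.sum_le_sum fun j _ => ?_
        rw [abs_mul]
        exact mul_le_mul_of_nonneg_left (h j) (abs_nonneg _)
    _ = (∑ j, |wt q j|) * M := by rw [Finset.sum_mul]
    _ ≤ 1 * M := mul_le_mul_of_nonneg_right (wt_sum q) hM
    _ = M := one_mul M

/-- Rank of a node. -/
def rank : Node I → ℕ
  | .base _ => 0
  | .comb _ _ f _ => (Finset.univ.sup fun j => rank (f j)) + 1

lemma rank_lt {n : ℕ} (q : Fin n → ℚ) (f : Fin n → Node I) (c : ℕ) (j : Fin n) :
    rank (f j) + 1 ≤ rank (Node.comb n q f c) := by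
  simp only [rank]
  have := Finset.le_sup (f := fun j => rank (f j)) (Finset.mem_univ j)
  simpa using this

lemma solve_bound {y : Node I → ℝ} {C : ℝ} (hC : 0 ≤ C)
    (h : ∀ b, |y b| ≤ C * (1 / 2) ^ rank b) (b : Node I) :
    |solve y b| ≤ C * (2 - (1 / 2) ^ rank b) := by
  induction b with
  | base i =>
    have := h (.base i)
    simp only [rank, solve] at this ⊢
    linarith
  | comb n q f c ih =>
    have h1 := h (.comb n q f c)
    simp only [solve]
    set r := rank (Node.comb n q f c) with hr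
    have hr1 : 1 ≤ r := by rw [hr]; simp [rank]
    have hhalf : (1 / 2 : ℝ) ^ (r - 1) = 2 * (1 / 2) ^ r := by
      obtain ⟨k, hk⟩ := Nat.exists_eq_add_of_le hr1
      rw [hk, Nat.add_sub_cancel_left, pow_add]
      ring
    have h2 : |∑ j, wt q j * solve y (f j)| ≤ C * (2 - (1 / 2) ^ (r - 1)) := by
      apply wt_bound
      · have : (1 / 2 : ℝ) ^ (r - 1) ≤ 1 := pow_le_one₀ (by norm_num) (by norm_num)
        apply mul_nonneg hC
        linarith
      · intro j
        refine (ih j).trans ?_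
        apply mul_le_mul_of_nonneg_left _ hC
        have h3 : rank (f j) ≤ r - 1 := by
          have := rank_lt q f c j
          omega
        have h4 : (1 / 2 : ℝ) ^ (r - 1) ≤ (1 / 2) ^ rank (f j) :=
          pow_le_pow_of_le_one (by norm_num) (by norm_num) h3
        linarith
    have h3 := abs_add_le (y (.comb n q f c)) (∑ j, wt q j * solve y (f j))
    rw [hhalf] at h2
    nlinarith

/-- solution vectors for finitely supported data are bounded. -/
lemma solve_memlp (y : Node I →₀ ℝ) : Memℓp (fun b : Node I => solve (fun a => y a) b) ∞ := by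
  classical
  obtain ⟨C, hC0, hC⟩ : ∃ C : ℝ, 0 ≤ C ∧ ∀ b, |y b| ≤ C * (1 / 2) ^ rank b := by
    refine ⟨∑ b ∈ y.support, |y b| * 2 ^ rank b, by positivity, fun b => ?_⟩
    by_cases hb : b ∈ y.support
    · have h1 : |y b| * 2 ^ rank b ≤ ∑ b ∈ y.support, |y b| * 2 ^ rank b :=
        Finset.single_le_sum (f := fun b => |y b| * 2 ^ rank b) (fun a _ => by positivity) hb
      calc |y b| = |y b| * 2 ^ rank b * (1 / 2) ^ rank b := by
            rw [mul_assoc, ← mul_pow]; norm_num
        _ ≤ _ := mul_le_mul_of_nonneg_right h1 (by positivity)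
    · rw [Finsupp.notMem_support_iff.mp hb, abs_zero]
      positivity
  apply memℓp_infty
  refine ⟨C * 2, ?_⟩
  rintro _ ⟨b, rfl⟩
  have := solve_bound hC0 hC b
  simp only [Real.norm_eq_abs]
  refine this.trans (mul_le_mul_of_nonneg_left ?_ hC0)
  have : (0 : ℝ) ≤ (1 / 2) ^ rank b := by positivity
  linarith

/-- The ambient space. -/
abbrev Amb (I : Type u) := lp (fun _ : Node I => ℝ) ∞

/-- The solution operator into `ℓ_∞`. -/
noncomputable def Sl (I : Type u) : (Node I →₀ ℝ) →ₗ[ℝ] Amb I where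
  toFun y := ⟨fun b => solve (fun a => y a) b, solve_memlp y⟩
  map_add' y y' := by
    apply lp.ext
    funext b
    change solve (fun a => (y + y') a) b = solve (fun a => y a) b + solve (fun a => y' a) b
    exact congrFun (solve_add (fun a => y a) (fun a => y' a)) b
  map_smul' c y := by
    apply lp.ext
    funext b
    change solve (fun a => (c • y) a) b = c * solve (fun a => y a) b
    exact congrFun (solve_smul c (fun a => y a)) b

lemma Sl_apply (y : Node I →₀ ℝ) (b : Node I) : (Sl I y : Node I → ℝ) b = solve (fun a => y a) b := rfl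

/-- A finite set of nodes closed under passing to the nodes used in its combinations. -/
def Closed (F : Finset (Node I)) : Prop :=
  ∀ n q f c, Node.comb n q f c ∈ F → ∀ j : Fin n, f j ∈ F

lemma exists_closed_mem (b : Node I) : ∃ F : Finset (Node I), b ∈ F ∧ Closed F := by
  classical
  induction b with
  | base i =>
    refine ⟨{.base i}, by simp, ?_⟩
    intro n q f c h
    simp at h
  | comb n q f c ih =>
    choose G hG1 hG2 using ih
    refine ⟨insert (.comb n q f c) (Finset.univ.biUnion G), by simp, ?_⟩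
    intro n' q' f' c' h j
    rw [Finset.mem_insert] at h
    rcases h with h | h
    · injection h with h1 h2 h3 h4
      subst h1
      have h3' := eq_of_heq h3
      subst h3'
      apply Finset.mem_insert_of_mem
      rw [Finset.mem_biUnion]
      exact ⟨j, Finset.mem_univ j, hG1 j⟩
    · rw [Finset.mem_biUnion] at h
      obtain ⟨k, _, hk⟩ := h
      apply Finset.mem_insert_of_mem
      rw [Finset.mem_biUnion]
      exact ⟨k, Finset.mem_univ k, hG2 k _ _ _ _ hk j⟩

lemma exists_closed_superset (G : Finset (Node I)) : ∃ F : Finset (Node I), G ⊆ F ∧ Closed F := by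
  classical
  choose H hH1 hH2 using (exists_closed_mem (I := I))
  refine ⟨G.biUnion H, fun b hb => Finset.mem_biUnion.mpr ⟨b, hb, hH1 b⟩, ?_⟩
  intro n q f c h j
  rw [Finset.mem_biUnion] at h ⊢
  obtain ⟨k, hk1, hk2⟩ := h
  exact ⟨k, hk1, hH2 k _ _ _ _ hk2 j⟩

open Classical in
/-- The data (finitely supported on `F`) whose solution takes the values `z` on `F`. -/
noncomputable def prj (F : Finset (Node I)) : (Node I → ℝ) →ₗ[ℝ] (Node I →₀ ℝ) where
  toFun z := Finsupp.onFinset F (fun b => if b ∈ F then z b - phi z b else 0) (by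
    intro a ha
    by_contra h
    simp [h] at ha)
  map_add' z z' := by
    ext b
    simp only [Finsupp.onFinset_apply, Finsupp.add_apply, phi_add, Pi.add_apply]
    split_ifs <;> ring
  map_smul' c z := by
    ext b
    simp only [Finsupp.onFinset_apply, Finsupp.smul_apply, phi_smul, Pi.smul_apply, smul_eq_mul,
      RingHom.id_apply]
    split_ifs <;> ring

lemma prj_mem {F : Finset (Node I)} {z : Node I → ℝ} {b : Node I} (hb : b ∈ F) :
    prj F z b = z b - phi z b := by
  classical
  simp [prj, hb]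

lemma prj_notMem {F : Finset (Node I)} {z : Node I → ℝ} {b : Node I} (hb : b ∉ F) :
    prj F z b = 0 := by
  classical
  simp [prj, hb]

/-- The norm one operator. -/
noncomputable def RR (F : Finset (Node I)) : (Node I → ℝ) →ₗ[ℝ] Amb I := (Sl I).comp (prj F)

lemma RR_eq_solve (F : Finset (Node I)) (z : Node I → ℝ) (b : Node I) :
    (RR F z : Node I → ℝ) b = solve (fun a => prj F z a) b := rfl

lemma RR_apply {F : Finset (Node I)} (hF : Closed F) (z : Node I → ℝ) {b : Node I} (hb : b ∈ F) :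
    (RR F z : Node I → ℝ) b = z b := by
  induction b with
  | base i =>
    rw [RR_eq_solve, solve, prj_mem hb]
    simp [phi]
  | comb n q f c ih =>
    rw [RR_eq_solve, solve, prj_mem hb]
    have h1 : ∀ j, solve (fun a => prj F z a) (f j) = z (f j) := fun j => by
      have := ih j (hF _ _ _ _ hb j)
      rwa [RR_eq_solve] at this
    simp only [h1, phi]
    ring

lemma RR_norm_le {F : Finset (Node I)} (hF : Closed F) (z : Node I → ℝ) {M : ℝ} (hM : 0 ≤ M)
    (h : ∀ b ∈ F, |z b| ≤ M) : ‖RR F z‖ ≤ M := by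
  apply lp.norm_le_of_forall_le hM
  intro b
  rw [Real.norm_eq_abs]
  induction b with
  | base i =>
    by_cases hb : Node.base i ∈ F
    · rw [RR_apply hF z hb]
      exact h _ hb
    · rw [RR_eq_solve, solve, prj_notMem hb, abs_zero]
      exact hM
  | comb n q f c ih =>
    by_cases hb : Node.comb n q f c ∈ F
    · rw [RR_apply hF z hb]
      exact h _ hb
    · rw [RR_eq_solve, solve, prj_notMem hb, zero_add]
      apply wt_bound q _ hM
      intro j
      have := ih j
      rwa [RR_eq_solve] at this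

lemma RR_of_Sl {F : Finset (Node I)} {y : Node I →₀ ℝ} (hy : y.support ⊆ F) :
    RR F (Sl I y : Node I → ℝ) = Sl I y := by
  unfold RR
  rw [LinearMap.comp_apply]
  congr 1
  ext b
  by_cases hb : b ∈ F
  · rw [prj_mem hb, Sl_apply, solve_eq]
    have : phi (↑((Sl I) y) : Node I → ℝ) b = phi (solve fun a => y a) b := rfl
    rw [this]
    ring
  · rw [prj_notMem hb]
    have : b ∉ y.support := fun h => hb (hy h)
    rw [Finsupp.notMem_support_iff.mp this]

/-- outside of `F`, the value at a combination node is given by the functional. -/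
lemma RR_comb {F : Finset (Node I)} (z : Node I → ℝ) {n : ℕ} {q : Fin n → ℚ} {f : Fin n → Node I}
    {c : ℕ} (hb : Node.comb n q f c ∉ F) :
    (RR F z : Node I → ℝ) (Node.comb n q f c) = ∑ j, wt q j * (RR F z : Node I → ℝ) (f j) := by
  rw [RR_eq_solve, solve, prj_notMem hb, zero_add]
  rfl

/-- The space `E`. -/
noncomputable def EE (I : Type u) : Submodule ℝ (Amb I) := (LinearMap.range (Sl I)).topologicalClosure

/-- generator -/
noncomputable def gen (b : Node I) : EE I :=
  ⟨Sl I (Finsupp.single b 1), Submodule.le_topologicalClosure _ ⟨_, rfl⟩⟩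

lemma Sl_mem (y : Node I →₀ ℝ) : Sl I y ∈ EE I := Submodule.le_topologicalClosure _ ⟨_, rfl⟩

/-- `R_F` with values in `E`. -/
noncomputable def RE (F : Finset (Node I)) : (Node I → ℝ) →ₗ[ℝ] EE I :=
  LinearMap.codRestrict (EE I) (RR F) (fun z => Sl_mem _)

lemma RE_coe (F : Finset (Node I)) (z : Node I → ℝ) : ((RE F z : EE I) : Amb I) = RR F z := rfl

/-- coordinate functional -/
noncomputable def coord (b : Node I) : EE I →ₗ[ℝ] ℝ where
  toFun x := ((x : Amb I) : Node I → ℝ) b
  map_add' x y := by simp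
  map_smul' c x := by simp

lemma coord_le (b : Node I) (x : EE I) : |coord b x| ≤ ‖x‖ := by
  have := lp.norm_apply_le_norm (p := ∞) (by simp) (x : Amb I) b
  rw [Real.norm_eq_abs] at this
  exact this

/-- the coordinates of `x`. -/
noncomputable def crd : EE I →ₗ[ℝ] (Node I → ℝ) := LinearMap.pi coord

lemma crd_apply (x : EE I) (b : Node I) : crd x b = coord b x := rfl

lemma RE_norm_le {F : Finset (Node I)} (hF : Closed F) (z : Node I → ℝ) {M : ℝ} (hM : 0 ≤ M)
    (h : ∀ b ∈ F, |z b| ≤ M) : ‖RE F z‖ ≤ M := RR_norm_le hF z hM h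

lemma le_RE_norm {F : Finset (Node I)} (hF : Closed F) (z : Node I → ℝ) {b : Node I} (hb : b ∈ F) :
    |z b| ≤ ‖RE F z‖ := by
  have := coord_le b (RE F z)
  have h1 : coord b (RE F z) = z b := RR_apply hF z hb
  rwa [h1] at this

lemma RE_close (x : EE I) {η : ℝ} (hη : 0 < η) :
    ∃ A : Finset (Node I), ∀ F, A ⊆ F → Closed F → ‖RE F (crd x) - x‖ ≤ η := by
  have hx : (x : Amb I) ∈ closure (LinearMap.range (Sl I) : Set (Amb I)) := x.2
  rw [Metric.mem_closure_iff] at hx
  obtain ⟨_, ⟨y, rfl⟩, hy⟩ := hx (η / 2) (by positivity)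
  refine ⟨y.support, fun F hAF hF => ?_⟩
  set d : EE I := ⟨Sl I y, Sl_mem y⟩ with hd
  have h1 : ‖x - d‖ ≤ η / 2 := by
    have : ‖x - d‖ = dist (x : Amb I) (Sl I y) := by
      rw [dist_eq_norm]; rfl
    rw [this]
    exact hy.le
  have h2 : RE F (crd d) = d := by
    apply Subtype.ext
    exact RR_of_Sl hAF
  have h3 : ‖RE F (crd (x - d))‖ ≤ ‖x - d‖ :=
    RE_norm_le hF _ (norm_nonneg _) (fun b _ => coord_le b (x - d))
  have h4 : RE F (crd x) - x = RE F (crd (x - d)) - (x - d) := by
    rw [map_sub, map_sub, h2]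
    abel
  rw [h4]
  calc ‖RE F (crd (x - d)) - (x - d)‖ ≤ ‖RE F (crd (x - d))‖ + ‖x - d‖ := norm_sub_le _ _
    _ ≤ η := by linarith

/-! ### Weak compact generation and the WLD property -/

lemma summable_aux (φ : EE I →L[ℝ] ℝ) :
    Summable (fun b : Node I => |φ ((1 / 2 : ℝ) ^ rank b • gen b)|) := by
  classical
  apply summable_of_sum_le (c := ‖φ‖ * 2) (fun b => abs_nonneg _)
  intro B
  set s : Node I → ℝ := fun b => SignType.sign (φ ((1 / 2 : ℝ) ^ rank b • gen b)) with hs
  set y : Node I →₀ ℝ := ∑ b ∈ B, Finsupp.single b (s b * (1 / 2 : ℝ) ^ rank b) with hy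
  have h1 : (⟨Sl I y, Sl_mem y⟩ : EE I) = ∑ b ∈ B, s b • ((1 / 2 : ℝ) ^ rank b • gen b) := by
    apply Subtype.ext
    simp only [hy, map_sum]
    rw [Submodule.coe_sum]
    refine Finset.sum_congr rfl fun b _ => ?_
    have : Finsupp.single b (s b * (1 / 2 : ℝ) ^ rank b) =
        s b • ((1 / 2 : ℝ) ^ rank b • Finsupp.single b (1 : ℝ)) := by
      simp
    rw [this, map_smul, map_smul]
    rfl
  have h2 : ∑ b ∈ B, |φ ((1 / 2 : ℝ) ^ rank b • gen b)| = φ ⟨Sl I y, Sl_mem y⟩ := by
    rw [h1, map_sum]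
    refine Finset.sum_congr rfl fun b _ => ?_
    rw [map_smul φ (s b), smul_eq_mul, hs]
    exact (sign_mul_self _).symm
  have hyb : ∀ b, |y b| ≤ 1 * (1 / 2) ^ rank b := by
    intro b
    rw [hy, Finsupp.finsetSum_apply]
    have : ∀ c ∈ B, (Finsupp.single c (s c * (1 / 2 : ℝ) ^ rank c)) b =
        if b = c then s b * (1 / 2 : ℝ) ^ rank b else 0 := by
      intro c _
      rw [Finsupp.single_apply]
      by_cases hbc : c = b
      · subst hbc; simp
      · rw [if_neg hbc, if_neg (Ne.symm hbc)]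
    rw [Finset.sum_congr rfl this, Finset.sum_ite_eq]
    split_ifs
    · rw [abs_mul, abs_of_nonneg (by positivity : (0 : ℝ) ≤ (1 / 2) ^ rank b)]
      apply mul_le_mul_of_nonneg_right _ (by positivity)
      rw [hs]
      rcases lt_trichotomy (φ ((1 / 2 : ℝ) ^ rank b • gen b)) 0 with h | h | h
      · simp only [sign_neg h]; simp
      · simp only [h, sign_zero]; simp
      · simp only [sign_pos h]; simp
    · rw [abs_zero]; positivity
  have h3 : ‖(⟨Sl I y, Sl_mem y⟩ : EE I)‖ ≤ 2 := by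
    change ‖Sl I y‖ ≤ 2
    apply lp.norm_le_of_forall_le (by norm_num)
    intro b
    rw [Real.norm_eq_abs, Sl_apply]
    refine (solve_bound zero_le_one hyb b).trans ?_
    have : (0 : ℝ) ≤ (1 / 2) ^ rank b := by positivity
    linarith
  rw [h2]
  calc φ ⟨Sl I y, Sl_mem y⟩ ≤ ‖φ ⟨Sl I y, Sl_mem y⟩‖ := le_abs_self _
    _ ≤ ‖φ‖ * ‖(⟨Sl I y, Sl_mem y⟩ : EE I)‖ := φ.le_opNorm _
    _ ≤ ‖φ‖ * 2 := mul_le_mul_of_nonneg_left h3 φ.opNorm_nonneg

lemma Sl_mem_span (y : Node I →₀ ℝ) :
    (⟨Sl I y, Sl_mem y⟩ : EE I) ∈ Submodule.span ℝ (Set.range (gen (I := I))) := by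
  have h1 : (⟨Sl I y, Sl_mem y⟩ : EE I) = ∑ b ∈ y.support, y b • gen b := by
    apply Subtype.ext
    rw [Submodule.coe_sum]
    change Sl I y = _
    conv_lhs => rw [← Finsupp.sum_single y]
    rw [Finsupp.sum, map_sum]
    refine Finset.sum_congr rfl fun b _ => ?_
    have : Finsupp.single b (y b) = y b • Finsupp.single b (1 : ℝ) := by simp
    rw [this, map_smul]
    rfl
  rw [h1]
  exact Submodule.sum_mem _ fun b _ => Submodule.smul_mem _ _ (Submodule.subset_span ⟨b, rfl⟩)

lemma dense_span_gen : Dense (Submodule.span ℝ (Set.range (gen (I := I))) : Set (EE I)) := by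
  rw [Metric.dense_iff]
  intro x r hr
  have hx : (x : Amb I) ∈ closure (LinearMap.range (Sl I) : Set (Amb I)) := x.2
  rw [Metric.mem_closure_iff] at hx
  obtain ⟨_, ⟨y, rfl⟩, hy⟩ := hx r hr
  refine ⟨⟨Sl I y, Sl_mem y⟩, ?_, Sl_mem_span y⟩
  rw [Metric.mem_ball, dist_comm]
  exact hy

/-- Weakly compactly generated. -/
def IsWCG (E : Type*) [NormedAddCommGroup E] [NormedSpace ℝ E] : Prop :=
  ∃ K : Set E, IsCompact (toWeakSpace ℝ E '' K) ∧ Dense (Submodule.span ℝ K : Set E)

theorem isWCG_EE : IsWCG (EE I) := by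
  set g : Node I → EE I := fun b => (1 / 2 : ℝ) ^ rank b • gen b with hg
  refine ⟨insert 0 (Set.range g), ?_, ?_⟩
  · have h1 : toWeakSpace ℝ (EE I) '' (insert 0 (Set.range g)) =
        insert 0 (Set.range (fun b => toWeakSpace ℝ (EE I) (g b))) := by
      rw [Set.image_insert_eq, map_zero, ← Set.range_comp]
      rfl
    rw [h1]
    apply Filter.Tendsto.isCompact_insert_range_of_cofinite
    refine (WeakBilin.tendsto_iff_forall_eval_tendsto _ ?_).mpr ?_
    · intro x y h
      refine (SeparatingDual.eq_iff_forall_dual_eq (R := ℝ) (V := EE I)).mpr ?_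
      intro φ
      exact LinearMap.congr_fun h φ
    · intro φ
      have h2 : Filter.Tendsto (fun b => |φ (g b)|) Filter.cofinite (nhds 0) :=
        (summable_aux φ).tendsto_cofinite_zero
      have h3 := (tendsto_zero_iff_abs_tendsto_zero _).mpr h2
      change Filter.Tendsto (fun b => φ (g b)) Filter.cofinite (nhds (φ 0))
      rw [map_zero]
      exact h3
  · refine dense_span_gen.mono ?_
    apply Submodule.span_le.mpr
    rintro _ ⟨b, rfl⟩
    have h1 : gen b = (2 : ℝ) ^ rank b • g b := by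
      rw [hg, smul_smul, ← mul_pow]
      norm_num
    rw [h1]
    exact Submodule.smul_mem _ _ (Submodule.subset_span (Set.mem_insert_of_mem _ ⟨b, rfl⟩))

/-- Weakly Lindelof determined. -/
def IsWLD (E : Type u) [NormedAddCommGroup E] [NormedSpace ℝ E] : Prop :=
  ∃ (Γ : Type u) (T : WeakDual ℝ E →ₗ[ℝ] (Γ → ℝ)), Continuous T ∧ Function.Injective T ∧
    ∀ φ, {γ | T φ γ ≠ 0}.Countable

theorem isWLD_EE : IsWLD (EE I) := by
  refine ⟨Node I, LinearMap.pi fun b =>
    { toFun := fun φ => φ (gen b), map_add' := fun _ _ => rfl, map_smul' := fun _ _ => rfl },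
    ?_, ?_, ?_⟩
  · apply continuous_pi
    intro b
    exact WeakDual.eval_continuous (gen b)
  · intro φ ψ h
    have h1 : ∀ b, φ (gen b) = ψ (gen b) := fun b => congrFun h b
    have h2 : ∀ x ∈ Submodule.span ℝ (Set.range (gen (I := I))), φ x = ψ x := by
      intro x hx
      induction hx using Submodule.span_induction with
      | mem x hx => obtain ⟨b, rfl⟩ := hx; exact h1 b
      | zero => simp
      | add x y _ _ hx hy => rw [map_add, map_add, hx, hy]
      | smul a x _ hx => rw [map_smul, map_smul, hx]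
    have hc1 : Continuous (fun x => (φ : EE I →L[ℝ] ℝ) x) := (φ : EE I →L[ℝ] ℝ).continuous
    have hc2 : Continuous (fun x => (ψ : EE I →L[ℝ] ℝ) x) := (ψ : EE I →L[ℝ] ℝ).continuous
    have h3 := hc1.ext_on dense_span_gen hc2 h2
    apply DFunLike.ext
    intro x
    exact congrFun h3 x
  · intro φ
    have h1 := (summable_aux (φ : EE I →L[ℝ] ℝ)).countable_support
    refine h1.mono ?_
    intro b hb
    rw [Function.mem_support]
    intro h0
    apply hb
    rw [abs_eq_zero, map_smul, smul_eq_mul, mul_eq_zero] at h0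
    rcases h0 with h | h
    · exact absurd h (by positivity)
    · exact h

/-- distinct base generators are at distance at least one. -/
lemma base_separated {i j : I} (hij : i ≠ j) : 1 ≤ ‖gen (Node.base i) - gen (Node.base j)‖ := by
  have h1 := coord_le (Node.base i) (gen (Node.base i) - gen (Node.base j))
  rw [map_sub] at h1
  have h2 : coord (Node.base i) (gen (Node.base i)) = 1 := by
    have h : coord (Node.base i) (gen (Node.base i)) =
        solve (fun a => Finsupp.single (Node.base i) (1 : ℝ) a) (Node.base i) := rfl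
    rw [h]
    simp [solve]
  have h3 : coord (Node.base i) (gen (Node.base j)) = 0 := by
    have h : coord (Node.base i) (gen (Node.base j)) =
        solve (fun a => Finsupp.single (Node.base j) (1 : ℝ) a) (Node.base i) := rfl
    rw [h]
    simp [solve, hij.symm]
  rw [h2, h3] at h1
  simpa using h1

theorem not_separable_EE [Uncountable I] : ¬ TopologicalSpace.SeparableSpace (EE I) := by
  intro hsep
  have hc : Countable I := by
    apply Pairwise.countable_of_isOpen_disjoint
      (s := fun i : I => Metric.ball (gen (Node.base i)) (1 / 2))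
    · intro i j hij
      apply Metric.ball_disjoint_ball
      rw [dist_eq_norm]
      have := base_separated hij
      linarith
    · intro i
      exact Metric.isOpen_ball
    · intro i
      exact ⟨_, Metric.mem_ball_self (by norm_num)⟩
  exact not_countable hc

/-! ### The Gurarii property -/

lemma exists_rat_round (r : ℝ) {δ : ℝ} (hδ : 0 < δ) : ∃ q : ℚ, |(q : ℝ)| ≤ |r| ∧ |(q : ℝ) - r| ≤ δ := by
  rcases lt_trichotomy r 0 with h | h | h
  · obtain ⟨q, hq1, hq2⟩ := exists_rat_btwn (show r < min 0 (r + δ) by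
      rw [lt_min_iff]; constructor <;> linarith)
    rw [lt_min_iff] at hq2
    refine ⟨q, ?_, ?_⟩
    · rw [abs_of_neg hq2.1, abs_of_neg h]; linarith
    · rw [abs_le]; constructor <;> linarith [hq2.2]
  · exact ⟨0, by simp, by simp [h, hδ.le]⟩
  · obtain ⟨q, hq1, hq2⟩ := exists_rat_btwn (show max 0 (r - δ) < r by
      rw [max_lt_iff]; constructor <;> linarith)
    rw [max_lt_iff] at hq1
    refine ⟨q, ?_, ?_⟩
    · rw [abs_of_pos hq1.1, abs_of_pos h]; linarith
    · rw [abs_le]; constructor <;> linarith [hq1.2]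

lemma dual_approx {ι : Type*} [Fintype ι] {X : Type*} [NormedAddCommGroup X] [NormedSpace ℝ X]
    (J : X →ₗ[ℝ] (ι → ℝ)) {η : ℝ} (hη0 : 0 < η) (hη1 : η < 1)
    (hJ1 : ∀ x, (1 - η) * ‖x‖ ≤ ‖J x‖) (hJ2 : ∀ x, ‖J x‖ ≤ ‖x‖)
    (u : X →ₗ[ℝ] ℝ) (hu : ∀ x, |u x| ≤ ‖x‖) :
    ∃ q : ι → ℚ, ∑ i, |(q i : ℝ)| ≤ 1 ∧ ∀ x, |∑ i, (q i : ℝ) * J x i - u x| ≤ 2 * η * ‖x‖ := by
  classical
  have hinj : Function.Injective J := by
    rw [← LinearMap.ker_eq_bot, LinearMap.ker_eq_bot']
    intro x hx
    have := hJ1 x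
    rw [hx, norm_zero] at this
    have h1 : ‖x‖ ≤ 0 := by
      by_contra h
      push Not at h
      have : 0 < (1 - η) * ‖x‖ := mul_pos (by linarith) h
      linarith
    exact norm_le_zero_iff.mp h1
  set e := LinearEquiv.ofInjective J hinj with he
  set v : LinearMap.range J →ₗ[ℝ] ℝ := (1 - η) • (u.comp (e.symm : LinearMap.range J →ₗ[ℝ] X)) with hv
  have hvb : ∀ z, ‖v z‖ ≤ 1 * ‖z‖ := by
    intro z
    obtain ⟨x, rfl⟩ := e.surjective z
    rw [hv]
    simp only [LinearMap.smul_apply, LinearMap.comp_apply, LinearEquiv.coe_coe,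
      LinearEquiv.symm_apply_apply, smul_eq_mul]
    rw [norm_mul, Real.norm_eq_abs, Real.norm_eq_abs, abs_of_pos (by linarith : (0 : ℝ) < 1 - η)]
    have h1 : ‖e x‖ = ‖J x‖ := rfl
    rw [one_mul, h1]
    exact (mul_le_mul_of_nonneg_left (hu x) (by linarith)).trans (hJ1 x)
  obtain ⟨Φ, hΦ1, hΦ2⟩ := exists_extension_norm_eq (𝕜 := ℝ) (LinearMap.range J)
    (v.mkContinuous 1 hvb)
  have hΦn : ‖Φ‖ ≤ 1 := by
    rw [hΦ2]
    exact LinearMap.mkContinuous_norm_le _ zero_le_one _
  have hΦJ : ∀ x, Φ (J x) = (1 - η) * u x := by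
    intro x
    have := hΦ1 (e x)
    have h1 : ((e x : LinearMap.range J) : ι → ℝ) = J x := rfl
    rw [h1] at this
    rw [this, LinearMap.mkContinuous_apply, hv]
    simp
  set r : ι → ℝ := fun i => Φ (Pi.single i 1) with hr
  have hΦr : ∀ z : ι → ℝ, Φ z = ∑ i, r i * z i := by
    intro z
    conv_lhs => rw [← Finset.univ_sum_single z]
    rw [map_sum]
    refine Finset.sum_congr rfl fun i _ => ?_
    have : (Pi.single i (z i) : ι → ℝ) = z i • Pi.single i (1 : ℝ) := by
      rw [← Pi.single_smul]; simp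
    rw [this, map_smul, smul_eq_mul, mul_comm]
  have hrsum : ∑ i, |r i| ≤ 1 := by
    set s : ι → ℝ := fun i => SignType.sign (r i) with hs
    have h1 : Φ s = ∑ i, |r i| := by
      rw [hΦr]
      refine Finset.sum_congr rfl fun i _ => ?_
      rw [hs]
      simp only
      rw [mul_comm]
      exact sign_mul_self _
    have h2 : ‖s‖ ≤ 1 := by
      rw [pi_norm_le_iff_of_nonneg zero_le_one]
      intro i
      rw [hs, Real.norm_eq_abs]
      rcases lt_trichotomy (r i) 0 with h | h | h
      · simp only [sign_neg h]; simp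
      · simp only [h, sign_zero]; simp
      · simp only [sign_pos h]; simp
    rw [← h1]
    calc Φ s ≤ ‖Φ s‖ := le_abs_self _
      _ ≤ ‖Φ‖ * ‖s‖ := Φ.le_opNorm s
      _ ≤ 1 * 1 := mul_le_mul hΦn h2 (norm_nonneg _) zero_le_one
      _ = 1 := one_mul 1
  have hcard : (0 : ℝ) < Fintype.card ι + 1 := by positivity
  choose q hq1 hq2 using fun i => exists_rat_round (r i) (δ := η / (Fintype.card ι + 1)) (by positivity)
  refine ⟨q, (Finset.sum_le_sum fun i _ => hq1 i).trans hrsum, fun x => ?_⟩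
  have h1 : ∑ i, (q i : ℝ) * J x i - u x =
      ∑ i, ((q i : ℝ) - r i) * J x i - η * u x := by
    have := hΦJ x
    rw [hΦr] at this
    simp only [sub_mul, Finset.sum_sub_distrib]
    rw [this]
    ring
  have h2 : |∑ i, ((q i : ℝ) - r i) * J x i| ≤ η * ‖x‖ := by
    calc |∑ i, ((q i : ℝ) - r i) * J x i| ≤ ∑ i, |((q i : ℝ) - r i) * J x i| :=
          Finset.abs_sum_le_sum_abs _ _
      _ ≤ ∑ _i : ι, (η / (Fintype.card ι + 1)) * ‖x‖ := by
          refine Finset.sum_le_sum fun i _ => ?_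
          rw [abs_mul]
          apply mul_le_mul (hq2 i) _ (abs_nonneg _) (by positivity)
          have := norm_le_pi_norm (J x) i
          rw [Real.norm_eq_abs] at this
          exact this.trans (hJ2 x)
      _ = (Fintype.card ι) * ((η / (Fintype.card ι + 1)) * ‖x‖) := by
          rw [Finset.sum_const, Finset.card_univ, nsmul_eq_mul]
      _ = ((Fintype.card ι) / (Fintype.card ι + 1)) * (η * ‖x‖) := by
          field_simp
      _ ≤ 1 * (η * ‖x‖) := by
          apply mul_le_mul_of_nonneg_right _ (by positivity)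
          rw [div_le_one hcard]
          linarith
      _ = η * ‖x‖ := one_mul _
  rw [h1]
  calc |∑ i, ((q i : ℝ) - r i) * J x i - η * u x| ≤
        |∑ i, ((q i : ℝ) - r i) * J x i| + |η * u x| := abs_sub _ _
    _ ≤ η * ‖x‖ + η * ‖x‖ := by
        apply add_le_add h2
        rw [abs_mul, abs_of_pos hη0]
        exact mul_le_mul_of_nonneg_left (hu x) hη0.le
    _ = 2 * η * ‖x‖ := by ring

lemma exists_norming (Y : Type*) [NormedAddCommGroup Y] [NormedSpace ℝ Y] [FiniteDimensional ℝ Y]
    {η : ℝ} (hη : 0 < η) :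
    ∃ (N : ℕ) (u : Fin N → (Y →L[ℝ] ℝ)), (∀ k y, |u k y| ≤ ‖y‖) ∧
      ∀ y, y ≠ 0 → ∃ k, (1 - η) * ‖y‖ ≤ |u k y| := by
  have : ProperSpace Y := FiniteDimensional.proper ℝ Y
  obtain ⟨t, ht1, ht2, ht3⟩ := (isCompact_sphere (0 : Y) 1).finite_cover_balls hη
  have hdual : ∀ p : Y, ∃ g : Y →L[ℝ] ℝ, ‖g‖ ≤ 1 ∧ g p = ‖p‖ := fun p =>
    exists_dual_vector'' ℝ p
  choose G hG1 hG2 using hdual
  set T := ht2.toFinset with hT
  refine ⟨T.card, fun k => G (T.equivFin.symm k), ?_, ?_⟩
  · intro k y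
    have h1 := (G (T.equivFin.symm k)).le_opNorm y
    rw [Real.norm_eq_abs] at h1
    refine h1.trans ?_
    have := mul_le_mul_of_nonneg_right (hG1 (T.equivFin.symm k)) (norm_nonneg y)
    rwa [one_mul] at this
  · intro y hy
    have hy0 : 0 < ‖y‖ := norm_pos_iff.mpr hy
    set y' : Y := (‖y‖)⁻¹ • y with hy'
    have hn : ‖y'‖ = 1 := by
      rw [hy', norm_smul, norm_inv, norm_norm, inv_mul_cancel₀ hy0.ne']
    have hmem : y' ∈ Metric.sphere (0 : Y) 1 := by simp [hn]
    have := ht3 hmem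
    rw [Set.mem_iUnion₂] at this
    obtain ⟨p, hp, hpy⟩ := this
    have hpT : p ∈ T := by rw [hT]; simpa using hp
    refine ⟨T.equivFin ⟨p, hpT⟩, ?_⟩
    simp only [Equiv.symm_apply_apply]
    have hpn : ‖p‖ = 1 := by simpa using ht1 hp
    have h1 : |G p (y' - p)| ≤ ‖y' - p‖ := by
      have h1 := (G p).le_opNorm (y' - p)
      rw [Real.norm_eq_abs] at h1
      refine h1.trans ?_
      have := mul_le_mul_of_nonneg_right (hG1 p) (norm_nonneg (y' - p))
      rwa [one_mul] at this
    have h2 : ‖y' - p‖ < η := by rwa [Metric.mem_ball, dist_eq_norm] at hpy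
    have h3 : G p y' = 1 + G p (y' - p) := by
      rw [map_sub]
      have := hG2 p
      rw [hpn] at this
      have h4 : G p p = 1 := by simpa using this
      rw [h4]; ring
    have h4 : 1 - η ≤ |G p y'| := by
      have := neg_abs_le (G p (y' - p))
      have h5 := le_abs_self (G p y')
      linarith
    have h5 : |G p y| = ‖y‖ * |G p y'| := by
      rw [hy', map_smul, smul_eq_mul, abs_mul, abs_of_pos (inv_pos.mpr hy0)]
      field_simp
    rw [h5, mul_comm]
    exact mul_le_mul_of_nonneg_left h4 hy0.le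

lemma RE_close_fd {X : Type*} [NormedAddCommGroup X] [NormedSpace ℝ X] [FiniteDimensional ℝ X]
    (f : X →ₗ[ℝ] EE I) {η : ℝ} (hη : 0 < η) :
    ∃ A : Finset (Node I), ∀ F, A ⊆ F → Closed F → ∀ x, ‖RE F (crd (f x)) - f x‖ ≤ η * ‖x‖ := by
  classical
  set b := Module.finBasis ℝ X with hb
  set n := Module.finrank ℝ X with hn
  set T : X →L[ℝ] (Fin n → ℝ) := LinearMap.toContinuousLinearMap (b.equivFun : X →ₗ[ℝ] (Fin n → ℝ))
    with hT
  have hTb : ∀ x i, |b.repr x i| ≤ ‖T‖ * ‖x‖ := by
    intro x i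
    have h1 := norm_le_pi_norm (T x) i
    have h2 := T.le_opNorm x
    rw [Real.norm_eq_abs] at h1
    exact h1.trans h2
  set δ : ℝ := η / ((n + 1) * (‖T‖ + 1)) with hδ
  have hδ0 : 0 < δ := by
    have := norm_nonneg T
    positivity
  choose A hA using fun i => RE_close (f (b i)) hδ0
  refine ⟨Finset.univ.biUnion A, fun F hF hcl x => ?_⟩
  set L : X →ₗ[ℝ] EE I := (RE F).comp (crd.comp f) - f with hL
  have hLx : RE F (crd (f x)) - f x = L x := rfl
  rw [hLx]
  have h1 : L x = ∑ i, b.repr x i • L (b i) := by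
    conv_lhs => rw [← b.sum_repr x]
    rw [map_sum]
    simp only [map_smul]
  have h2 : ∀ i, ‖L (b i)‖ ≤ δ := fun i =>
    hA i F ((Finset.subset_biUnion_of_mem A (Finset.mem_univ i)).trans hF) hcl
  rw [h1]
  calc ‖∑ i, b.repr x i • L (b i)‖ ≤ ∑ i, ‖b.repr x i • L (b i)‖ := norm_sum_le _ _
    _ ≤ ∑ _i : Fin n, (‖T‖ * ‖x‖) * δ := by
        refine Finset.sum_le_sum fun i _ => ?_
        rw [norm_smul, Real.norm_eq_abs]
        exact mul_le_mul (hTb x i) (h2 i) (norm_nonneg _) (by positivity)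
    _ = n * ((‖T‖ * ‖x‖) * δ) := by
        rw [Finset.sum_const, Finset.card_univ, Fintype.card_fin, nsmul_eq_mul]
    _ = ((n / (n + 1)) * (‖T‖ / (‖T‖ + 1))) * (η * ‖x‖) := by
        rw [hδ]
        have h3 : (n : ℝ) + 1 ≠ 0 := by positivity
        have h4 : ‖T‖ + 1 ≠ 0 := by positivity
        field_simp
    _ ≤ 1 * (η * ‖x‖) := by
        apply mul_le_mul_of_nonneg_right _ (by positivity)
        have h3 : (n : ℝ) / (n + 1) ≤ 1 := by
          rw [div_le_one (by positivity)]; linarith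
        have h4 : ‖T‖ / (‖T‖ + 1) ≤ 1 := by
          rw [div_le_one (by positivity)]; linarith
        calc ((n : ℝ) / (n + 1)) * (‖T‖ / (‖T‖ + 1)) ≤ 1 * 1 :=
              mul_le_mul h3 h4 (by positivity) zero_le_one
          _ = 1 := one_mul 1
    _ = η * ‖x‖ := one_mul _

/-- label of a node -/
def lab : Node I → ℕ
  | .base _ => 0
  | .comb _ _ _ c => c

theorem gurarii_EE {Y : Type*} [NormedAddCommGroup Y] [NormedSpace ℝ Y] [FiniteDimensional ℝ Y]
    (X : Submodule ℝ Y) (f : X →ₗᵢ[ℝ] EE I) {ε : ℝ} (hε : 0 < ε) :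
    ∃ g : Y →ₗ[ℝ] EE I, (∀ y, (1 + ε)⁻¹ * ‖y‖ ≤ ‖g y‖ ∧ ‖g y‖ ≤ (1 + ε) * ‖y‖) ∧
      ∀ x : X, g x = f x := by
  classical
  -- projection
  obtain ⟨P0, hP0⟩ := LinearMap.exists_leftInverse_of_injective X.subtype
    (by rw [Submodule.ker_subtype])
  have hPx : ∀ x : X, P0 x = x := fun x => LinearMap.congr_fun hP0 x
  set c : ℝ := ‖LinearMap.toContinuousLinearMap P0‖ with hc
  have hc0 : 0 ≤ c := ContinuousLinearMap.opNorm_nonneg _
  have hPb : ∀ y, ‖P0 y‖ ≤ c * ‖y‖ := fun y => (LinearMap.toContinuousLinearMap P0).le_opNorm y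
  set η : ℝ := ε / ((1 + ε) * (1 + 4 * c)) with hη
  have hη0 : 0 < η := by positivity
  have hηc : η * (1 + 4 * c) = ε / (1 + ε) := by
    rw [hη]; field_simp
  have hfrac : ε / (1 + ε) < 1 := by rw [div_lt_one (by positivity)]; linarith
  have hη1 : η < 1 := by nlinarith
  -- the finite set A
  obtain ⟨A0, hA0⟩ := RE_close_fd (f : X →ₗ[ℝ] EE I) hη0
  obtain ⟨A, hA0A, hAcl⟩ := exists_closed_superset A0
  have hAclose : ∀ x : X, ‖RE A (crd (f x)) - f x‖ ≤ η * ‖x‖ := hA0 A hA0A hAcl
  -- J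
  set J : X →ₗ[ℝ] (↥A → ℝ) :=
    LinearMap.pi (fun a : A => (coord (a : Node I)).comp (f : X →ₗ[ℝ] EE I)) with hJ
  have hJ2 : ∀ x, ‖J x‖ ≤ ‖x‖ := by
    intro x
    rw [pi_norm_le_iff_of_nonneg (norm_nonneg _)]
    intro a
    have := coord_le (a : Node I) (f x)
    rw [f.norm_map] at this
    exact this
  have hJ1 : ∀ x, (1 - η) * ‖x‖ ≤ ‖J x‖ := by
    intro x
    have h1 : ‖RE A (crd (f x))‖ ≤ ‖J x‖ := by
      apply RE_norm_le hAcl _ (norm_nonneg _)
      intro b hb
      exact norm_le_pi_norm (J x) ⟨b, hb⟩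
    have h2 := hAclose x
    have h3 : ‖f x‖ - ‖RE A (crd (f x))‖ ≤ ‖RE A (crd (f x)) - f x‖ := by
      rw [norm_sub_rev]
      exact norm_sub_norm_le _ _
    rw [f.norm_map] at h3
    linarith
  -- norming functionals
  obtain ⟨N, u, hu1, hu2⟩ := exists_norming Y hη0
  have hq : ∀ k, ∃ q : A → ℚ, ∑ i, |(q i : ℝ)| ≤ 1 ∧
      ∀ x : X, |∑ i, (q i : ℝ) * J x i - u k x| ≤ 2 * η * ‖x‖ := by
    intro k
    exact dual_approx J hη0 hη1 hJ1 hJ2 ((u k : Y →ₗ[ℝ] ℝ).comp X.subtype) (fun x => hu1 k x)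
  choose q hq1 hq2 using hq
  -- new nodes
  set e := A.equivFin.symm with he
  set M : ℕ := A.sup lab + 1 with hM
  set nd : Fin N → Node I := fun k =>
    Node.comb A.card (fun j => q k (e j)) (fun j => ((e j : A) : Node I)) (M + k) with hnd
  have hndA : ∀ k, nd k ∉ A := by
    intro k hk
    have h1 : lab (nd k) ≤ A.sup lab := Finset.le_sup (f := lab) hk
    have h2 : lab (nd k) = M + k := rfl
    omega
  have hndinj : Function.Injective nd := by
    intro k k' h
    have h1 : lab (nd k) = lab (nd k') := by rw [h]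
    have h2 : M + (k : ℕ) = M + (k' : ℕ) := h1
    exact Fin.ext (by omega)
  set F : Finset (Node I) := A ∪ Finset.univ.image nd with hF
  have hAF : A ⊆ F := Finset.subset_union_left
  have hndF : ∀ k, nd k ∈ F := fun k =>
    Finset.mem_union_right _ (Finset.mem_image_of_mem _ (Finset.mem_univ k))
  have hFcl : Closed F := by
    intro n' q' f' c' h j
    rw [hF, Finset.mem_union] at h
    rcases h with h | h
    · exact hAF (hAcl _ _ _ _ h j)
    · rw [Finset.mem_image] at h
      obtain ⟨k, _, hk⟩ := h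
      simp only [hnd] at hk
      injection hk with h1 h2 h3 h4
      subst h1
      have h3' := eq_of_heq h3
      subst h3'
      exact hAF (e j).2
  -- value at new nodes
  have hval : ∀ k (x : X), |crd (f x) (nd k) - u k x| ≤ 3 * η * ‖x‖ := by
    intro k x
    have h1 : |crd (f x) (nd k) - crd (RE A (crd (f x))) (nd k)| ≤ η * ‖x‖ := by
      have h2 := coord_le (nd k) (f x - RE A (crd (f x)))
      rw [map_sub, norm_sub_rev] at h2
      exact h2.trans (hAclose x)
    have h2 : crd (RE A (crd (f x))) (nd k) = ∑ i : A, (q k i : ℝ) * J x i := by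
      have h3 : crd (RE A (crd (f x))) (nd k) =
          ∑ j, wt (fun j => q k (e j)) j * (RR A (crd (f x)) : Node I → ℝ) ((e j : A) : Node I) :=
        RR_comb (crd (f x)) (hndA k)
      rw [h3, ← e.sum_comp]
      refine Finset.sum_congr rfl fun j _ => ?_
      rw [RR_apply hAcl _ (e j).2]
      have h4 : wt (fun j => q k (e j)) j = (q k (e j) : ℝ) := by
        unfold wt
        rw [if_pos]
        have := hq1 k
        rwa [← e.sum_comp] at this
      rw [h4]
      rfl
    rw [h2] at h1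
    have h3 := hq2 k x
    calc |crd (f x) (nd k) - u k x| =
          |(crd (f x) (nd k) - ∑ i : A, (q k i : ℝ) * J x i) +
            (∑ i : A, (q k i : ℝ) * J x i - u k x)| := by ring_nf
      _ ≤ |crd (f x) (nd k) - ∑ i : A, (q k i : ℝ) * J x i| +
            |∑ i : A, (q k i : ℝ) * J x i - u k x| := abs_add_le _ _
      _ ≤ 3 * η * ‖x‖ := by linarith
  -- functionals on Y
  have hζ : ∀ b : Node I, ∃ ζ : Y →ₗ[ℝ] ℝ, (∀ x : X, ζ x = crd (f x) b) ∧
      (∀ y, |ζ y| ≤ (1 + 3 * η * c) * ‖y‖) ∧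
      (∀ k, b = nd k → ∀ y, |ζ y - u k y| ≤ 3 * η * c * ‖y‖) := by
    intro b
    by_cases hb : ∃ k, b = nd k
    · obtain ⟨k, rfl⟩ := hb
      have hdiff : ∀ y, |(u k y + (crd (f (P0 y)) (nd k) - u k (P0 y))) - u k y| ≤
          3 * η * c * ‖y‖ := by
        intro y
        have h1 := hval k (P0 y)
        have h2 := hPb y
        rw [add_sub_cancel_left]
        refine h1.trans ?_
        calc 3 * η * ‖P0 y‖ ≤ 3 * η * (c * ‖y‖) :=
              mul_le_mul_of_nonneg_left h2 (by positivity)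
          _ = 3 * η * c * ‖y‖ := by ring
      refine ⟨(u k : Y →ₗ[ℝ] ℝ) + ((coord (nd k)).comp ((f : X →ₗ[ℝ] EE I).comp P0) -
        (u k : Y →ₗ[ℝ] ℝ).comp (X.subtype.comp P0)), ?_, ?_, ?_⟩
      · intro x
        change u k x + (crd (f (P0 x)) (nd k) - u k (P0 x)) = _
        rw [hPx]
        ring
      · intro y
        change |u k y + (crd (f (P0 y)) (nd k) - u k (P0 y))| ≤ _
        have h1 := hdiff y
        have h2 := hu1 k y
        rw [abs_le] at h1 h2 ⊢
        constructor <;> nlinarith [h1.1, h1.2, h2.1, h2.2]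
      · intro k' hk' y
        have : k = k' := hndinj hk'
        subst this
        exact hdiff y
    · have hbd : ∀ x : X, ‖((coord b).comp (f : X →ₗ[ℝ] EE I)) x‖ ≤ 1 * ‖x‖ := by
        intro x
        have := coord_le b (f x)
        rw [f.norm_map] at this
        rw [one_mul]
        exact this
      obtain ⟨Z, hZ1, hZ2⟩ := exists_extension_norm_eq (𝕜 := ℝ) X
        (((coord b).comp (f : X →ₗ[ℝ] EE I)).mkContinuous 1 hbd)
      refine ⟨(Z : Y →ₗ[ℝ] ℝ), fun x => hZ1 x, ?_, ?_⟩
      · intro y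
        have h1 := Z.le_opNorm y
        rw [Real.norm_eq_abs] at h1
        have h2 : ‖Z‖ ≤ 1 := by
          rw [hZ2]
          exact LinearMap.mkContinuous_norm_le _ zero_le_one _
        have h3 : ‖Z‖ * ‖y‖ ≤ 1 * ‖y‖ := mul_le_mul_of_nonneg_right h2 (norm_nonneg _)
        have h4 : 0 ≤ 3 * η * c * ‖y‖ := by positivity
        have h5 : |(Z : Y →ₗ[ℝ] ℝ) y| = |Z y| := rfl
        rw [h5]
        linarith
      · intro k hk
        exact absurd ⟨k, hk⟩ hb
  choose ζ hζ1 hζ2 hζ3 using hζ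
  set w : Y →ₗ[ℝ] (Node I → ℝ) :=
    LinearMap.pi (fun b => ζ b - (coord b).comp ((f : X →ₗ[ℝ] EE I).comp P0)) with hw
  have hwy : ∀ y, w y = (fun b => ζ b y) - crd (f (P0 y)) := fun y => rfl
  refine ⟨(f : X →ₗ[ℝ] EE I).comp P0 + (RE F).comp w, ?_, ?_⟩
  · intro y
    change (1 + ε)⁻¹ * ‖y‖ ≤ ‖f (P0 y) + RE F (w y)‖ ∧ ‖f (P0 y) + RE F (w y)‖ ≤ (1 + ε) * ‖y‖
    have hg : f (P0 y) + RE F (w y) =
        RE F (fun b => ζ b y) - (RE F (crd (f (P0 y))) - f (P0 y)) := by
      rw [hwy, map_sub]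
      abel
    have herr : ‖RE F (crd (f (P0 y))) - f (P0 y)‖ ≤ η * c * ‖y‖ := by
      refine (hA0 F (hA0A.trans hAF) hFcl (P0 y)).trans ?_
      calc η * ‖P0 y‖ ≤ η * (c * ‖y‖) := mul_le_mul_of_nonneg_left (hPb y) hη0.le
        _ = η * c * ‖y‖ := by ring
    rw [hg]
    constructor
    · by_cases hy : y = 0
      · simp [hy]
      obtain ⟨k, hk⟩ := hu2 y hy
      have h1 := le_RE_norm hFcl (fun b => ζ b y) (hndF k)
      have h2 := hζ3 (nd k) k rfl y
      have h3 : |u k y| - |ζ (nd k) y| ≤ |ζ (nd k) y - u k y| := by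
        rw [abs_sub_comm]
        exact abs_sub_abs_le_abs_sub _ _
      have h4 := norm_sub_norm_le (RE F (fun b => ζ b y)) (RE F (crd (f (P0 y))) - f (P0 y))
      have h5 : (1 + ε)⁻¹ = 1 - η * (1 + 4 * c) := by
        rw [hηc]; field_simp; ring
      rw [h5]
      nlinarith
    · have h1 : ‖RE F (fun b => ζ b y)‖ ≤ (1 + 3 * η * c) * ‖y‖ :=
        RE_norm_le hFcl _ (by positivity) (fun b _ => hζ2 b y)
      have h2 := norm_sub_le (RE F (fun b => ζ b y)) (RE F (crd (f (P0 y))) - f (P0 y))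
      have h3 : η * (1 + 4 * c) ≤ ε := by
        rw [hηc, div_le_iff₀ (by positivity)]
        nlinarith
      have h4 : 4 * η * c ≤ ε := by nlinarith
      have h5 : 4 * η * c * ‖y‖ ≤ ε * ‖y‖ := mul_le_mul_of_nonneg_right h4 (norm_nonneg _)
      linarith
  · intro x
    change f (P0 x) + RE F (w x) = f x
    have : w x = 0 := by
      rw [hwy]
      funext b
      rw [Pi.sub_apply, Pi.zero_apply, hζ1, hPx]
      ring
    rw [this, map_zero, hPx, add_zero]

end Pool.Agent.Helper51.Gur
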