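import Mathlib
import Pool.Agent.Helper51.Gurarii

open scoped ENNReal
open Cardinal

namespace Pool.Agent.Helper51.Gur

universe u

variable {I : Type u}

/-- arities of the W-type -/
def Ar (I : Type u) : (I ⊕ (Σ n : ℕ, (Fin n → ℚ) × ℕ)) → Type
  | .inl _ => Fin 0
  | .inr p => Fin p.1

instance (a : I ⊕ (Σ n : ℕ, (Fin n → ℚ) × ℕ)) : Finite (Ar I a) := by
  cases a with
  | inl _ => exact inferInstanceAs (Finite (Fin 0))
  | inr p => exact inferInstanceAs (Finite (Fin p.1))

/-- embedding into a W-type -/
def toW : Node I → WType (Ar I)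
  | .base i => WType.mk (.inl i) (fun j => Fin.elim0 j)
  | .comb n q f c => WType.mk (.inr ⟨n, (q, c)⟩) (fun j => toW (f j))

lemma toW_injective : Function.Injective (toW (I := I)) := by
  intro a
  induction a with
  | base i =>
    intro b h
    cases b with
    | base j =>
      simp only [toW] at h
      injection h with h1 h2
      injection h1 with h1
      rw [h1]
    | comb n q f c =>
      simp only [toW] at h
      injection h with h1 h2
      exact absurd h1 (by simp)
  | comb n q f c ih =>
    intro b h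
    cases b with
    | base j =>
      simp only [toW] at h
      injection h with h1 h2
      exact absurd h1 (by simp)
    | comb n' q' f' c' =>
      simp only [toW] at h
      injection h with h1 h2
      have h3 : (⟨n, (q, c)⟩ : Σ n : ℕ, (Fin n → ℚ) × ℕ) = ⟨n', (q', c')⟩ := Sum.inr_injective h1
      injection h3 with h4 h5
      subst h4
      have h6 := eq_of_heq h5
      have h7 : q = q' := congrArg Prod.fst h6
      have h8 : c = c' := congrArg Prod.snd h6
      subst h7
      subst h8
      have h9 := eq_of_heq h2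
      have h10 : f = f' := by
        funext j
        apply ih j
        exact congrFun h9 j
      rw [h10]

lemma mk_node_le (I : Type u) [Infinite I] : #(Node I) ≤ #I := by
  have h1 : #(Node I) ≤ #(WType (Ar I)) := Cardinal.mk_le_of_injective toW_injective
  refine h1.trans ((WType.cardinalMk_le_max_aleph0_of_finite').trans ?_)
  rw [Cardinal.lift_id', max_le_iff]
  have hI : ℵ₀ ≤ #I := Cardinal.aleph0_le_mk I
  refine ⟨?_, hI⟩
  rw [Cardinal.mk_sum]
  have h2 : Cardinal.lift.{u} #(Σ n : ℕ, (Fin n → ℚ) × ℕ) ≤ ℵ₀ := by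
    rw [Cardinal.lift_le_aleph0]
    exact Cardinal.mk_le_aleph0
  have h3 : Cardinal.lift.{0} #I = #I := Cardinal.lift_id' _
  rw [h3]
  exact (add_le_add le_rfl (h2.trans hI)).trans (Cardinal.add_eq_self hI).le

/-- the rational approximants -/
noncomputable def ratPt (y : Node I →₀ ℚ) : EE I :=
  ⟨Sl I (y.mapRange (fun q : ℚ => (q : ℝ)) (by simp)), Sl_mem _⟩

lemma Sl_eq_sum (y : Node I →₀ ℝ) (s : Finset (Node I)) (hs : y.support ⊆ s) :
    (⟨Sl I y, Sl_mem y⟩ : EE I) = ∑ b ∈ s, y b • gen b := by
  apply Subtype.ext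
  rw [Submodule.coe_sum]
  change Sl I y = _
  conv_lhs => rw [← Finsupp.sum_single y]
  rw [Finsupp.sum, map_sum]
  have h : ∀ b ∈ y.support, Sl I (Finsupp.single b (y b)) = ((y b • gen b : EE I) : Amb I) := by
    intro b _
    have : Finsupp.single b (y b) = y b • Finsupp.single b (1 : ℝ) := by simp
    rw [this, map_smul]
    rfl
  rw [Finset.sum_congr rfl h]
  apply Finset.sum_subset hs
  intro b _ hb
  rw [Finsupp.notMem_support_iff.mp hb, zero_smul]
  rfl

lemma dense_ratPt : Dense (Set.range (ratPt (I := I))) := by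
  classical
  rw [Metric.dense_iff]
  intro x r hr
  have hx : (x : Amb I) ∈ closure (LinearMap.range (Sl I) : Set (Amb I)) := x.2
  rw [Metric.mem_closure_iff] at hx
  obtain ⟨_, ⟨y, rfl⟩, hy⟩ := hx (r / 2) (by positivity)
  set K : ℝ := ∑ b ∈ y.support, ‖gen b‖ with hK
  have hK0 : 0 ≤ K := Finset.sum_nonneg fun b _ => norm_nonneg _
  choose Q hQ1 hQ2 using fun b => exists_rat_round (y b) (δ := r / (4 * (K + 1))) (by positivity)
  have hQs : ∀ b, Q b ≠ 0 → b ∈ y.support := by
    intro b hb
    rw [Finsupp.mem_support_iff]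
    intro h0
    have := hQ1 b
    rw [h0, abs_zero] at this
    have h1 : ((Q b : ℚ) : ℝ) = 0 := abs_nonpos_iff.mp this
    exact hb (by exact_mod_cast h1)
  set y' : Node I →₀ ℚ := Finsupp.onFinset y.support Q hQs with hy'
  refine ⟨ratPt y', ?_, ⟨y', rfl⟩⟩
  have h1 : dist x (⟨Sl I y, Sl_mem y⟩ : EE I) < r / 2 := hy
  have h2 : dist (⟨Sl I y, Sl_mem y⟩ : EE I) (ratPt y') < r / 2 := by
    rw [dist_eq_norm, Sl_eq_sum y y.support (subset_refl _)]
    have h3 : ratPt y' = ∑ b ∈ y.support, ((Q b : ℚ) : ℝ) • gen b := by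
      unfold ratPt
      rw [Sl_eq_sum _ y.support]
      · refine Finset.sum_congr rfl fun b _ => ?_
        simp [hy']
      · intro b hb
        rw [Finsupp.mem_support_iff] at hb
        apply hQs b
        intro h
        apply hb
        simp [hy', h]
    rw [h3, ← Finset.sum_sub_distrib]
    calc ‖∑ b ∈ y.support, (y b • gen b - ((Q b : ℚ) : ℝ) • gen b)‖
        ≤ ∑ b ∈ y.support, ‖y b • gen b - ((Q b : ℚ) : ℝ) • gen b‖ := norm_sum_le _ _
      _ ≤ ∑ b ∈ y.support, (r / (4 * (K + 1))) * ‖gen b‖ := by
          refine Finset.sum_le_sum fun b _ => ?_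
          rw [← sub_smul, norm_smul, Real.norm_eq_abs, abs_sub_comm]
          exact mul_le_mul_of_nonneg_right (hQ2 b) (norm_nonneg _)
      _ = (r / (4 * (K + 1))) * K := by rw [← Finset.mul_sum]
      _ = (K / (K + 1)) * (r / 4) := by
          have : K + 1 ≠ 0 := by positivity
          field_simp
      _ ≤ 1 * (r / 4) := by
          apply mul_le_mul_of_nonneg_right _ (by positivity)
          rw [div_le_one (by positivity)]
          linarith
      _ < r / 2 := by linarith
  rw [Metric.mem_ball, dist_comm]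
  calc dist x (ratPt y') ≤ dist x (⟨Sl I y, Sl_mem y⟩ : EE I) +
        dist (⟨Sl I y, Sl_mem y⟩ : EE I) (ratPt y') := dist_triangle _ _ _
    _ < r := by linarith

lemma mk_le_of_dense {D : Set (EE I)} (hD : Dense D) : #I ≤ #D := by
  have h : ∀ i : I, ∃ d ∈ D, dist d (gen (Node.base i)) < 1 / 2 := by
    intro i
    obtain ⟨d, hd1, hd2⟩ := Metric.dense_iff.mp hD (gen (Node.base i)) (1 / 2) (by norm_num)
    exact ⟨d, hd2, hd1⟩
  choose d hd1 hd2 using h
  have hinj : Function.Injective (fun i : I => (⟨d i, hd1 i⟩ : D)) := by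
    intro i j hij
    by_contra hne
    have h1 := base_separated hne
    have h2 : d i = d j := congrArg Subtype.val hij
    have h3 : dist (gen (Node.base i)) (gen (Node.base j)) ≤
        dist (gen (Node.base i)) (d i) + dist (d i) (gen (Node.base j)) := dist_triangle _ _ _
    rw [dist_eq_norm] at h3
    have h4 := hd2 i
    have h5 := hd2 j
    rw [dist_comm] at h4
    rw [← h2] at h5
    linarith
  exact Cardinal.mk_le_of_injective hinj

/-- the density character equals `κ` -/
def HasDensity (E : Type u) [TopologicalSpace E] (κ : Cardinal.{u}) : Prop :=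
  (∃ D : Set E, Dense D ∧ #D = κ) ∧ ∀ D : Set E, Dense D → κ ≤ #D

theorem density_EE (I : Type u) [Infinite I] : HasDensity (EE I) #I := by
  refine ⟨⟨Set.range (ratPt (I := I)), dense_ratPt, ?_⟩, fun D hD => mk_le_of_dense hD⟩
  apply le_antisymm
  · refine Cardinal.mk_range_le.trans ?_
    have hinf : Infinite (Node I) := Infinite.of_injective (fun i : I => Node.base i)
      (fun i j h => by injection h)
    have h1 := Cardinal.mk_finsupp_lift_of_infinite (Node I) ℚ
    rw [h1]
    rw [Cardinal.lift_id', max_le_iff]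
    refine ⟨mk_node_le I, ?_⟩
    have h2 : Cardinal.lift.{u} #ℚ ≤ ℵ₀ := by
      rw [Cardinal.lift_le_aleph0]
      exact Cardinal.mk_le_aleph0
    exact h2.trans (Cardinal.aleph0_le_mk I)
  · exact mk_le_of_dense dense_ratPt

end Pool.Agent.Helper51.Gur
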