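import Mathlib

open Polynomial

namespace Pool.Agent.Helper51.Mult

/-- The complex polynomial `q` has no zero in the open upper half plane. -/
def NUp (q : ℂ[X]) : Prop := ∀ z : ℂ, 0 < z.im → q.eval z ≠ 0

lemma NUp.roots_im {q : ℂ[X]} (h : NUp q) {r : ℂ} (hr : r ∈ q.roots) : r.im ≤ 0 := by
  by_contra hlt
  push Not at hlt
  exact h r hlt (Polynomial.isRoot_of_mem_roots hr)

lemma NUp.lower_bound {q : ℂ[X]} (h : NUp q) {z : ℂ} (hz : 0 < z.im) :
    ‖q.leadingCoeff‖ * z.im ^ q.natDegree ≤ ‖q.eval z‖ := by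
  have hs : q.Splits := IsAlgClosed.splits q
  have hcard : q.roots.card = q.natDegree := (splits_iff_card_roots.mp hs)
  rw [hs.eval_eq_prod_roots, norm_mul, ← hcard]
  refine mul_le_mul_of_nonneg_left ?_ (norm_nonneg _)
  have key : ∀ s : Multiset ℂ, (∀ r ∈ s, r.im ≤ 0) →
      z.im ^ s.card ≤ ‖(s.map (fun r => z - r)).prod‖ := by
    intro s
    induction s using Multiset.induction_on with
    | empty => intro _; simp
    | cons a s ih =>
      intro hs
      have h1 : z.im ^ s.card ≤ ‖(s.map (fun r => z - r)).prod‖ :=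
        ih (fun r hr => hs r (Multiset.mem_cons_of_mem hr))
      have h2 : a.im ≤ 0 := hs a (Multiset.mem_cons_self a s)
      have h3 : z.im ≤ ‖z - a‖ := by
        have h4 : |(z - a).im| ≤ ‖z - a‖ := Complex.abs_im_le_norm _
        have h5 : (z - a).im ≤ |(z - a).im| := le_abs_self _
        have h6 : (z - a).im = z.im - a.im := by simp
        linarith
      rw [Multiset.card_cons, Multiset.map_cons, Multiset.prod_cons, norm_mul, pow_succ, mul_comm]
      exact mul_le_mul h3 h1 (by positivity) (norm_nonneg _)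
  exact key _ (fun r hr => h.roots_im hr)

lemma NUp.step {q : ℂ[X]} (h : NUp q) {α : ℝ} (hα : 0 < α) {ξ : ℂ} (hξ : 0 < ξ.im) :
    NUp (C (α : ℂ) * q + C ξ * derivative q) := by
  intro z hz h0
  have hqz : q.eval z ≠ 0 := h z hz
  have hs : q.Splits := IsAlgClosed.splits q
  have hd := hs.eval_derivative_div_eval_of_ne_zero hqz
  have hξ0 : ξ ≠ 0 := by
    intro h'
    simp [h'] at hξ
  have him : ((q.roots.map fun w ↦ 1 / (z - w)).sum).im ≤ 0 := by
    have key : ∀ s : Multiset ℂ, (∀ r ∈ s, r.im ≤ 0) →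
        ((s.map (fun r => 1 / (z - r))).sum).im ≤ 0 := by
      intro s
      induction s using Multiset.induction_on with
      | empty => intro _; simp
      | cons a s ih =>
        intro hs
        have h1 := ih (fun r hr => hs r (Multiset.mem_cons_of_mem hr))
        have h2 : a.im ≤ 0 := hs a (Multiset.mem_cons_self a s)
        rw [Multiset.map_cons, Multiset.sum_cons, Complex.add_im]
        have h3 : (1 / (z - a)).im ≤ 0 := by
          rw [one_div, Complex.inv_im]
          have h6 : (z - a).im = z.im - a.im := by simp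
          have : 0 ≤ Complex.normSq (z - a) := Complex.normSq_nonneg _
          apply div_nonpos_of_nonpos_of_nonneg _ this
          linarith
        linarith
    exact key _ (fun r hr => h.roots_im hr)
  rw [← hd] at him
  have h1 : (α : ℂ) * q.eval z + ξ * (derivative q).eval z = 0 := by
    simpa using h0
  have h2 : (derivative q).eval z / q.eval z = -(α : ℂ) / ξ := by
    field_simp
    linear_combination h1
  rw [h2] at him
  have h3 : (-(α : ℂ) / ξ).im = α * ξ.im / Complex.normSq ξ := by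
    rw [div_eq_mul_inv, Complex.mul_im, Complex.inv_im, Complex.inv_re]
    simp
    ring
  rw [h3] at him
  have : 0 < Complex.normSq ξ := Complex.normSq_pos.mpr hξ0
  have : 0 < α * ξ.im / Complex.normSq ξ := by positivity
  linarith

/-- the operator `ξ d/dx` on complex polynomials -/
noncomputable def DD (ξ : ℂ) : Module.End ℂ ℂ[X] := ξ • (Polynomial.derivative : ℂ[X] →ₗ[ℂ] ℂ[X])

lemma DD_pow (ξ : ℂ) (k : ℕ) (q : ℂ[X]) : ((DD ξ) ^ k) q = ξ ^ k • (derivative^[k] q) := by
  induction k with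
  | zero => simp
  | succ k ih =>
    rw [pow_succ', Module.End.mul_apply, ih, Function.iterate_succ', Function.comp]
    simp only [DD, LinearMap.smul_apply, map_smul, smul_smul]
    rw [pow_succ', mul_comm]

lemma NUp.prod {ξ : ℂ} (hξ : 0 < ξ.im) (s : Multiset ℂ)
    (hs : ∀ r ∈ s, r.im = 0 ∧ r.re < 0) {q : ℂ[X]} (hq : NUp q) :
    NUp (aeval (DD ξ) ((s.map (fun r => X - C r)).prod) q) := by
  induction s using Multiset.induction_on with
  | empty => simpa using hq
  | cons a s ih =>
    have h1 := ih (fun r hr => hs r (Multiset.mem_cons_of_mem hr))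
    obtain ⟨h2, h3⟩ := hs a (Multiset.mem_cons_self a s)
    rw [Multiset.map_cons, Multiset.prod_cons, map_mul, Module.End.mul_apply]
    have h4 := h1.step (α := -a.re) (by linarith) hξ
    convert h4 using 1
    simp only [map_sub, aeval_X, aeval_C, LinearMap.sub_apply, DD, LinearMap.smul_apply]
    have ha : a = (a.re : ℂ) := by
      apply Complex.ext <;> simp [h2]
    rw [Module.algebraMap_end_apply, smul_eq_C_mul, smul_eq_C_mul]
    push_cast
    rw [← ha]
    simp only [map_neg]
    ring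


/-- Only real zeros. -/
def ORZ (p : ℝ[X]) : Prop := ∀ z : ℂ, aeval z p = 0 → z.im = 0

/-- Only real negative zeros. -/
def ORNZ (p : ℝ[X]) : Prop := ∀ z : ℂ, aeval z p = 0 → z.im = 0 ∧ z.re < 0

lemma ORZ.ne_zero {p : ℝ[X]} (h : ORZ p) : p ≠ 0 := by
  rintro rfl
  have := h Complex.I (by simp)
  simp at this

lemma ORNZ.orz {p : ℝ[X]} (h : ORNZ p) : ORZ p := fun z hz => (h z hz).1

lemma nup_of_orz {p : ℝ[X]} (h : ORZ p) : NUp (p.map (algebraMap ℝ ℂ)) := by
  intro z hz h0
  have := h z (by rwa [aeval_def, ← eval_map])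
  linarith

/-- The core composition estimate: shifted version. -/
lemma nup_operator {p g : ℝ[X]} (hp : ORZ p) (hg : ORNZ g) {ξ : ℂ} (hξ : 0 < ξ.im) :
    NUp (aeval (DD ξ) (g.map (algebraMap ℝ ℂ)) (p.map (algebraMap ℝ ℂ))) := by
  have hs : (g.map (algebraMap ℝ ℂ)).Splits := IsAlgClosed.splits _
  have hg0 : (g.map (algebraMap ℝ ℂ)) ≠ 0 := by
    rw [Ne, Polynomial.map_eq_zero]
    exact hg.orz.ne_zero
  rw [hs.eq_prod_roots, map_mul, Module.End.mul_apply]
  have h1 : NUp (aeval (DD ξ) (((g.map (algebraMap ℝ ℂ)).roots.map (fun r => X - C r)).prod)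
      (p.map (algebraMap ℝ ℂ))) := by
    apply NUp.prod hξ _ _ (nup_of_orz hp)
    intro r hr
    have := Polynomial.isRoot_of_mem_roots hr
    apply hg r
    rw [aeval_def, ← eval_map]
    exact this
  intro z hz
  rw [aeval_C, Module.algebraMap_end_apply, eval_smul, smul_eq_mul]
  exact mul_ne_zero (by simpa using hg.orz.ne_zero) (h1 z hz)

lemma operator_eval (p g : ℝ[X]) (ξ y : ℂ) :
    (aeval (DD ξ) (g.map (algebraMap ℝ ℂ)) (p.map (algebraMap ℝ ℂ))).eval y =
      ∑ k ∈ Finset.range (g.natDegree + 1),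
        (g.coeff k : ℂ) * ξ ^ k * (derivative^[k] (p.map (algebraMap ℝ ℂ))).eval y := by
  rw [aeval_eq_sum_range, natDegree_map]
  simp only [LinearMap.sum_apply, LinearMap.smul_apply, eval_finsetSum, DD_pow, eval_smul,
    smul_eq_mul, coeff_map, Complex.coe_algebraMap]
  refine Finset.sum_congr rfl fun k _ => ?_
  ring

/-- The polynomial (in the operator parameter) obtained from `g(ξ D) p` evaluated at `y`. -/
noncomputable def QQ (p g : ℝ[X]) (y : ℂ) : ℂ[X] :=
  ∑ k ∈ Finset.range (p.natDegree + 1),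
    C ((g.coeff k : ℂ) * (derivative^[k] (p.map (algebraMap ℝ ℂ))).eval y) * X ^ k

lemma QQ_eval (p g : ℝ[X]) (ξ y : ℂ) : (QQ p g y).eval ξ =
    (aeval (DD ξ) (g.map (algebraMap ℝ ℂ)) (p.map (algebraMap ℝ ℂ))).eval y := by
  rw [operator_eval, QQ, eval_finsetSum]
  simp only [eval_mul, eval_C, eval_pow, eval_X]
  set F : ℕ → ℂ := fun k => (g.coeff k : ℂ) * ξ ^ k *
    (derivative^[k] (p.map (algebraMap ℝ ℂ))).eval y with hF
  have h1 : ∑ k ∈ Finset.range (g.natDegree + 1), F k =
      ∑ k ∈ Finset.range (g.natDegree + p.natDegree + 1), F k := by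
    apply Finset.sum_subset
    · intro k hk
      simp only [Finset.mem_range] at hk ⊢
      omega
    · intro k _ hk
      simp only [Finset.mem_range, not_lt] at hk
      have : g.coeff k = 0 := coeff_eq_zero_of_natDegree_lt (by omega)
      simp [hF, this]
  have h2 : ∑ k ∈ Finset.range (p.natDegree + 1), F k =
      ∑ k ∈ Finset.range (g.natDegree + p.natDegree + 1), F k := by
    apply Finset.sum_subset
    · intro k hk
      simp only [Finset.mem_range] at hk ⊢
      omega
    · intro k _ hk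
      simp only [Finset.mem_range, not_lt] at hk
      have : derivative^[k] (p.map (algebraMap ℝ ℂ)) = 0 := by
        apply iterate_derivative_eq_zero
        rw [natDegree_map]
        omega
      simp only [hF]
      rw [this]
      simp
  rw [h1, ← h2]
  refine Finset.sum_congr rfl fun k _ => ?_
  simp only [hF]
  ring

lemma iterate_derivative_top (p : ℝ[X]) (y : ℂ) :
    (derivative^[p.natDegree] (p.map (algebraMap ℝ ℂ))).eval y =
      (p.natDegree.factorial : ℂ) * (p.leadingCoeff : ℂ) := by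
  have h : derivative^[p.natDegree] (p.map (algebraMap ℝ ℂ)) =
      C ((p.natDegree.factorial : ℂ) * (p.leadingCoeff : ℂ)) := by
    ext m
    rw [coeff_iterate_derivative, coeff_C, coeff_map]
    split_ifs with hm
    · subst hm
      rw [Nat.zero_add, Nat.descFactorial_self]
      simp
    · rw [coeff_eq_zero_of_natDegree_lt (by omega)]
      simp
  rw [h, eval_C]

lemma iterate_derivative_zero (p : ℝ[X]) (k : ℕ) :
    (derivative^[k] (p.map (algebraMap ℝ ℂ))).eval 0 =
      (k.factorial : ℂ) * (p.coeff k : ℂ) := by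
  rw [← coeff_zero_eq_eval_zero, coeff_iterate_derivative, coeff_map, Nat.zero_add,
    Nat.descFactorial_self]
  simp

lemma comp_bound {p g : ℝ[X]} (hp : ORZ p) (hg : ORNZ g) {ξ : ℂ} (hξ : 0 < ξ.im) :
    ‖(g.coeff p.natDegree : ℂ) * ((p.natDegree.factorial : ℂ) * (p.leadingCoeff : ℂ))‖ *
      ξ.im ^ p.natDegree ≤
    ‖∑ k ∈ Finset.range (p.natDegree + 1),
      (g.coeff k : ℂ) * ((k.factorial : ℂ) * (p.coeff k : ℂ)) * ξ ^ k‖ := by
  have h0 : ∀ ε : ℝ, 0 < ε →
      ‖(g.coeff p.natDegree : ℂ) * ((p.natDegree.factorial : ℂ) * (p.leadingCoeff : ℂ))‖ *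
      ξ.im ^ p.natDegree ≤ ‖(QQ p g (ε * Complex.I)).eval ξ‖ := by
    intro ε hε
    by_cases hb : g.coeff p.natDegree = 0
    · simp [hb]
    have hnup : NUp (QQ p g (ε * Complex.I)) := by
      intro z hz
      rw [QQ_eval]
      apply nup_operator hp hg hz
      simpa using hε
    have hcoeff : (QQ p g (ε * Complex.I)).coeff p.natDegree =
        (g.coeff p.natDegree : ℂ) * ((p.natDegree.factorial : ℂ) * (p.leadingCoeff : ℂ)) := by
      rw [QQ, finsetSum_coeff]
      simp only [coeff_C_mul, coeff_X_pow]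
      rw [Finset.sum_eq_single p.natDegree]
      · rw [if_pos rfl, mul_one, iterate_derivative_top]
      · intro k _ hk
        rw [if_neg (Ne.symm hk), mul_zero]
      · intro h
        simp at h
    have hne : (g.coeff p.natDegree : ℂ) * ((p.natDegree.factorial : ℂ) * (p.leadingCoeff : ℂ)) ≠ 0 := by
      refine mul_ne_zero (by exact_mod_cast hb) (mul_ne_zero ?_ ?_)
      · exact_mod_cast Nat.factorial_ne_zero _
      · simpa using hp.ne_zero
    have hle : (QQ p g (ε * Complex.I)).natDegree ≤ p.natDegree := by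
      apply natDegree_sum_le_of_forall_le
      intro k hk
      simp only [Finset.mem_range] at hk
      exact (natDegree_C_mul_X_pow_le _ _).trans (by omega)
    have hdeg : (QQ p g (ε * Complex.I)).natDegree = p.natDegree := by
      apply le_antisymm hle
      apply le_natDegree_of_ne_zero
      rw [hcoeff]
      exact hne
    have := hnup.lower_bound hξ
    rwa [leadingCoeff, hdeg, hcoeff] at this
  have hcont : Filter.Tendsto (fun ε : ℝ => ‖(QQ p g (ε * Complex.I)).eval ξ‖)
      (nhdsWithin 0 (Set.Ioi 0)) (nhds ‖(QQ p g (((0:ℝ):ℂ) * Complex.I)).eval ξ‖) := by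
    have hc : Continuous (fun ε : ℝ => ‖(QQ p g (ε * Complex.I)).eval ξ‖) := by
      simp only [QQ, eval_finsetSum, eval_mul, eval_C, eval_pow, eval_X]
      refine continuous_norm.comp (continuous_finsetSum _ fun k _ => ?_)
      refine Continuous.mul (Continuous.mul continuous_const ?_) continuous_const
      exact (Polynomial.continuous _).comp (by fun_prop)
    exact (hc.tendsto 0).mono_left nhdsWithin_le_nhds
  have h1 : (QQ p g (((0:ℝ):ℂ) * Complex.I)).eval ξ = ∑ k ∈ Finset.range (p.natDegree + 1),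
      (g.coeff k : ℂ) * ((k.factorial : ℂ) * (p.coeff k : ℂ)) * ξ ^ k := by
    rw [QQ, eval_finsetSum]
    refine Finset.sum_congr rfl fun k _ => ?_
    rw [eval_mul, eval_C, eval_pow, eval_X]
    simp only [Complex.ofReal_zero, zero_mul]
    rw [iterate_derivative_zero]
  rw [← h1]
  refine ge_of_tendsto hcont ?_
  filter_upwards [self_mem_nhdsWithin] with ε hε
  exact h0 ε hε

/-- The `N`-th Jensen polynomial of the sequence `γ`. -/
noncomputable def jensen (γ : ℕ → ℝ) (N : ℕ) : ℝ[X] :=
  ∑ k ∈ Finset.range (N + 1), C ((N.choose k : ℝ) * γ k) * X ^ k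

lemma jensen_coeff (γ : ℕ → ℝ) (N k : ℕ) : (jensen γ N).coeff k = (N.choose k : ℝ) * γ k := by
  rw [jensen, finsetSum_coeff]
  simp only [coeff_C_mul, coeff_X_pow, mul_ite, mul_one, mul_zero]
  rw [Finset.sum_ite_eq]
  split_ifs with h
  · rfl
  · simp only [Finset.mem_range, not_lt] at h
    rw [Nat.choose_eq_zero_of_lt (by omega)]
    simp

lemma tendsto_desc (k : ℕ) : Filter.Tendsto (fun N : ℕ => (N.descFactorial k : ℝ) / (N : ℝ) ^ k)
    Filter.atTop (nhds 1) := by
  have h := isEquivalent_descFactorial k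
  refine (Asymptotics.isEquivalent_iff_tendsto_one ?_).mp h
  filter_upwards [Filter.eventually_gt_atTop 0] with N hN
  positivity

/-- The diagonal operator `x^k ↦ γ_k x^k`. -/
noncomputable def diag (γ : ℕ → ℝ) (p : ℝ[X]) : ℝ[X] :=
  ∑ k ∈ Finset.range (p.natDegree + 1), C (γ k * p.coeff k) * X ^ k

lemma diag_bound {γ : ℕ → ℝ} (hJ : ∀ N, ORNZ (jensen γ N)) {p : ℝ[X]} (hp : ORZ p)
    {ξ : ℂ} (hξ : 0 < ξ.im) :
    ‖((γ p.natDegree * p.leadingCoeff : ℝ) : ℂ)‖ * ξ.im ^ p.natDegree ≤ ‖aeval ξ (diag γ p)‖ := by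
  set n := p.natDegree with hn
  have h1 : ∀ N : ℕ, 0 < N →
      ‖((N.descFactorial n : ℝ) / (N : ℝ) ^ n : ℂ) * ((γ n * p.leadingCoeff : ℝ) : ℂ)‖ * ξ.im ^ n ≤
      ‖∑ k ∈ Finset.range (n + 1), ((N.descFactorial k : ℝ) / (N : ℝ) ^ k : ℂ) *
        ((γ k * p.coeff k : ℝ) : ℂ) * ξ ^ k‖ := by
    intro N hN
    have hN' : (0 : ℝ) < N := by exact_mod_cast hN
    have hNc : (N : ℂ) ≠ 0 := by exact_mod_cast hN.ne'
    have hξ' : 0 < (ξ / (N : ℂ)).im := by
      have : (ξ / (N : ℂ)) = ξ / ((N : ℝ) : ℂ) := by simp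
      rw [this, Complex.div_ofReal_im]
      positivity
    have h2 := comp_bound hp (hJ N) hξ'
    have h3 : (ξ / (N : ℂ)).im = ξ.im / N := by
      have : (ξ / (N : ℂ)) = ξ / ((N : ℝ) : ℂ) := by simp
      rw [this, Complex.div_ofReal_im]
    rw [← hn, h3] at h2
    have hcf : ∀ k : ℕ, ((N.choose k : ℝ) : ℂ) * (k.factorial : ℂ) = (N.descFactorial k : ℂ) := by
      intro k
      rw [Nat.descFactorial_eq_factorial_mul_choose]
      push_cast
      ring
    convert h2 using 1
    · rw [jensen_coeff, div_pow]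
      have h5 : ((N.choose n * γ n : ℝ) : ℂ) * ((n.factorial : ℂ) * (p.leadingCoeff : ℂ)) =
          (N.descFactorial n : ℂ) * ((γ n * p.leadingCoeff : ℝ) : ℂ) := by
        rw [← hcf n]
        push_cast
        ring
      rw [h5, norm_mul, norm_mul, norm_div]
      have h6 : ‖((N : ℝ) : ℂ) ^ n‖ = (N : ℝ) ^ n := by
        rw [norm_pow, Complex.norm_real, Real.norm_of_nonneg hN'.le]
      rw [h6]
      have h7 : ‖((N.descFactorial n : ℝ) : ℂ)‖ = ‖(N.descFactorial n : ℂ)‖ := by simp
      rw [h7]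
      ring
    · congr 1
      refine Finset.sum_congr rfl fun k _ => ?_
      rw [jensen_coeff]
      have h5 : ((N.choose k * γ k : ℝ) : ℂ) * ((k.factorial : ℂ) * (p.coeff k : ℂ)) =
          (N.descFactorial k : ℂ) * ((γ k * p.coeff k : ℝ) : ℂ) := by
        rw [← hcf k]
        push_cast
        ring
      rw [h5, div_pow]
      push_cast
      ring
  have hL : Filter.Tendsto (fun N : ℕ => ‖((N.descFactorial n : ℝ) / (N : ℝ) ^ n : ℂ) *
      ((γ n * p.leadingCoeff : ℝ) : ℂ)‖ * ξ.im ^ n) Filter.atTop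
      (nhds (‖(1 : ℂ) * ((γ n * p.leadingCoeff : ℝ) : ℂ)‖ * ξ.im ^ n)) := by
    have h2 : Filter.Tendsto (fun N : ℕ => (((N.descFactorial n : ℝ) / (N : ℝ) ^ n : ℝ) : ℂ))
        Filter.atTop (nhds ((1 : ℝ) : ℂ)) :=
      (Complex.continuous_ofReal.tendsto _).comp (tendsto_desc n)
    have h3 := ((h2.mul_const ((γ n * p.leadingCoeff : ℝ) : ℂ)).norm).mul_const (ξ.im ^ n)
    simpa using h3
  have hR : Filter.Tendsto (fun N : ℕ => ‖∑ k ∈ Finset.range (n + 1),
      ((N.descFactorial k : ℝ) / (N : ℝ) ^ k : ℂ) *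
        ((γ k * p.coeff k : ℝ) : ℂ) * ξ ^ k‖) Filter.atTop
      (nhds ‖∑ k ∈ Finset.range (n + 1), (1 : ℂ) * ((γ k * p.coeff k : ℝ) : ℂ) * ξ ^ k‖) := by
    refine (tendsto_finsetSum _ fun k _ => ?_).norm
    have h2 : Filter.Tendsto (fun N : ℕ => (((N.descFactorial k : ℝ) / (N : ℝ) ^ k : ℝ) : ℂ))
        Filter.atTop (nhds ((1 : ℝ) : ℂ)) :=
      (Complex.continuous_ofReal.tendsto _).comp (tendsto_desc k)
    have h3 := (h2.mul_const ((γ k * p.coeff k : ℝ) : ℂ)).mul_const (ξ ^ k)
    simpa using h3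
  have h4 := le_of_tendsto_of_tendsto hL hR (by
    filter_upwards [Filter.eventually_gt_atTop 0] with N hN
    exact h1 N hN)
  rw [one_mul] at h4
  have h5 : aeval ξ (diag γ p) =
      ∑ k ∈ Finset.range (n + 1), (1 : ℂ) * ((γ k * p.coeff k : ℝ) : ℂ) * ξ ^ k := by
    unfold diag
    rw [map_sum]
    refine Finset.sum_congr rfl fun k _ => ?_
    simp
  rw [h5]
  exact h4

/-- If all Jensen polynomials have only real negative zeros, and the sequence has no zero term,
the sequence preserves real-rootedness. -/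
theorem orz_diag {γ : ℕ → ℝ} (hJ : ∀ N, ORNZ (jensen γ N)) (hγ : ∀ k, γ k ≠ 0) {p : ℝ[X]}
    (hp : ORZ p) : ORZ (diag γ p) := by
  have up : ∀ z : ℂ, 0 < z.im → aeval z (diag γ p) ≠ 0 := by
    intro z hz h0
    have h := diag_bound hJ hp hz
    rw [h0, norm_zero] at h
    have h1 : 0 < ‖((γ p.natDegree * p.leadingCoeff : ℝ) : ℂ)‖ := by
      rw [norm_pos_iff]
      exact_mod_cast mul_ne_zero (hγ _) (by simpa using hp.ne_zero)
    have : 0 < ‖((γ p.natDegree * p.leadingCoeff : ℝ) : ℂ)‖ * z.im ^ p.natDegree := by positivity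
    linarith
  intro z hz
  rcases lt_trichotomy z.im 0 with h | h | h
  · exfalso
    apply up ((starRingEnd ℂ) z) (by simpa using h)
    rw [aeval_conj, hz, map_zero]
  · exact h
  · exact absurd hz (up z h)

/-! ### Real-rootedness of Laguerre polynomials and related facts -/

lemma orz_logderiv {p : ℝ[X]} (hp : ORZ p) (hd : 0 < p.natDegree) {z : ℂ} (hz : z.im ≠ 0) :
    (aeval z (derivative p) / aeval z p).im ≠ 0 := by
  have hpz : aeval z p ≠ 0 := fun h => hz (hp z h)
  have hs : (p.map (algebraMap ℝ ℂ)).Splits := IsAlgClosed.splits _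
  have hpz' : (p.map (algebraMap ℝ ℂ)).eval z ≠ 0 := by
    rwa [eval_map, ← aeval_def]
  have hdd := hs.eval_derivative_div_eval_of_ne_zero hpz'
  rw [derivative_map, eval_map, ← aeval_def, eval_map, ← aeval_def] at hdd
  rw [hdd]
  have key : ∀ s : Multiset ℂ, (∀ r ∈ s, r.im = 0) →
      ∃ c : ℝ, 0 ≤ c ∧ (s ≠ 0 → 0 < c) ∧ ((s.map (fun r => 1 / (z - r))).sum).im = - z.im * c := by
    intro s
    induction s using Multiset.induction_on with
    | empty => intro _; exact ⟨0, le_refl _, by simp, by simp⟩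
    | cons a s ih =>
      intro hs
      obtain ⟨c, hc0, _, hc⟩ := ih (fun r hr => hs r (Multiset.mem_cons_of_mem hr))
      have h2 : a.im = 0 := hs a (Multiset.mem_cons_self a s)
      have hne : z - a ≠ 0 := by
        intro h
        have : (z - a).im = 0 := by rw [h]; simp
        rw [Complex.sub_im, h2, sub_zero] at this
        exact hz this
      have hpos : 0 < Complex.normSq (z - a) := Complex.normSq_pos.mpr hne
      refine ⟨(Complex.normSq (z - a))⁻¹ + c, by positivity, fun _ => by positivity, ?_⟩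
      rw [Multiset.map_cons, Multiset.sum_cons, Complex.add_im, hc, one_div, Complex.inv_im,
        Complex.sub_im, h2]
      field_simp
      ring
  obtain ⟨c, _, hc1, hc2⟩ := key (p.map (algebraMap ℝ ℂ)).roots (by
    intro r hr
    apply hp r
    rw [aeval_def, ← eval_map]
    exact Polynomial.isRoot_of_mem_roots hr)
  rw [hc2]
  have hne : (p.map (algebraMap ℝ ℂ)).roots ≠ 0 := by
    intro h
    have := splits_iff_card_roots.mp hs
    rw [h, natDegree_map] at this
    simp at this
    omega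
  have := hc1 hne
  exact mul_ne_zero (neg_ne_zero.mpr hz) this.ne'

lemma orz_derivative {p : ℝ[X]} (hp : ORZ p) (hd : 0 < p.natDegree) : ORZ (derivative p) := by
  intro z hz
  by_contra him
  apply orz_logderiv hp hd him
  rw [hz]
  simp

lemma orz_derivative_sub {p : ℝ[X]} (hp : ORZ p) : ORZ (derivative p - p) := by
  intro z hz
  by_contra him
  have hpz : aeval z p ≠ 0 := fun h => him (hp z h)
  rw [map_sub, sub_eq_zero] at hz
  rcases Nat.eq_zero_or_pos p.natDegree with h0 | hd
  · rw [eq_C_of_natDegree_eq_zero h0] at hz hpz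
    simp only [derivative_C, map_zero, aeval_C] at hz hpz
    exact hpz hz.symm
  · apply orz_logderiv hp hd him
    rw [hz, div_self hpz]
    simp

/-- Laguerre polynomial. -/
noncomputable def lag (n : ℕ) : ℝ[X] :=
  ∑ k ∈ Finset.range (n + 1), C ((n.choose k : ℝ) * ((-1) ^ k / (k.factorial : ℝ))) * X ^ k

lemma lag_coeff (n k : ℕ) : (lag n).coeff k = (n.choose k : ℝ) * ((-1) ^ k / (k.factorial : ℝ)) := by
  rw [lag, finsetSum_coeff]
  simp only [coeff_C_mul, coeff_X_pow, mul_ite, mul_one, mul_zero]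
  rw [Finset.sum_ite_eq]
  split_ifs with h
  · rfl
  · simp only [Finset.mem_range, not_lt] at h
    rw [Nat.choose_eq_zero_of_lt (by omega)]
    simp

/-- the operator `D - 1`. -/
noncomputable def D1 : Module.End ℝ ℝ[X] := (Polynomial.derivative : ℝ[X] →ₗ[ℝ] ℝ[X]) - 1

lemma orz_D1_pow (n : ℕ) {p : ℝ[X]} (hp : ORZ p) : ORZ ((D1 ^ n) p) := by
  induction n with
  | zero => simpa using hp
  | succ n ih =>
    rw [pow_succ', Module.End.mul_apply]
    exact orz_derivative_sub ih

lemma D1_pow_X (n : ℕ) : (D1 ^ n) (X ^ n) = C (n.factorial : ℝ) * lag n := by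
  have h1 : (D1 : Module.End ℝ ℝ[X]) = (Polynomial.derivative : ℝ[X] →ₗ[ℝ] ℝ[X]) + (-1) := by
    rw [D1, sub_eq_add_neg]
  have hc : Commute (Polynomial.derivative : Module.End ℝ ℝ[X]) (-1 : Module.End ℝ ℝ[X]) := by
    change (Polynomial.derivative : Module.End ℝ ℝ[X]) * (-1 : Module.End ℝ ℝ[X]) =
      (-1 : Module.End ℝ ℝ[X]) * (Polynomial.derivative : Module.End ℝ ℝ[X])
    refine LinearMap.ext fun p => ?_
    simp [Module.End.mul_apply]
  rw [h1, hc.add_pow]
  rw [LinearMap.sum_apply, ← Finset.sum_range_reflect, lag, Finset.mul_sum]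
  refine Finset.sum_congr rfl fun k hk => ?_
  simp only [Finset.mem_range] at hk
  have hk' : k ≤ n := by omega
  have h2 : n + 1 - 1 - k = n - k := by omega
  rw [h2]
  have h3 : n - (n - k) = k := by omega
  rw [h3]
  have h4 : ((-1 : Module.End ℝ ℝ[X]) ^ k) = ((-1 : ℝ) ^ k) • (1 : Module.End ℝ ℝ[X]) := by
    have h40 : (-1 : Module.End ℝ ℝ[X]) = (-1 : ℝ) • (1 : Module.End ℝ ℝ[X]) := by
      refine LinearMap.ext fun p => ?_
      rw [LinearMap.smul_apply, LinearMap.neg_apply, Module.End.one_apply]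
      simp
    rw [h40, _root_.smul_pow, one_pow]
  rw [h4]
  have h5 : ((n.choose (n - k) : ℕ) : Module.End ℝ ℝ[X]) =
      ((n.choose k : ℕ) : ℝ) • (1 : Module.End ℝ ℝ[X]) := by
    rw [Nat.choose_symm hk', Nat.cast_smul_eq_nsmul, nsmul_one]
  rw [h5]
  simp only [Module.End.mul_apply, LinearMap.smul_apply, Module.End.one_apply, map_smul]
  rw [Module.End.pow_apply, iterate_derivative_X_pow_eq_C_mul, h3]
  rw [smul_eq_C_mul, smul_eq_C_mul, ← mul_assoc, ← mul_assoc, ← mul_assoc, ← C_mul, ← C_mul,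
    ← C_mul]
  congr 2
  have h6 : (n.descFactorial (n - k) : ℝ) * (k.factorial : ℝ) = (n.factorial : ℝ) := by
    have := Nat.factorial_mul_descFactorial (n := n) (k := n - k) (by omega)
    rw [h3] at this
    rw [mul_comm]
    exact_mod_cast this
  have h7 : (k.factorial : ℝ) ≠ 0 := by positivity
  rw [← h6]
  field_simp

lemma orz_lag (n : ℕ) : ORZ (lag n) := by
  have h1 : ORZ ((D1 ^ n) ((X : ℝ[X]) ^ n)) := by
    apply orz_D1_pow
    intro z hz
    rw [map_pow, aeval_X] at hz
    have : z = 0 := by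
      by_contra h
      exact pow_ne_zero n h hz
    rw [this]
    simp
  intro z hz
  apply h1 z
  rw [D1_pow_X, map_mul, hz, mul_zero]

/-- `w = x L_n`. -/
noncomputable def ww (n : ℕ) : ℝ[X] := X * lag n

lemma orz_ww (n : ℕ) : ORZ (ww n) := by
  intro z hz
  rw [ww, map_mul, aeval_X, mul_eq_zero] at hz
  rcases hz with rfl | h
  · simp
  · exact orz_lag n z h

lemma lag_natDegree (n : ℕ) : (lag n).natDegree = n := by
  apply le_antisymm
  · apply natDegree_sum_le_of_forall_le
    intro k hk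
    simp only [Finset.mem_range] at hk
    exact (natDegree_C_mul_X_pow_le _ _).trans (by omega)
  · apply le_natDegree_of_ne_zero
    rw [lag_coeff]
    have h7 : (n.factorial : ℝ) ≠ 0 := by positivity
    simp [h7]

lemma ww_natDegree (n : ℕ) : (ww n).natDegree = n + 1 := by
  have h : lag n ≠ 0 := (orz_lag n).ne_zero
  rw [ww, natDegree_X_mul h, lag_natDegree]

lemma orz_dww (n : ℕ) : ORZ (derivative (ww n)) :=
  orz_derivative (orz_ww n) (by rw [ww_natDegree]; omega)

lemma lag_ode (n : ℕ) :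
    X * derivative (derivative (lag n)) + (1 - X) * derivative (lag n) + C (n : ℝ) * lag n = 0 := by
  ext m
  have hrel : ((m : ℝ) + 1) ^ 2 * (lag n).coeff (m + 1) + ((n : ℝ) - m) * (lag n).coeff m = 0 := by
    rw [lag_coeff, lag_coeff]
    have h1 : (n.choose (m + 1) : ℝ) * ((m : ℝ) + 1) = (n.choose m : ℝ) * ((n : ℝ) - m) := by
      have := Nat.choose_succ_right_eq n m
      rcases le_or_gt m n with h | h
      · have h2 : ((n - m : ℕ) : ℝ) = (n : ℝ) - m := by push_cast [h]; ring
        rw [← h2]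
        exact_mod_cast this
      · rw [Nat.choose_eq_zero_of_lt h, Nat.choose_eq_zero_of_lt (by omega)]
        simp
    rw [Nat.factorial_succ]
    push_cast
    have h7 : (m.factorial : ℝ) ≠ 0 := by positivity
    have h8 : (m : ℝ) + 1 ≠ 0 := by positivity
    field_simp
    rw [pow_succ]
    linear_combination (-(-1 : ℝ) ^ m) * h1
  have h1 : (X * derivative (derivative (lag n))).coeff m = ((m : ℝ) + 1) * m * (lag n).coeff (m + 1) := by
    cases m with
    | zero => simp
    | succ k =>
      rw [coeff_X_mul, coeff_derivative, coeff_derivative]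
      push_cast
      ring
  have h2 : (X * derivative (lag n)).coeff m = (m : ℝ) * (lag n).coeff m := by
    cases m with
    | zero => simp
    | succ k =>
      rw [coeff_X_mul, coeff_derivative]
      push_cast
      ring
  rw [sub_mul, one_mul, coeff_add, coeff_add, coeff_sub, h1, h2, coeff_C_mul, coeff_derivative,
    coeff_zero]
  linear_combination hrel

lemma ww_ode (n : ℕ) (x : ℝ) :
    x ^ 2 * (derivative (derivative (ww n))).eval x - (x + x ^ 2) * (derivative (ww n)).eval x
      + (1 + (n + 1) * x) * (ww n).eval x = 0 := by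
  have h := congrArg (fun p : ℝ[X] => p.eval x) (lag_ode n)
  simp only [eval_add, eval_mul, eval_X, eval_sub, eval_one, eval_C, eval_zero] at h
  simp only [ww, derivative_mul, derivative_X, derivative_add, eval_add, eval_mul,
    eval_X, one_mul]
  linear_combination x ^ 2 * h

/-! ### Sonin monotonicity -/

/-- Sonin function of `w = x L_n`. -/
noncomputable def sonin (n : ℕ) (x : ℝ) : ℝ :=
  (ww n).eval x ^ 2 + x ^ 2 * (derivative (ww n)).eval x ^ 2 / (1 + (n + 1) * x)

lemma sonin_mono (n : ℕ) : MonotoneOn (sonin n) (Set.Ici 0) := by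
  have hden : ∀ x : ℝ, 0 ≤ x → (0 : ℝ) < 1 + (n + 1) * x := fun x hx => by positivity
  have hder : ∀ x : ℝ, 0 ≤ x → HasDerivAt (sonin n)
      (2 * (ww n).eval x * (derivative (ww n)).eval x +
        ((2 * x * (derivative (ww n)).eval x ^ 2 +
          x ^ 2 * (2 * (derivative (ww n)).eval x * (derivative (derivative (ww n))).eval x)) *
          (1 + (n + 1) * x) - x ^ 2 * (derivative (ww n)).eval x ^ 2 * (n + 1)) /
          (1 + (n + 1) * x) ^ 2) x := by
    intro x hx
    have h1 := (ww n).hasDerivAt x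
    have h2 := (derivative (ww n)).hasDerivAt x
    have h3 := (h1.pow 2).add ((((hasDerivAt_id x).pow 2).mul (h2.pow 2)).div
      (((hasDerivAt_id x).const_mul ((n : ℝ) + 1)).const_add 1) (hden x hx).ne')
    have h4 : HasDerivAt (sonin n) _ x := h3
    refine h4.congr_deriv ?_
    simp only [id_eq, Pi.pow_apply, Pi.mul_apply, Nat.cast_ofNat]
    ring
  apply monotoneOn_of_deriv_nonneg (convex_Ici 0)
  · intro x hx
    exact (hder x hx).continuousAt.continuousWithinAt
  · intro x hx
    rw [interior_Ici] at hx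
    exact (hder x (le_of_lt hx)).differentiableAt.differentiableWithinAt
  · intro x hx
    rw [interior_Ici] at hx
    have hx0 : 0 < x := hx
    rw [(hder x hx0.le).deriv]
    have hd := hden x hx0.le
    have hode := ww_ode n x
    set W := (ww n).eval x
    set V := (derivative (ww n)).eval x
    set U := (derivative (derivative (ww n))).eval x
    have h1 : x ^ 2 * U = (x + x ^ 2) * V - (1 + (n + 1) * x) * W := by linarith
    have h2 : 2 * W * V + ((2 * x * V ^ 2 + x ^ 2 * (2 * V * U)) * (1 + (n + 1) * x)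
        - x ^ 2 * V ^ 2 * (n + 1)) / (1 + (n + 1) * x) ^ 2 =
        V ^ 2 * (4 * x + 2 * x ^ 2 + 3 * (n + 1) * x ^ 2 + 2 * (n + 1) * x ^ 3) /
          (1 + (n + 1) * x) ^ 2 := by
      have h3 : x ^ 2 * (2 * V * U) = 2 * V * ((x + x ^ 2) * V - (1 + (n + 1) * x) * W) := by
        rw [← h1]; ring
      rw [h3]
      field_simp
      ring
    rw [h2]
    positivity

lemma ww_sq_le (n : ℕ) {x y : ℝ} (hy : 0 ≤ y) (hyx : y ≤ x) (hV : (derivative (ww n)).eval x = 0) :
    (ww n).eval y ^ 2 ≤ (ww n).eval x ^ 2 := by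
  have h := sonin_mono n (Set.mem_Ici.mpr hy) (Set.mem_Ici.mpr (hy.trans hyx)) hyx
  have h1 : sonin n x = (ww n).eval x ^ 2 := by
    simp [sonin, hV]
  have h2 : (ww n).eval y ^ 2 ≤ sonin n y := by
    unfold sonin
    have : 0 ≤ y ^ 2 * (derivative (ww n)).eval y ^ 2 / (1 + (n + 1) * y) := by positivity
    linarith
  linarith

lemma ww_ne_zero_of_crit (n : ℕ) {x : ℝ} (hx : 0 < x) (hV : (derivative (ww n)).eval x = 0) :
    (ww n).eval x ≠ 0 := by
  intro h0
  have h1 : ∀ y ∈ Set.Ioo 0 x, (ww n).IsRoot y := by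
    intro y hy
    have := ww_sq_le n hy.1.le hy.2.le hV
    rw [h0] at this
    have h2 : (ww n).eval y ^ 2 = 0 := le_antisymm (by simpa using this) (sq_nonneg _)
    exact pow_eq_zero_iff (two_ne_zero) |>.mp h2
  have h2 : ww n = 0 := by
    apply Polynomial.eq_zero_of_infinite_isRoot
    exact (Set.Ioo_infinite hx).mono h1
  exact (orz_ww n).ne_zero h2

/-! ### Positivity of the coefficient functional -/

/-- The functional `∑ c_k (1 - u^{k+1}) ↦ ∑ c_k φ_k` is positive. -/
def PosFun (φ : ℕ → ℝ) : Prop := ∀ (n : ℕ) (c : ℕ → ℝ),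
  (∀ u ∈ Set.Icc (0 : ℝ) 1, 0 ≤ ∑ k ∈ Finset.range (n + 1), c k * (1 - u ^ (k + 1))) →
  0 ≤ ∑ k ∈ Finset.range (n + 1), c k * φ k

lemma posFun_frac {a : ℝ} (ha : 0 < a) : PosFun (fun k => ((k : ℝ) + 1) / (a + (k + 1))) := by
  intro n c hc
  have h1 : ∀ k : ℕ, ((k : ℝ) + 1) / (a + (k + 1)) =
      ∫ u in (0 : ℝ)..1, a * (u ^ (a - 1) * (1 - u ^ (k + 1))) := by
    intro k
    have e1 : ∫ u in (0 : ℝ)..1, u ^ (a - 1) = 1 / a := by
      rw [integral_rpow (Or.inl (by linarith))]
      simp [ha.ne']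
    have e2 : ∫ u in (0 : ℝ)..1, u ^ (a + k) = 1 / (a + (k + 1)) := by
      rw [integral_rpow (Or.inl (by have : (0 : ℝ) ≤ k := by positivity
                                    linarith))]
      have h2 : a + (k : ℝ) + 1 ≠ 0 := by positivity
      rw [Real.one_rpow, Real.zero_rpow h2]
      ring
    have e3 : ∫ u in (0 : ℝ)..1, a * (u ^ (a - 1) * (1 - u ^ (k + 1))) =
        ∫ u in (0 : ℝ)..1, a * (u ^ (a - 1) - u ^ (a + k)) := by
      apply intervalIntegral.integral_congr_ae
      refine Filter.Eventually.of_forall fun u hu => ?_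
      rw [Set.uIoc_of_le zero_le_one] at hu
      have hu0 : 0 < u := hu.1
      have : u ^ (a + k) = u ^ (a - 1) * u ^ (k + 1) := by
        rw [← Real.rpow_natCast u (k + 1), ← Real.rpow_add hu0]
        congr 1
        push_cast
        ring
      simp only [this]
      ring
    have i1 : IntervalIntegrable (fun u : ℝ => u ^ (a - 1)) MeasureTheory.volume 0 1 :=
      intervalIntegral.intervalIntegrable_rpow' (by linarith)
    have i2 : IntervalIntegrable (fun u : ℝ => u ^ (a + k)) MeasureTheory.volume 0 1 :=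
      intervalIntegral.intervalIntegrable_rpow' (by have : (0 : ℝ) ≤ k := by positivity
                                                    linarith)
    rw [e3, intervalIntegral.integral_const_mul, intervalIntegral.integral_sub i1 i2, e1, e2]
    have h2 : a + ((k : ℝ) + 1) ≠ 0 := by positivity
    field_simp
    ring
  have i3 : ∀ k : ℕ, IntervalIntegrable (fun u : ℝ => c k * (a * (u ^ (a - 1) * (1 - u ^ (k + 1)))))
      MeasureTheory.volume 0 1 := by
    intro k
    have i1 : IntervalIntegrable (fun u : ℝ => u ^ (a - 1)) MeasureTheory.volume 0 1 :=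
      intervalIntegral.intervalIntegrable_rpow' (by linarith)
    have i2 := i1.mul_continuousOn (g := fun u : ℝ => 1 - u ^ (k + 1)) (by fun_prop)
    exact (i2.const_mul a).const_mul (c k)
  have h2 : ∑ k ∈ Finset.range (n + 1), c k * (((k : ℝ) + 1) / (a + (k + 1))) =
      ∫ u in (0 : ℝ)..1, ∑ k ∈ Finset.range (n + 1), c k * (a * (u ^ (a - 1) * (1 - u ^ (k + 1)))) := by
    rw [intervalIntegral.integral_finsetSum (fun k _ => i3 k)]
    refine Finset.sum_congr rfl fun k _ => ?_
    rw [h1 k]
    exact (intervalIntegral.integral_const_mul _ _).symm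
  rw [h2]
  apply intervalIntegral.integral_nonneg zero_le_one
  intro u hu
  have h3 : ∑ k ∈ Finset.range (n + 1), c k * (a * (u ^ (a - 1) * (1 - u ^ (k + 1)))) =
      a * u ^ (a - 1) * ∑ k ∈ Finset.range (n + 1), c k * (1 - u ^ (k + 1)) := by
    rw [Finset.mul_sum]
    refine Finset.sum_congr rfl fun k _ => ?_
    ring
  rw [h3]
  have h4 : 0 ≤ u ^ (a - 1) := Real.rpow_nonneg hu.1 _
  exact mul_nonneg (mul_nonneg ha.le h4) (hc u hu)

lemma log_integral (k : ℕ) : Real.log ((k : ℝ) + 2) =
    ∫ v in (0 : ℝ)..1, ((k : ℝ) + 1) / (1 + (k + 1) * v) := by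
  have hpos : ∀ v ∈ Set.uIcc (0 : ℝ) 1, (0 : ℝ) < 1 + (k + 1) * v := by
    intro v hv
    rw [Set.uIcc_of_le zero_le_one] at hv
    have := hv.1
    positivity
  have h1 : ∀ v ∈ Set.uIcc (0 : ℝ) 1, HasDerivAt (fun v : ℝ => Real.log (1 + (k + 1) * v))
      (((k : ℝ) + 1) / (1 + (k + 1) * v)) v := by
    intro v hv
    have h2 : HasDerivAt (fun v : ℝ => 1 + ((k : ℝ) + 1) * v) ((k : ℝ) + 1) v := by
      have := ((hasDerivAt_id v).const_mul ((k : ℝ) + 1)).const_add 1
      simpa using this
    exact h2.log (hpos v hv).ne'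
  rw [intervalIntegral.integral_eq_sub_of_hasDerivAt h1]
  · simp
    ring_nf
  · apply ContinuousOn.intervalIntegrable
    apply ContinuousOn.div (by fun_prop) (by fun_prop)
    intro v hv
    exact (hpos v hv).ne'

lemma posFun_log : PosFun (fun k => Real.log ((k : ℝ) + 2)) := by
  intro n c hc
  have i1 : ∀ k : ℕ, IntervalIntegrable (fun v : ℝ => c k * (((k : ℝ) + 1) / (1 + (k + 1) * v)))
      MeasureTheory.volume 0 1 := by
    intro k
    apply ContinuousOn.intervalIntegrable
    apply ContinuousOn.mul (by fun_prop)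
    apply ContinuousOn.div (by fun_prop) (by fun_prop)
    intro v hv
    rw [Set.uIcc_of_le zero_le_one] at hv
    have := hv.1
    positivity
  have h2 : ∑ k ∈ Finset.range (n + 1), c k * Real.log ((k : ℝ) + 2) =
      ∫ v in (0 : ℝ)..1, ∑ k ∈ Finset.range (n + 1), c k * (((k : ℝ) + 1) / (1 + (k + 1) * v)) := by
    rw [intervalIntegral.integral_finsetSum (fun k _ => i1 k)]
    refine Finset.sum_congr rfl fun k _ => ?_
    rw [log_integral k, intervalIntegral.integral_const_mul]
  rw [h2]
  apply intervalIntegral.integral_nonneg_of_ae_restrict zero_le_one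
  filter_upwards [MeasureTheory.ae_restrict_mem measurableSet_Icc,
    MeasureTheory.ae_restrict_of_ae (MeasureTheory.Measure.ae_ne MeasureTheory.volume (0 : ℝ))] with v hv hv0
  have hv1 : 0 < v := lt_of_le_of_ne hv.1 (Ne.symm hv0)
  have h3 := posFun_frac (a := 1 / v) (by positivity) n c hc
  have h4 : ∑ k ∈ Finset.range (n + 1), c k * (((k : ℝ) + 1) / (1 + (k + 1) * v)) =
      (1 / v) * ∑ k ∈ Finset.range (n + 1), c k * (((k : ℝ) + 1) / (1 / v + (k + 1))) := by
    rw [Finset.mul_sum]
    refine Finset.sum_congr rfl fun k _ => ?_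
    have h5 : (1 : ℝ) + (k + 1) * v ≠ 0 := by positivity
    have h6 : (1 : ℝ) / v + (k + 1) ≠ 0 := by positivity
    field_simp
  simp only [Pi.zero_apply]
  rw [h4]
  positivity

/-! ### Jensen polynomials of `φ_k / k!` -/

/-- The reflected Jensen polynomial. -/
noncomputable def GG (φ : ℕ → ℝ) (n : ℕ) : ℝ[X] :=
  ∑ k ∈ Finset.range (n + 1), C ((lag n).coeff k * φ k) * X ^ k

lemma GG_coeff (φ : ℕ → ℝ) (n k : ℕ) : (GG φ n).coeff k = (lag n).coeff k * φ k := by
  rw [GG, finsetSum_coeff]
  simp only [coeff_C_mul, coeff_X_pow, mul_ite, mul_one, mul_zero]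
  rw [Finset.sum_ite_eq]
  split_ifs with h
  · rfl
  · simp only [Finset.mem_range, not_lt] at h
    rw [lag_coeff, Nat.choose_eq_zero_of_lt (by omega)]
    simp

lemma ww_eval (n : ℕ) (x : ℝ) :
    (ww n).eval x = ∑ k ∈ Finset.range (n + 1), (lag n).coeff k * x ^ (k + 1) := by
  rw [ww, eval_mul, eval_X]
  conv_lhs => rw [lag]
  rw [eval_finsetSum, Finset.mul_sum]
  refine Finset.sum_congr rfl fun k _ => ?_
  rw [eval_mul, eval_C, eval_pow, eval_X, lag_coeff]
  ring

lemma dww_coeff (n k : ℕ) : (derivative (ww n)).coeff k = (lag n).coeff k * ((k : ℝ) + 1) := by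
  rw [coeff_derivative, ww, coeff_X_mul]

lemma dww_eval (n : ℕ) (x : ℝ) : (derivative (ww n)).eval x =
    ∑ k ∈ Finset.range (n + 1), (n.choose k : ℝ) * ((k : ℝ) + 1) / (k.factorial : ℝ) * (-x) ^ k := by
  have hd : (derivative (ww n)).natDegree < n + 1 := by
    have := natDegree_derivative_lt (p := ww n) (by rw [ww_natDegree]; omega)
    rwa [ww_natDegree] at this
  rw [eval_eq_sum_range' hd]
  refine Finset.sum_congr rfl fun k _ => ?_
  rw [dww_coeff, lag_coeff, neg_pow x k]
  ring

lemma dww_root_pos (n : ℕ) {x : ℝ} (h : (derivative (ww n)).eval x = 0) : 0 < x := by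
  by_contra hx
  push Not at hx
  rw [dww_eval, Finset.sum_range_succ'] at h
  have h1 : 0 ≤ ∑ k ∈ Finset.range n, (n.choose (k + 1) : ℝ) * (((k + 1 : ℕ) : ℝ) + 1) /
      ((k + 1).factorial : ℝ) * (-x) ^ (k + 1) := by
    apply Finset.sum_nonneg
    intro k _
    have : 0 ≤ (-x) ^ (k + 1) := pow_nonneg (by linarith) _
    positivity
  simp at h
  push_cast at h1
  linarith

lemma sign_at_crit {φ : ℕ → ℝ} (hP : PosFun φ) (n : ℕ) {x : ℝ}
    (hV : (derivative (ww n)).eval x = 0) : 0 ≤ (ww n).eval x * (GG φ n).eval x := by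
  have hx : 0 < x := dww_root_pos n hV
  have h1 := hP n (fun k => (ww n).eval x * ((lag n).coeff k * x ^ (k + 1))) (by
    intro u hu
    have h2 : ∑ k ∈ Finset.range (n + 1),
        (ww n).eval x * ((lag n).coeff k * x ^ (k + 1)) * (1 - u ^ (k + 1)) =
        (ww n).eval x * ((ww n).eval x - (ww n).eval (u * x)) := by
      conv_rhs => rw [ww_eval n (u * x)]
      conv_rhs => rw [show (ww n).eval x * ((ww n).eval x -
        ∑ k ∈ Finset.range (n + 1), (lag n).coeff k * (u * x) ^ (k + 1)) =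
        (ww n).eval x * (∑ k ∈ Finset.range (n + 1), (lag n).coeff k * x ^ (k + 1) -
        ∑ k ∈ Finset.range (n + 1), (lag n).coeff k * (u * x) ^ (k + 1)) by rw [← ww_eval n x]]
      rw [← Finset.sum_sub_distrib, Finset.mul_sum]
      refine Finset.sum_congr rfl fun k _ => ?_
      rw [mul_pow]
      ring
    rw [h2]
    have h3 : (ww n).eval (u * x) ^ 2 ≤ (ww n).eval x ^ 2 :=
      ww_sq_le n (mul_nonneg hu.1 hx.le) (by nlinarith [hu.2]) hV
    nlinarith [sq_nonneg ((ww n).eval x - (ww n).eval (u * x))])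
  have h4 : ∑ k ∈ Finset.range (n + 1), (ww n).eval x * ((lag n).coeff k * x ^ (k + 1)) * φ k =
      x * ((ww n).eval x * (GG φ n).eval x) := by
    rw [GG, eval_finsetSum, Finset.mul_sum, Finset.mul_sum]
    refine Finset.sum_congr rfl fun k _ => ?_
    rw [eval_mul, eval_C, eval_pow, eval_X]
    ring
  rw [h4] at h1
  exact nonneg_of_mul_nonneg_right h1 hx

lemma GG_ne_zero {φ : ℕ → ℝ} (hφ : ∀ k, 0 < φ k) (hP : PosFun φ) (n : ℕ) {z : ℂ}
    (hz : z.im ≠ 0) : aeval z (GG φ n) ≠ 0 := by
  intro hG0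
  set V : ℝ[X] := derivative (ww n) with hVdef
  have hV : ORZ V := orz_dww n
  have hV0 : V ≠ 0 := hV.ne_zero
  have hlagn : (lag n).coeff n ≠ 0 := by
    rw [lag_coeff]
    have h7 : (n.factorial : ℝ) ≠ 0 := by positivity
    simp [h7]
  have hVn : V.coeff n ≠ 0 := by
    rw [hVdef, dww_coeff]
    exact mul_ne_zero hlagn (by positivity)
  have hVdeg : V.natDegree = n := by
    apply le_antisymm
    · have := natDegree_derivative_lt (p := ww n) (by rw [ww_natDegree]; omega)
      rw [ww_natDegree, ← hVdef] at this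
      omega
    · exact le_natDegree_of_ne_zero hVn
  have hsplit : V.Splits := by
    apply Splits.of_splits_map (algebraMap ℝ ℂ) (IsAlgClosed.splits _)
    intro a ha
    have h1 : a.im = 0 := by
      apply hV a
      rw [aeval_def, ← eval_map]
      exact Polynomial.isRoot_of_mem_roots ha
    exact ⟨a.re, by apply Complex.ext <;> simp [h1]⟩
  have hcrit : ∀ x : ℝ, V.eval x = 0 → (derivative V).eval x ≠ 0 ∧
      (GG φ n).eval x * (derivative V).eval x ≤ 0 := by
    intro x hx
    have hx0 : 0 < x := dww_root_pos n hx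
    have hW := ww_ne_zero_of_crit n hx0 hx
    have hode := ww_ode n x
    rw [← hVdef, hx] at hode
    have hs := sign_at_crit hP n hx
    have hd : (0 : ℝ) < 1 + (n + 1) * x := by positivity
    have h1 : (derivative V).eval x = -((1 + (n + 1) * x) / x ^ 2) * (ww n).eval x := by
      field_simp
      linarith
    constructor
    · rw [h1]
      refine mul_ne_zero (neg_ne_zero.mpr ?_) hW
      positivity
    · rw [h1]
      have : 0 ≤ (1 + (n + 1) * x) / x ^ 2 := by positivity
      nlinarith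
  have hnodup : V.roots.Nodup := by
    rw [Multiset.nodup_iff_count_le_one]
    intro a
    rw [count_roots]
    by_contra hlt
    push Not at hlt
    rw [one_lt_rootMultiplicity_iff_isRoot hV0] at hlt
    exact (hcrit a hlt.1).1 hlt.2
  set s : Finset ℝ := ⟨V.roots, hnodup⟩ with hs
  have hscard : s.card = n := by
    have := splits_iff_card_roots.mp hsplit
    rw [hVdeg] at this
    exact this
  have hmem : ∀ x : ℝ, x ∈ s → V.eval x = 0 := by
    intro x hx
    exact Polynomial.isRoot_of_mem_roots (p := V) hx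
  set v : ℝ → ℂ := fun x => (x : ℂ) with hv
  have hinj : Set.InjOn v s := fun a _ b _ hab => Complex.ofReal_injective hab
  have hVc : V.map (algebraMap ℝ ℂ) = C (V.coeff n : ℂ) * Lagrange.nodal s v := by
    conv_lhs => rw [hsplit.eq_prod_roots]
    rw [Polynomial.map_mul, map_C, Polynomial.map_multiset_prod, Multiset.map_map]
    congr 1
    · rw [leadingCoeff, hVdeg]
      rfl
    · rw [Lagrange.nodal]
      change _ = (Multiset.map _ V.roots).prod
      congr 1
      apply Multiset.map_congr rfl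
      intro a _
      simp [hv]
  set c : ℝ := (GG φ n).coeff n / V.coeff n with hc
  have hc0 : c ≠ 0 := by
    rw [hc, GG_coeff]
    exact div_ne_zero (mul_ne_zero hlagn (hφ n).ne') hVn
  set r : ℂ[X] := (GG φ n).map (algebraMap ℝ ℂ) - C (c : ℂ) * V.map (algebraMap ℝ ℂ) with hr
  have hrdeg : r.degree < s.card := by
    rw [hscard, degree_lt_iff_coeff_zero]
    intro m hm
    rw [hr, coeff_sub, coeff_C_mul, coeff_map, coeff_map]
    rcases eq_or_lt_of_le hm with h | h
    · subst h
      rw [hc]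
      have : ((V.coeff n : ℝ) : ℂ) ≠ 0 := by exact_mod_cast hVn
      simp only [Complex.coe_algebraMap]
      push_cast
      field_simp
      ring
    · rw [GG_coeff, lag_coeff, Nat.choose_eq_zero_of_lt h, coeff_eq_zero_of_natDegree_lt (by omega)]
      simp
  have hreval : ∀ i ∈ s, r.eval (v i) = (((GG φ n).eval i : ℝ) : ℂ) := by
    intro i hi
    rw [hr, eval_sub, eval_mul, eval_C, hv]
    simp only
    have e1 : ∀ q : ℝ[X], (q.map (algebraMap ℝ ℂ)).eval (i : ℂ) = ((q.eval i : ℝ) : ℂ) := by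
      intro q
      have := Polynomial.eval_map_apply (p := q) (algebraMap ℝ ℂ) i
      simpa using this
    rw [e1, e1, hmem i hi]
    simp
  have hint := Lagrange.eq_interpolate_of_eval_eq (r := fun i => (((GG φ n).eval i : ℝ) : ℂ))
    hinj hrdeg hreval
  have hzne : ∀ i ∈ s, z ≠ v i := by
    intro i _ h
    apply hz
    rw [h]
    simp [hv]
  have heval := Lagrange.eval_interpolate_not_at_node
    (fun i => (((GG φ n).eval i : ℝ) : ℂ)) hzne
  rw [← hint] at heval
  have hnodalz : (Lagrange.nodal s v).eval z ≠ 0 := Lagrange.eval_nodal_not_at_node hzne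
  have hw : ∀ i ∈ s, Lagrange.nodalWeight s v i =
      ((V.coeff n / (derivative V).eval i : ℝ) : ℂ) := by
    intro i hi
    rw [Lagrange.nodalWeight_eq_eval_derivative_nodal hi]
    have e1 : (derivative (V.map (algebraMap ℝ ℂ))).eval (v i) = (((derivative V).eval i : ℝ) : ℂ) := by
      rw [derivative_map]
      have := Polynomial.eval_map_apply (p := derivative V) (algebraMap ℝ ℂ) i
      simpa using this
    rw [hVc, derivative_C_mul, eval_mul, eval_C] at e1
    have e2 : ((V.coeff n : ℝ) : ℂ) ≠ 0 := by exact_mod_cast hVn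
    have e3 : (((derivative V).eval i : ℝ) : ℂ) ≠ 0 := by
      exact_mod_cast (hcrit i (hmem i hi)).1
    have e4 : eval (v i) (derivative (Lagrange.nodal s v)) ≠ 0 := by
      intro h
      rw [h, mul_zero] at e1
      exact e3 e1.symm
    push_cast
    field_simp
    linear_combination -e1
  have hGz : (((GG φ n).map (algebraMap ℝ ℂ)).eval z) = 0 := by
    rw [eval_map, ← aeval_def]
    exact hG0
  have hmain : (c : ℂ) + ∑ i ∈ s, (((GG φ n).eval i / (derivative V).eval i : ℝ) : ℂ) * (z - v i)⁻¹ = 0 := by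
    rw [hr, eval_sub, eval_mul, eval_C, hGz, hVc, eval_mul, eval_C] at heval
    have h1 : eval z (Lagrange.nodal s v) * ((V.coeff n : ℝ) : ℂ) *
        ((c : ℂ) + ∑ i ∈ s, (((GG φ n).eval i / (derivative V).eval i : ℝ) : ℂ) * (z - v i)⁻¹) = 0 := by
      have h2 : ((V.coeff n : ℝ) : ℂ) *
          ∑ i ∈ s, (((GG φ n).eval i / (derivative V).eval i : ℝ) : ℂ) * (z - v i)⁻¹ =
          ∑ i ∈ s, Lagrange.nodalWeight s v i * (z - v i)⁻¹ * (((GG φ n).eval i : ℝ) : ℂ) := by
        rw [Finset.mul_sum]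
        refine Finset.sum_congr rfl fun i hi => ?_
        rw [hw i hi]
        push_cast
        ring
      rw [mul_add, mul_assoc _ _ (∑ i ∈ s, _), h2, ← heval]
      ring
    have e2 : ((V.coeff n : ℝ) : ℂ) ≠ 0 := by exact_mod_cast hVn
    rcases mul_eq_zero.mp h1 with h | h
    · exact absurd h (mul_ne_zero hnodalz e2)
    · exact h
  have him := congrArg Complex.im hmain
  rw [Complex.add_im, Complex.ofReal_im, Complex.im_sum, zero_add, Complex.zero_im] at him
  have hterm : ∀ i ∈ s, ((((GG φ n).eval i / (derivative V).eval i : ℝ) : ℂ) * (z - v i)⁻¹).im =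
      z.im * (-((GG φ n).eval i / (derivative V).eval i) / Complex.normSq (z - v i)) := by
    intro i _
    have h1 : (z - v i).im = z.im := by simp [hv]
    rw [Complex.im_ofReal_mul, Complex.inv_im, h1]
    ring
  rw [Finset.sum_congr rfl hterm, ← Finset.mul_sum] at him
  have hsum0 : ∑ i ∈ s, (-((GG φ n).eval i / (derivative V).eval i) / Complex.normSq (z - v i)) = 0 := by
    rcases mul_eq_zero.mp him with h | h
    · exact absurd h hz
    · exact h
  have hnn : ∀ i ∈ s, 0 ≤ -((GG φ n).eval i / (derivative V).eval i) / Complex.normSq (z - v i) := by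
    intro i hi
    obtain ⟨h1, h2⟩ := hcrit i (hmem i hi)
    apply div_nonneg _ (Complex.normSq_nonneg _)
    rw [neg_nonneg, div_eq_mul_inv]
    have h3 : (GG φ n).eval i * ((derivative V).eval i)⁻¹ =
        ((GG φ n).eval i * (derivative V).eval i) * (((derivative V).eval i)⁻¹) ^ 2 := by
      field_simp
    rw [h3]
    exact mul_nonpos_of_nonpos_of_nonneg h2 (sq_nonneg _)
  have hall := (Finset.sum_eq_zero_iff_of_nonneg hnn).mp hsum0
  have hzero : ∀ i ∈ s, (((GG φ n).eval i / (derivative V).eval i : ℝ) : ℂ) * (z - v i)⁻¹ = 0 := by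
    intro i hi
    have h1 := hall i hi
    have h2 : Complex.normSq (z - v i) ≠ 0 := by
      rw [Ne, Complex.normSq_eq_zero, sub_eq_zero]
      exact hzne i hi
    have h3 : (GG φ n).eval i / (derivative V).eval i = 0 := by
      rcases div_eq_zero_iff.mp h1 with h | h
      · linarith
      · exact absurd h h2
    rw [h3]
    simp
  rw [Finset.sum_eq_zero hzero, add_zero] at hmain
  exact hc0 (by exact_mod_cast hmain)

lemma jensen_eq (φ : ℕ → ℝ) (n : ℕ) (z : ℂ) :
    aeval z (jensen (fun k => φ k / (k.factorial : ℝ)) n) = aeval (-z) (GG φ n) := by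
  unfold jensen GG
  rw [map_sum, map_sum]
  refine Finset.sum_congr rfl fun k _ => ?_
  simp only [map_mul, aeval_C, map_pow, aeval_X, Complex.coe_algebraMap]
  rw [lag_coeff]
  have h7 : (k.factorial : ℂ) ≠ 0 := by exact_mod_cast Nat.factorial_ne_zero k
  push_cast
  rw [neg_pow z k]
  have h8 : ((-1 : ℂ) ^ k) * ((-1 : ℂ) ^ k) = 1 := by
    rw [← mul_pow]; simp
  field_simp
  linear_combination (-(n.choose k : ℂ) * (φ k : ℂ) * z ^ k) * h8

lemma jensen_ornz {φ : ℕ → ℝ} (hφ : ∀ k, 0 < φ k) (hP : PosFun φ) (n : ℕ) :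
    ORNZ (jensen (fun k => φ k / (k.factorial : ℝ)) n) := by
  intro z hz
  have him : z.im = 0 := by
    by_contra h
    rw [jensen_eq] at hz
    exact GG_ne_zero hφ hP n (z := -z) (by simpa using h) hz
  refine ⟨him, ?_⟩
  by_contra hre
  push Not at hre
  have hzr : z = (z.re : ℂ) := by
    apply Complex.ext <;> simp [him]
  rw [hzr] at hz
  have h1 : aeval (z.re : ℂ) (jensen (fun k => φ k / (k.factorial : ℝ)) n) =
      (((jensen (fun k => φ k / (k.factorial : ℝ)) n).eval z.re : ℝ) : ℂ) := by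
    rw [aeval_def, ← eval_map]
    have := Polynomial.eval_map_apply (p := jensen (fun k => φ k / (k.factorial : ℝ)) n)
      (algebraMap ℝ ℂ) z.re
    simpa using this
  rw [h1] at hz
  have h2 : (jensen (fun k => φ k / (k.factorial : ℝ)) n).eval z.re = 0 := by exact_mod_cast hz
  have h3 : 0 < (jensen (fun k => φ k / (k.factorial : ℝ)) n).eval z.re := by
    unfold jensen
    rw [eval_finsetSum]
    apply Finset.sum_pos'
    · intro k _
      rw [eval_mul, eval_C, eval_pow, eval_X]
      have := (hφ k).le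
      positivity
    · refine ⟨0, by simp, ?_⟩
      simp [hφ 0]
  linarith

/-- General theorem. -/
theorem orz_diag_of_posFun {φ : ℕ → ℝ} (hφ : ∀ k, 0 < φ k) (hP : PosFun φ) {p : ℝ[X]}
    (hp : ORZ p) : ORZ (diag (fun k => φ k / (k.factorial : ℝ)) p) := by
  apply orz_diag (fun N => jensen_ornz hφ hP N) _ hp
  intro k
  have := hφ k
  positivity


end Pool.Agent.Helper51.Mult
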